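import Mathlib

set_option autoImplicit false

/-!
# The algebraic inequality behind the majorization theorem

`a = w'(0)`, `v` with `|v| = q ≤ r = |z|`, `(a + v) / (1 + a v) = w(z) / z`.
-/

namespace Pool.Agent.R255.Camp

/-- The homogeneous polynomial inequality. -/
theorem poly_ineq {al be u w y : ℝ} (hal : 0 ≤ al) (hbe : 0 ≤ be) (hu : 0 ≤ u) (hw : 0 ≤ w)
    (huw : u ≤ w) (h3 : w ≤ 3 * u) (hy : 1 ≤ y) (hay : al * y ≤ be) :
    ((u + w) * be * y - u * al * y ^ 2 - w * be) * ((2 * u - w) * al * y ^ 2 + w * be) ≤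
      (be ^ 2 - al ^ 2) * u * w * y ^ 4 := by
  have key : (be ^ 2 - al ^ 2) * u * w * y ^ 4 -
      ((u + w) * be * y - u * al * y ^ 2 - w * be) * ((2 * u - w) * al * y ^ 2 + w * be) =
      (be - al * y) * (be * (w * ((y - 1) * (u * y * (y ^ 2 + y + 1) - w)))) +
      al * y * (be * (w * ((y - 1) ^ 2 * (u * y ^ 2 + 2 * u * y + w)))) +
      2 * u * (w - u) * y ^ 3 * al * (be - al * y) := by
    ring
  have h1 : 0 ≤ be - al * y := by linarith
  have h2 : 0 ≤ y - 1 := by linarith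
  have hy0 : 0 ≤ y := by linarith
  have h4 : 0 ≤ u * y * (y ^ 2 + y + 1) - w := by
    have e1 : (3 : ℝ) ≤ y * (y ^ 2 + y + 1) := by nlinarith [mul_nonneg h2 hy0]
    have e2 : u * 3 ≤ u * (y * (y ^ 2 + y + 1)) := mul_le_mul_of_nonneg_left e1 hu
    linarith
  have h5 : 0 ≤ w - u := by linarith
  have t1 : 0 ≤ (be - al * y) * (be * (w * ((y - 1) * (u * y * (y ^ 2 + y + 1) - w)))) := by
    positivity
  have t2 : 0 ≤ al * y * (be * (w * ((y - 1) ^ 2 * (u * y ^ 2 + 2 * u * y + w)))) := by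
    positivity
  have t3 : 0 ≤ 2 * u * (w - u) * y ^ 3 * al * (be - al * y) := by
    positivity
  linarith

theorem m_upper {a q x m : ℝ} (ha0 : 0 ≤ a) (hq : 0 ≤ q) (hx : -q ≤ x) (hx' : x ≤ q)
    (hm : m ^ 2 = (1 + q ^ 2 + 2 * a * x) ^ 2 - (1 - q ^ 2) ^ 2 * (1 - a ^ 2)) :
    m ≤ a + 2 * q + a * q ^ 2 := by
  apply le_of_sq_le_sq _ (by positivity)
  have hqx : 0 ≤ q - x := by linarith
  have hqx' : 0 ≤ q + x := by linarith
  have e1 : (a + 2 * q + a * q ^ 2) ^ 2 - m ^ 2 =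
      4 * (a * (q - x)) * ((1 + q ^ 2) + a * (q + x)) := by
    rw [hm]; ring
  have e2 : 0 ≤ 4 * (a * (q - x)) * ((1 + q ^ 2) + a * (q + x)) := by positivity
  linarith

theorem m_lower {a q x m : ℝ} (ha0 : 0 ≤ a) (ha1 : a ≤ 1) (hq : 0 ≤ q) (hx : -q ≤ x)
    (hx' : x ≤ q) (hm0 : 0 ≤ m)
    (hm : m ^ 2 = (1 + q ^ 2 + 2 * a * x) ^ 2 - (1 - q ^ 2) ^ 2 * (1 - a ^ 2)) :
    2 * q - a * (1 + q ^ 2) ≤ m := by
  by_cases hneg : 2 * q - a * (1 + q ^ 2) ≤ 0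
  · linarith
  · push Not at hneg
    have hqx : 0 ≤ q - x := by linarith
    have hqx' : 0 ≤ q + x := by linarith
    apply le_of_sq_le_sq _ hm0
    have e1 : m ^ 2 - (2 * q - a * (1 + q ^ 2)) ^ 2 =
        4 * (a * (q + x)) * ((1 + q ^ 2) - a * (q - x)) := by
      rw [hm]; ring
    have e2 : a * (q - x) ≤ 1 * (2 * q) := by
      apply mul_le_mul ha1 (by linarith) hqx (by norm_num)
    have e3 : 0 ≤ (1 + q ^ 2) - a * (q - x) := by linarith [sq_nonneg (1 - q)]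
    have e4 : 0 ≤ 4 * (a * (q + x)) * ((1 + q ^ 2) - a * (q - x)) := by positivity
    linarith

/-- Translation of the polynomial inequality. -/
theorem blaschke_aux {a q N m y X : ℝ} (hapos : 0 < a) (hypos : 0 < y)
    (hp1y : N - m = (1 - q) ^ 2 * (1 - a) * y) (hp2y : (N + m) * y = (1 + q) ^ 2 * (1 + a))
    (haX : a * X = (1 + q ^ 2) * (1 + a) - N)
    (main : (((1 - q) ^ 2 + (1 + q) ^ 2) * (1 + a) * y - (1 - q) ^ 2 * (1 - a) * y ^ 2 -
        (1 + q) ^ 2 * (1 + a)) * ((2 * (1 - q) ^ 2 - (1 + q) ^ 2) * (1 - a) * y ^ 2 +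
        (1 + q) ^ 2 * (1 + a)) ≤
      ((1 + a) ^ 2 - (1 - a) ^ 2) * (1 - q) ^ 2 * (1 + q) ^ 2 * y ^ 4) :
    (1 - a) ^ 2 * X * ((1 - 4 * q + q ^ 2) * N + 2 * q * m) ≤ (N - m) ^ 2 * (1 + q) ^ 2 := by
  have hNy : 2 * N * y = (1 - q) ^ 2 * (1 - a) * y ^ 2 + (1 + q) ^ 2 * (1 + a) := by
    have : 2 * N * y = (N - m) * y + (N + m) * y := by ring
    rw [this, hp2y, hp1y]; ring
  have hmy : 2 * m * y = (1 + q) ^ 2 * (1 + a) - (1 - q) ^ 2 * (1 - a) * y ^ 2 := by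
    have : 2 * m * y = (N + m) * y - (N - m) * y := by ring
    rw [this, hp2y, hp1y]; ring
  have hy2 : (0:ℝ) < 4 * y ^ 2 * a := by positivity
  have e2 : 4 * y ^ 2 * a * ((1 - a) ^ 2 * X * ((1 - 4 * q + q ^ 2) * N + 2 * q * m)) =
      (1 - a) ^ 2 * (2 * ((1 + q ^ 2) * (1 + a)) * y - 2 * N * y) *
      ((1 - 4 * q + q ^ 2) * (2 * N * y) + 2 * q * (2 * m * y)) := by
    have : 2 * ((1 + q ^ 2) * (1 + a)) * y - 2 * N * y = 2 * y * (a * X) := by rw [haX]; ring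
    rw [this]; ring
  have e3 : 4 * y ^ 2 * a * ((N - m) ^ 2 * (1 + q) ^ 2) =
      (1 - a) ^ 2 * (1 - q) ^ 2 *
        (((1 + a) ^ 2 - (1 - a) ^ 2) * (1 - q) ^ 2 * (1 + q) ^ 2 * y ^ 4) := by
    rw [hp1y]; ring
  have e4 : (1 - a) ^ 2 * (2 * ((1 + q ^ 2) * (1 + a)) * y - 2 * N * y) *
      ((1 - 4 * q + q ^ 2) * (2 * N * y) + 2 * q * (2 * m * y)) =
      (1 - a) ^ 2 * (1 - q) ^ 2 * ((((1 - q) ^ 2 + (1 + q) ^ 2) * (1 + a) * y -
        (1 - q) ^ 2 * (1 - a) * y ^ 2 - (1 + q) ^ 2 * (1 + a)) *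
        ((2 * (1 - q) ^ 2 - (1 + q) ^ 2) * (1 - a) * y ^ 2 + (1 + q) ^ 2 * (1 + a))) := by
    rw [hNy, hmy]
    ring
  have e5 : 0 ≤ (1 - a) ^ 2 * (1 - q) ^ 2 := by positivity
  have e6 := mul_le_mul_of_nonneg_left main e5
  rw [← e4, ← e3, ← e2] at e6
  exact le_of_mul_le_mul_left e6 hy2

/-- The inequality for Blaschke products of degree two, in squared form. -/
theorem blaschke_sq {a q x m : ℝ} (ha0 : 0 ≤ a) (ha1 : a < 1) (hq : 0 ≤ q) (hq1 : q < 1)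
    (hr : 0 ≤ 1 - 4 * q + q ^ 2) (hx : -q ≤ x) (hx' : x ≤ q) (hm0 : 0 ≤ m)
    (hm : m ^ 2 = (1 + q ^ 2 + 2 * a * x) ^ 2 - (1 - q ^ 2) ^ 2 * (1 - a ^ 2)) :
    (1 - a) ^ 2 * (1 - 2 * x + q ^ 2) *
      ((1 - 4 * q + q ^ 2) * (1 + q ^ 2 + 2 * a * x) + 2 * q * m) ≤
      (1 + q ^ 2 + 2 * a * x - m) ^ 2 * (1 + q) ^ 2 := by
  have hqx : 0 ≤ q - x := by linarith
  have hqx' : 0 ≤ q + x := by linarith
  rcases eq_or_lt_of_le ha0 with h0 | hapos
  · subst h0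
    have hm2 : m = 2 * q := by
      have : m ^ 2 = (2 * q) ^ 2 := by rw [hm]; ring
      exact (pow_left_inj₀ hm0 (by linarith) (by norm_num)).mp this
    subst hm2
    have e1 : (1 - (0:ℝ)) ^ 2 * (1 - 2 * x + q ^ 2) *
      ((1 - 4 * q + q ^ 2) * (1 + q ^ 2 + 2 * 0 * x) + 2 * q * (2 * q)) =
      (1 - 2 * x + q ^ 2) * (1 - q) ^ 4 := by ring
    have e2 : (1 + q ^ 2 + 2 * 0 * x - 2 * q) ^ 2 * (1 + q) ^ 2 = (1 + q) ^ 2 * (1 - q) ^ 4 := by ring
    rw [e1, e2]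
    apply mul_le_mul_of_nonneg_right _ (by positivity)
    linarith
  · have haqx := mul_nonneg ha0 hqx
    have haqx' := mul_nonneg ha0 hqx'
    have hmu := m_upper ha0 hq hx hx' hm
    have hml := m_lower ha0 ha1.le hq hx hx' hm0 hm
    have hN : 0 < 1 + q ^ 2 + 2 * a * x := by
      have e1 : 1 + q ^ 2 + 2 * a * x = (1 - q) ^ 2 + 2 * q * (1 - a) + 2 * (a * (q + x)) := by ring
      have e2 : 0 < (1 - q) ^ 2 := by
        have : 0 < 1 - q := by linarith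
        positivity
      have e3 : 0 ≤ 2 * q * (1 - a) := mul_nonneg (by linarith) (by linarith)
      linarith
    have hC : 0 < (1 - q ^ 2) ^ 2 * (1 - a ^ 2) := by
      have h1 : 0 < 1 - q ^ 2 := by nlinarith
      have h2 : 0 < 1 - a ^ 2 := by nlinarith
      positivity
    have hp2u : (1 + q ^ 2 + 2 * a * x) + m ≤ (1 + q) ^ 2 * (1 + a) := by linarith
    have hp2l : (1 + q) ^ 2 * (1 - a) ≤ (1 + q ^ 2 + 2 * a * x) + m := by linarith
    have haX : a * (1 - 2 * x + q ^ 2) = (1 + q ^ 2) * (1 + a) - (1 + q ^ 2 + 2 * a * x) := by ring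
    have hu : 0 < (1 - q) ^ 2 := by
      have : 0 < 1 - q := by linarith
      positivity
    have huw : (1 - q) ^ 2 ≤ (1 + q) ^ 2 := by linarith
    have h3 : (1 + q) ^ 2 ≤ 3 * (1 - q) ^ 2 := by linarith
    clear hmu hml haqx haqx' hqx hqx' hx hx' hr
    generalize 1 + q ^ 2 + 2 * a * x = N at *
    generalize 1 - 2 * x + q ^ 2 = X at *
    have hmN : m < N := by
      apply lt_of_pow_lt_pow_left₀ 2 hN.le
      linarith
    have hp1 : 0 < N - m := by linarith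
    have hp : (N - m) * (N + m) = (1 - q ^ 2) ^ 2 * (1 - a ^ 2) := by
      have : (N - m) * (N + m) = N ^ 2 - m ^ 2 := by ring
      rw [this, hm]; ring
    have hal : 0 < 1 - a := by linarith
    have hual : 0 < (1 - q) ^ 2 * (1 - a) := mul_pos hu hal
    obtain ⟨y, hy⟩ : ∃ y, y = (N - m) / ((1 - q) ^ 2 * (1 - a)) := ⟨_, rfl⟩
    have hp1y : N - m = (1 - q) ^ 2 * (1 - a) * y := by
      rw [hy, mul_div_cancel₀]
      exact hual.ne'
    have hypos : 0 < y := by rw [hy]; exact div_pos hp1 hual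
    have hp2y : (N + m) * y = (1 + q) ^ 2 * (1 + a) := by
      have h1 : (1 - q) ^ 2 * (1 - a) * y * (N + m) = (1 - q ^ 2) ^ 2 * (1 - a ^ 2) := by
        rw [← hp1y]; exact hp
      have h2 : (1 - q) ^ 2 * (1 - a) * ((N + m) * y) =
          (1 - q) ^ 2 * (1 - a) * ((1 + q) ^ 2 * (1 + a)) := by linear_combination h1
      exact mul_left_cancel₀ hual.ne' h2
    have hy1 : 1 ≤ y := by
      by_contra hcon
      push Not at hcon
      have h1 : (N + m) * y < (N + m) * 1 := mul_lt_mul_of_pos_left hcon (by linarith)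
      linarith
    have hay : (1 - a) * y ≤ 1 + a := by
      have h1 : (1 + q) ^ 2 * (1 - a) * y ≤ (N + m) * y := mul_le_mul_of_nonneg_right hp2l hypos.le
      rw [hp2y, mul_assoc] at h1
      exact le_of_mul_le_mul_left h1 (by positivity)
    have main := poly_ineq (al := 1 - a) (be := 1 + a) (u := (1 - q) ^ 2) (w := (1 + q) ^ 2)
      (y := y) hal.le (by linarith) hu.le (by positivity) huw h3 hy1 hay
    exact blaschke_aux hapos hypos hp1y hp2y haX main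

end Pool.Agent.R255.Camp
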