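import Pool.Agent.R255.CampA

set_option autoImplicit false

/-!
# The algebraic inequality, general case
-/

namespace Pool.Agent.R255.Camp

/-- The inequality for Blaschke products of degree two. -/
theorem blaschke {a q x m E Nq : ℝ} (ha0 : 0 ≤ a) (ha1 : a < 1) (hq : 0 ≤ q) (hq1 : q < 1)
    (hr : 0 ≤ 1 - 4 * q + q ^ 2) (hx : -q ≤ x) (hx' : x ≤ q) (hm0 : 0 ≤ m)
    (hm : m ^ 2 = (1 + q ^ 2 + 2 * a * x) ^ 2 - (1 - q ^ 2) ^ 2 * (1 - a ^ 2))
    (hN : 0 < 1 + q ^ 2 + 2 * a * x) (hmN : m ≤ 1 + q ^ 2 + 2 * a * x)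
    (hE : E ^ 2 = (1 - a) ^ 2 * (1 - 2 * x + q ^ 2))
    (hNq0 : 0 ≤ Nq) (hNq : Nq ^ 2 = q ^ 2 * E ^ 2 + (1 - q ^ 2) ^ 2 * (1 + q ^ 2 + 2 * a * x)) :
    (1 - q) ^ 2 * E * (1 + q ^ 2 + 2 * a * x) ≤ (1 + q ^ 2 + 2 * a * x - m) * (Nq + q * E) := by
  have h := blaschke_sq ha0 ha1 hq hq1 hr hx hx' hm0 hm
  rw [← hE] at h
  clear hm hx hx' hE hr
  generalize 1 + q ^ 2 + 2 * a * x = N at *
  have key : E * ((1 - q) ^ 2 * N - q * (N - m)) ≤ (N - m) * Nq := by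
    have h1 : 0 ≤ (N - m) * Nq := mul_nonneg (by linarith) hNq0
    apply le_of_sq_le_sq _ h1
    have h2 : (1 - q) ^ 2 * N * (E ^ 2 * ((1 - 4 * q + q ^ 2) * N + 2 * q * m)) ≤
        (1 - q) ^ 2 * N * ((N - m) ^ 2 * (1 + q) ^ 2) :=
      mul_le_mul_of_nonneg_left h (by positivity)
    have h3 : ((N - m) * Nq) ^ 2 = (N - m) ^ 2 * (q ^ 2 * E ^ 2 + (1 - q ^ 2) ^ 2 * N) := by
      rw [mul_pow, hNq]
    rw [h3]
    have h4 : (N - m) ^ 2 * (q ^ 2 * E ^ 2 + (1 - q ^ 2) ^ 2 * N) -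
        (E * ((1 - q) ^ 2 * N - q * (N - m))) ^ 2 =
        (1 - q) ^ 2 * N * ((N - m) ^ 2 * (1 + q) ^ 2) -
        (1 - q) ^ 2 * N * (E ^ 2 * ((1 - 4 * q + q ^ 2) * N + 2 * q * m)) := by ring
    linarith
  linarith

theorem r27 {r : ℝ} (hr1 : r < 1) (hr : 0 ≤ 1 - 4 * r + r ^ 2) : r ≤ 27 / 100 := by
  by_contra hcon
  push Not at hcon
  have : 0 < (r - 27 / 100) * (1 - r) := mul_pos (by linarith) (by linarith)
  linarith

/-- The decrease of the second term between the radii `q` and `r`. -/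
theorem step_S {q r L V E Nq Nr : ℝ} (hq : 0 ≤ q) (hqr : q ≤ r) (hr1 : r < 1)
    (hr : 0 ≤ 1 - 4 * r + r ^ 2) (hL : 0 < L) (hVL : V ≤ L) (hE0 : 0 ≤ E)
    (hE2 : E ≤ 2 * L) (hNq0 : 0 < Nq) (hNr0 : 0 < Nr)
    (t1 : L - q ^ 2 * V ≤ Nq) (t2 : Nq - (r ^ 2 - q ^ 2) * V ≤ Nr)
    (t3 : Nr ≤ (1 - r ^ 2) * L + r ^ 2 * E) (t4 : Nq ≤ (1 - q ^ 2) * L + q ^ 2 * E) :
    (r - q) * E / L ≤ (1 - q) ^ 2 * E / (Nq + q * E) - (1 - r) ^ 2 * E / (Nr + r * E) := by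
  have hr0 : 0 ≤ r := le_trans hq hqr
  have hr27 : r ≤ 27 / 100 := r27 hr1 hr
  have hdq : 0 < Nq + q * E := by positivity
  have hdr : 0 < Nr + r * E := by positivity
  rw [div_sub_div _ _ hdq.ne' hdr.ne', div_le_div_iff₀ hL (mul_pos hdq hdr)]
  -- numerator
  have n1 : (r - q) * (2 * L * (1 - q) * (1 - r) + E * (1 - q * r)) ≤
      (1 - q) ^ 2 * (Nr + r * E) - (Nq + q * E) * (1 - r) ^ 2 := by
    have s1 : (1 - q) ^ 2 * (Nq - (r ^ 2 - q ^ 2) * V) ≤ (1 - q) ^ 2 * Nr :=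
      mul_le_mul_of_nonneg_left t2 (sq_nonneg _)
    have s2 : 0 ≤ (r - q) * (2 - q - r) := mul_nonneg (by linarith) (by linarith)
    have s3 := mul_le_mul_of_nonneg_left t1 s2
    have s4 : 0 ≤ (r - q) * (q ^ 2 * (2 - q - r) + (1 - q) ^ 2 * (r + q)) := by
      apply mul_nonneg (by linarith)
      have : 0 ≤ 2 - q - r := by linarith
      positivity
    have s5 := mul_le_mul_of_nonneg_left hVL s4
    have e : (1 - q) ^ 2 * (Nr + r * E) - (Nq + q * E) * (1 - r) ^ 2 -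
        (r - q) * (2 * L * (1 - q) * (1 - r) + E * (1 - q * r)) =
        ((1 - q) ^ 2 * Nr - (1 - q) ^ 2 * (Nq - (r ^ 2 - q ^ 2) * V)) +
        ((r - q) * (2 - q - r) * Nq - (r - q) * (2 - q - r) * (L - q ^ 2 * V)) +
        ((r - q) * (q ^ 2 * (2 - q - r) + (1 - q) ^ 2 * (r + q)) * L -
          (r - q) * (q ^ 2 * (2 - q - r) + (1 - q) ^ 2 * (r + q)) * V) := by ring
    linarith
  -- denominators
  have d1 : Nr + r * E ≤ (1 + r) * ((1 - r) * L + r * E) := by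
    have : (1 + r) * ((1 - r) * L + r * E) = ((1 - r ^ 2) * L + r ^ 2 * E) + r * E := by ring
    linarith
  have d2 : Nq + q * E ≤ (1 + q) * ((1 - q) * L + q * E) := by
    have : (1 + q) * ((1 - q) * L + q * E) = ((1 - q ^ 2) * L + q ^ 2 * E) + q * E := by ring
    linarith
  have d3 : (Nq + q * E) * (Nr + r * E) ≤
      ((1 + q) * ((1 - q) * L + q * E)) * ((1 + r) * ((1 - r) * L + r * E)) :=
    mul_le_mul d2 d1 hdr.le (by
      have : 0 ≤ 1 - q := by linarith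
      positivity)
  -- the function `G`
  have g : ((1 + q) * ((1 - q) * L + q * E)) * ((1 + r) * ((1 - r) * L + r * E)) ≤
      (2 * L * (1 - q) * (1 - r) + E * (1 - q * r)) * L := by
    have a1 : (1 + q) * (1 + r) ≤ (127 / 100) * (127 / 100) :=
      mul_le_mul (by linarith) (by linarith) (by linarith) (by norm_num)
    have f0 : 0 ≤ (1 - q) * (1 - r) * (2 - (1 + q) * (1 + r)) := by
      have a1 : 0 ≤ 1 - q := by linarith
      have a2 : 0 ≤ 1 - r := by linarith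
      have a3 : 0 ≤ 2 - (1 + q) * (1 + r) := by linarith
      positivity
    have f2 : 0 ≤ 2 * (1 - q) * (1 - r) + 2 * (1 - q * r) - (1 + q) ^ 2 * (1 + r) ^ 2 := by
      have a2 : ((1 + q) * (1 + r)) ^ 2 ≤ ((127 / 100) * (127 / 100)) ^ 2 :=
        pow_le_pow_left₀ (by positivity) a1 2
      have a3 : (73 / 100) * (73 / 100) ≤ (1 - q) * (1 - r) :=
        mul_le_mul (by linarith) (by linarith) (by norm_num) (by linarith)
      have a4 : q * r ≤ (27 / 100) * (27 / 100) :=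
        mul_le_mul (by linarith) (by linarith) hr0 (by norm_num)
      have a5 : (1 + q) ^ 2 * (1 + r) ^ 2 = ((1 + q) * (1 + r)) ^ 2 := by ring
      rw [a5]
      linarith
    have hEL : 0 ≤ 2 * L - E := by linarith
    have e : 2 * ((2 * L * (1 - q) * (1 - r) + E * (1 - q * r)) * L -
        ((1 + q) * ((1 - q) * L + q * E)) * ((1 + r) * ((1 - r) * L + r * E))) =
        (2 * L - E) * L * ((1 - q) * (1 - r) * (2 - (1 + q) * (1 + r))) +
        E * L * (2 * (1 - q) * (1 - r) + 2 * (1 - q * r) - (1 + q) ^ 2 * (1 + r) ^ 2) +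
        2 * ((1 + q) * (1 + r) * q * r * (E * (2 * L - E))) := by ring
    have p1 : 0 ≤ (2 * L - E) * L * ((1 - q) * (1 - r) * (2 - (1 + q) * (1 + r))) := by positivity
    have p2 : 0 ≤ E * L * (2 * (1 - q) * (1 - r) + 2 * (1 - q * r) - (1 + q) ^ 2 * (1 + r) ^ 2) := by
      positivity
    have p3 : 0 ≤ 2 * ((1 + q) * (1 + r) * q * r * (E * (2 * L - E))) := by positivity
    linarith
  have hrq : 0 ≤ r - q := by linarith
  calc (r - q) * E * ((Nq + q * E) * (Nr + r * E))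
      ≤ (r - q) * E * ((2 * L * (1 - q) * (1 - r) + E * (1 - q * r)) * L) :=
        mul_le_mul_of_nonneg_left (d3.trans g) (by positivity)
    _ = (E * L) * ((r - q) * (2 * L * (1 - q) * (1 - r) + E * (1 - q * r))) := by ring
    _ ≤ (E * L) * ((1 - q) ^ 2 * (Nr + r * E) - (Nq + q * E) * (1 - r) ^ 2) :=
        mul_le_mul_of_nonneg_left n1 (by positivity)
    _ = ((1 - q) ^ 2 * E * (Nr + r * E) - (Nq + q * E) * ((1 - r) ^ 2 * E)) * L := by ring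

/-- The increase of the first term between the radii `q` and `r`. -/
theorem step_D {a q r x m L V e b : ℝ} (ha0 : 0 ≤ a) (ha1 : a < 1) (hq : 0 ≤ q) (hqr : q ≤ r)
    (hr1 : r < 1) (hr : 0 ≤ 1 - 4 * r + r ^ 2) (hx : -q ≤ x) (hx' : x ≤ q) (hm0 : 0 ≤ m)
    (hm : m ^ 2 = (1 + q ^ 2 + 2 * a * x) ^ 2 - (1 - q ^ 2) ^ 2 * (1 - a ^ 2))
    (hN : 0 < 1 + q ^ 2 + 2 * a * x) (hL : 0 < L) (hL2 : L ^ 2 = 1 + 2 * a * x + a ^ 2 * q ^ 2)
    (hV : V ^ 2 = a ^ 2 + 2 * a * x + q ^ 2)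
    (he0 : 0 ≤ e) (he : e ^ 2 = 1 - 2 * x + q ^ 2) (hb0 : 0 ≤ b) (hb : b ^ 2 = 1 + 2 * x + q ^ 2)
    (hden : 0 < L ^ 2 - r ^ 2 * V ^ 2) :
    ((1 - r ^ 2) * m + (1 - a ^ 2) * (r ^ 2 - q ^ 2)) / (L ^ 2 - r ^ 2 * V ^ 2) -
      m / (1 + q ^ 2 + 2 * a * x) ≤ (r - q) * ((1 - a) * e) / L := by
  have hr0 : 0 ≤ r := le_trans hq hqr
  have hr27 : r ≤ 27 / 100 := r27 hr1 hr
  have hNeq : (1 - q ^ 2) * (1 + q ^ 2 + 2 * a * x) = L ^ 2 - q ^ 2 * V ^ 2 := by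
    rw [hL2, hV]; ring
  have hLV : L ^ 2 - V ^ 2 = (1 - a ^ 2) * (1 - q ^ 2) := by rw [hL2, hV]; ring
  have hVN : V ^ 2 - (1 + q ^ 2 + 2 * a * x) = a ^ 2 - 1 := by rw [hV]; ring
  have hq1 : q < 1 := by linarith
  have ha2 : 0 < 1 - a ^ 2 := by
    have : 1 - a ^ 2 = (1 - a) * (1 + a) := by ring
    rw [this]; exact mul_pos (by linarith) (by linarith)
  have hq2 : 0 < 1 - q ^ 2 := by
    have : 1 - q ^ 2 = (1 - q) * (1 + q) := by ring
    rw [this]; exact mul_pos (by linarith) (by linarith)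
  -- `m ≥ ((1 + a) b² - (1 - a) e²) / 2`
  have hNm : (1 + a) * b ^ 2 ≤ (1 + q ^ 2 + 2 * a * x) + m := by
    have h1 : (1 + q ^ 2 + 2 * a * x) = ((1 + a) * b ^ 2 + (1 - a) * e ^ 2) / 2 := by
      rw [hb, he]; ring
    have h2 : ((1 + a) * b ^ 2 - (1 - a) * e ^ 2) / 2 ≤ m := by
      apply le_of_sq_le_sq _ hm0
      have e1 : m ^ 2 - (((1 + a) * b ^ 2 - (1 - a) * e ^ 2) / 2) ^ 2 =
          4 * (1 - a ^ 2) * (q - x) * (q + x) := by
        rw [hm, hb, he]; ring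
      have : 0 ≤ 4 * (1 - a ^ 2) * (q - x) * (q + x) := by
        have a1 : 0 ≤ 1 - a ^ 2 := by
          have : 1 - a ^ 2 = (1 - a) * (1 + a) := by ring
          rw [this]; exact mul_nonneg (by linarith) (by linarith)
        have a2 : 0 ≤ q - x := by linarith
        have a3 : 0 ≤ q + x := by linarith
        positivity
      linarith
    linarith
  have heb : 1 - q ^ 2 ≤ e * b := by
    apply le_of_sq_le_sq _ (mul_nonneg he0 hb0)
    rw [mul_pow, he, hb]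
    have e1 : (1 - 2 * x + q ^ 2) * (1 + 2 * x + q ^ 2) - (1 - q ^ 2) ^ 2 =
        4 * ((q - x) * (q + x)) := by ring
    have e2 : 0 ≤ (q - x) * (q + x) := mul_nonneg (by linarith) (by linarith)
    linarith
  have hb1 : 1 - q ≤ b := by
    apply le_of_sq_le_sq _ hb0
    rw [hb]; linarith
  have hLq : 1 - q ≤ L := by
    apply le_of_sq_le_sq _ hL.le
    have e0 : L ^ 2 - (1 - q) ^ 2 = 2 * (a * (x + q)) + q * (1 - a) * (2 - q * (1 + a)) := by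
      rw [hL2]; ring
    have h1 : 0 ≤ a * (x + q) := mul_nonneg ha0 (by linarith)
    have h2 : q * (1 + a) ≤ 1 * 2 := mul_le_mul hq1.le (by linarith) (by linarith) (by norm_num)
    have h3 : 0 ≤ q * (1 - a) * (2 - q * (1 + a)) :=
      mul_nonneg (mul_nonneg hq (by linarith)) (by linarith)
    linarith
  have e1 : ((1 - r ^ 2) * m + (1 - a ^ 2) * (r ^ 2 - q ^ 2)) * (1 + q ^ 2 + 2 * a * x) -
      (L ^ 2 - r ^ 2 * V ^ 2) * m = (r ^ 2 - q ^ 2) * (1 - a ^ 2) * ((1 + q ^ 2 + 2 * a * x) - m) := by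
    linear_combination m * hNeq + (r ^ 2 - q ^ 2) * m * hVN
  have e2 : ((1 + q ^ 2 + 2 * a * x) - m) * ((1 + q ^ 2 + 2 * a * x) + m) =
      (1 - q ^ 2) ^ 2 * (1 - a ^ 2) := by linear_combination -hm
  rw [div_sub_div _ _ hden.ne' hN.ne', div_le_div_iff₀ (mul_pos hden hN) hL, e1]
  clear hm hx hx' he hb hL2 hV e1
  generalize 1 + q ^ 2 + 2 * a * x = N at *
  -- Den(r) N ≥ (1 - a²) L²
  have h5 : (1 - a ^ 2) * L ^ 2 ≤ (L ^ 2 - r ^ 2 * V ^ 2) * N := by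
    have h51 : (1 - q ^ 2) * ((1 - a ^ 2) * L ^ 2) ≤ (1 - q ^ 2) * ((L ^ 2 - r ^ 2 * V ^ 2) * N) := by
      have : (1 - q ^ 2) * ((L ^ 2 - r ^ 2 * V ^ 2) * N) =
          (L ^ 2 - r ^ 2 * V ^ 2) * (L ^ 2 - q ^ 2 * V ^ 2) := by rw [← hNeq]; ring
      rw [this]
      have : (1 - q ^ 2) * ((1 - a ^ 2) * L ^ 2) = (L ^ 2 - V ^ 2) * L ^ 2 := by rw [hLV]; ring
      rw [this]
      have h6 : 0 ≤ 1 - r ^ 2 - q ^ 2 := by
        have a1 : r ^ 2 ≤ (27 / 100) ^ 2 := pow_le_pow_left₀ hr0 hr27 2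
        have a2 : q ^ 2 ≤ (27 / 100) ^ 2 := pow_le_pow_left₀ hq (by linarith) 2
        linarith
      have h7 : 0 ≤ L ^ 2 * V ^ 2 * (1 - r ^ 2 - q ^ 2) + r ^ 2 * q ^ 2 * (V ^ 2) ^ 2 := by positivity
      have h8 : (L ^ 2 - r ^ 2 * V ^ 2) * (L ^ 2 - q ^ 2 * V ^ 2) - (L ^ 2 - V ^ 2) * L ^ 2 =
          L ^ 2 * V ^ 2 * (1 - r ^ 2 - q ^ 2) + r ^ 2 * q ^ 2 * (V ^ 2) ^ 2 := by ring
      linarith
    exact le_of_mul_le_mul_left h51 hq2
  have hbpos : 0 < b := by linarith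
  have hNmpos : 0 < N + m := by
    have : 0 < (1 + a) * b ^ 2 := by positivity
    linarith
  -- N - m ≤ (1 - a) (1 - q²)² / b²
  have h8 : (N - m) * b ^ 2 ≤ (1 - a) * (1 - q ^ 2) ^ 2 := by
    have hNm0 : 0 ≤ N - m := by
      by_contra hcon
      push Not at hcon
      have : (N - m) * (N + m) < 0 := mul_neg_of_neg_of_pos hcon hNmpos
      have : 0 < (1 - q ^ 2) ^ 2 * (1 - a ^ 2) := by positivity
      linarith
    have h81 : (N - m) * ((1 + a) * b ^ 2) ≤ (N - m) * (N + m) := mul_le_mul_of_nonneg_left hNm hNm0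
    rw [e2] at h81
    have h82 : (1 + a) * ((N - m) * b ^ 2) ≤ (1 + a) * ((1 - a) * (1 - q ^ 2) ^ 2) := by
      calc (1 + a) * ((N - m) * b ^ 2) = (N - m) * ((1 + a) * b ^ 2) := by ring
        _ ≤ (1 - q ^ 2) ^ 2 * (1 - a ^ 2) := h81
        _ = (1 + a) * ((1 - a) * (1 - q ^ 2) ^ 2) := by ring
    exact le_of_mul_le_mul_left h82 (by linarith)
  -- final estimate
  have h9 : (r + q) * (1 + q) ≤ L := by
    have : (r + q) * (1 + q) ≤ (54 / 100) * (127 / 100) :=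
      mul_le_mul (by linarith) (by linarith) (by linarith) (by norm_num)
    linarith
  have hb2 : 0 < b ^ 2 := by positivity
  have hrq : 0 ≤ r - q := by linarith
  have goal2 : b ^ 2 * ((r ^ 2 - q ^ 2) * (1 - a ^ 2) * (N - m) * L) ≤
      b ^ 2 * ((r - q) * ((1 - a) * e) * ((L ^ 2 - r ^ 2 * V ^ 2) * N)) := by
    have ebb : (1 - q ^ 2) * (1 - q) ≤ e * b ^ 2 := by
      have : e * b ^ 2 = (e * b) * b := by ring
      rw [this]
      exact mul_le_mul heb hb1 (by linarith) (mul_nonneg he0 hb0)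
    calc b ^ 2 * ((r ^ 2 - q ^ 2) * (1 - a ^ 2) * (N - m) * L)
        = ((r - q) * (r + q) * (1 - a ^ 2) * L) * ((N - m) * b ^ 2) := by ring
      _ ≤ ((r - q) * (r + q) * (1 - a ^ 2) * L) * ((1 - a) * (1 - q ^ 2) ^ 2) :=
          mul_le_mul_of_nonneg_left h8 (by positivity)
      _ = ((r - q) * (1 - a ^ 2) * L * (1 - a) * (1 - q ^ 2) * (1 - q)) * ((r + q) * (1 + q)) := by ring
      _ ≤ ((r - q) * (1 - a ^ 2) * L * (1 - a) * (1 - q ^ 2) * (1 - q)) * L := by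
          apply mul_le_mul_of_nonneg_left h9
          have : 0 ≤ 1 - a := by linarith
          have : 0 ≤ 1 - q := by linarith
          positivity
      _ = ((r - q) * (1 - a)) * (((1 - q ^ 2) * (1 - q)) * ((1 - a ^ 2) * L ^ 2)) := by ring
      _ ≤ ((r - q) * (1 - a)) * ((e * b ^ 2) * ((L ^ 2 - r ^ 2 * V ^ 2) * N)) := by
          apply mul_le_mul_of_nonneg_left _ (mul_nonneg hrq (by linarith))
          apply mul_le_mul ebb h5 (by positivity) (by positivity)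
      _ = b ^ 2 * ((r - q) * ((1 - a) * e) * ((L ^ 2 - r ^ 2 * V ^ 2) * N)) := by ring
  exact le_of_mul_le_mul_left goal2 hb2

end Pool.Agent.R255.Camp
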