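import Pool.Agent.R255.CampB

set_option autoImplicit false

/-!
# The algebraic inequality in complex form
-/

namespace Pool.Agent.R255.Camp

open Complex

theorem norm_sq_eq (z : ℂ) : ‖z‖ ^ 2 = z.re ^ 2 + z.im ^ 2 := by
  rw [← normSq_eq_norm_sq, normSq_apply]; ring

theorem tt_aux {a : ℝ} {v : ℂ} (ha1 : a < 1) : ∀ t : ℝ, 0 ≤ t → t ≤ 1 →
    ‖(1 + a * v) - (t : ℂ) ^ 2 * (a + v)‖ ≤
      (1 - t ^ 2) * ‖1 + a * v‖ + t ^ 2 * ((1 - a) * ‖1 - v‖) := by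
  intro t ht0 ht1
  have e : (1 + a * v) - (t : ℂ) ^ 2 * (a + v) =
      ((1 - t ^ 2 : ℝ) : ℂ) * (1 + a * v) + ((t ^ 2 : ℝ) : ℂ) * (((1 - a : ℝ) : ℂ) * (1 - v)) := by
    push_cast; ring
  have h1 : 0 ≤ 1 - t ^ 2 := by
    have : t ^ 2 ≤ 1 := pow_le_one₀ ht0 ht1
    linarith
  have h2 : 0 ≤ 1 - a := by linarith
  rw [e]
  refine (norm_add_le _ _).trans (le_of_eq ?_)
  rw [norm_mul, norm_mul, norm_mul, norm_real, norm_real, norm_real, Real.norm_eq_abs,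
    Real.norm_eq_abs, Real.norm_eq_abs, abs_of_nonneg h1, abs_of_nonneg (sq_nonneg t),
    abs_of_nonneg h2]

theorem core {a r : ℝ} {v : ℂ} (ha0 : 0 ≤ a) (ha1 : a < 1) (hv : ‖v‖ ≤ r) (hr1 : r < 1)
    (hr : 0 ≤ 1 - 4 * r + r ^ 2) :
    0 < ‖1 + a * v‖ ^ 2 - r ^ 2 * ‖a + v‖ ^ 2 ∧
    ((1 - r ^ 2) * ‖a + 2 * v + a * v ^ 2‖ + (1 - a ^ 2) * (r ^ 2 - ‖v‖ ^ 2)) /
      (‖1 + a * v‖ ^ 2 - r ^ 2 * ‖a + v‖ ^ 2) +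
    (1 - r) ^ 2 * ((1 - a) * ‖1 - v‖) /
      (‖(1 + a * v) - (r : ℂ) ^ 2 * (a + v)‖ + r * ((1 - a) * ‖1 - v‖)) ≤ 1 := by
  have hq0 : 0 ≤ ‖v‖ := norm_nonneg v
  have hr0 : 0 ≤ r := hq0.trans hv
  have hr27 := r27 hr1 hr
  have hq1 : ‖v‖ < 1 := by linarith
  have hq2 : ‖v‖ ^ 2 = v.re ^ 2 + v.im ^ 2 := norm_sq_eq v
  have hx : -‖v‖ ≤ v.re := (abs_le.mp (abs_re_le_norm v)).1
  have hx' : v.re ≤ ‖v‖ := (abs_le.mp (abs_re_le_norm v)).2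
  have hm : ‖a + 2 * v + a * v ^ 2‖ ^ 2 =
      (1 + ‖v‖ ^ 2 + 2 * a * v.re) ^ 2 - (1 - ‖v‖ ^ 2) ^ 2 * (1 - a ^ 2) := by
    rw [norm_sq_eq, hq2]
    simp only [add_re, add_im, mul_re, mul_im, ofReal_re, ofReal_im, pow_two, re_ofNat, im_ofNat]
    ring
  have hL2 : ‖1 + a * v‖ ^ 2 = 1 + 2 * a * v.re + a ^ 2 * ‖v‖ ^ 2 := by
    rw [norm_sq_eq, hq2]
    simp only [add_re, add_im, mul_re, mul_im, ofReal_re, ofReal_im, one_re, one_im]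
    ring
  have hV : ‖a + v‖ ^ 2 = a ^ 2 + 2 * a * v.re + ‖v‖ ^ 2 := by
    rw [norm_sq_eq, hq2]
    simp only [add_re, add_im, ofReal_re, ofReal_im]
    ring
  have he : ‖1 - v‖ ^ 2 = 1 - 2 * v.re + ‖v‖ ^ 2 := by
    rw [norm_sq_eq, hq2]
    simp only [sub_re, sub_im, one_re, one_im]
    ring
  have hb : ‖1 + v‖ ^ 2 = 1 + 2 * v.re + ‖v‖ ^ 2 := by
    rw [norm_sq_eq, hq2]
    simp only [add_re, add_im, one_re, one_im]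
    ring
  have hNt : ∀ t : ℝ, ‖(1 + a * v) - (t : ℂ) ^ 2 * (a + v)‖ ^ 2 =
      t ^ 2 * ((1 - a) * ‖1 - v‖) ^ 2 + (1 - t ^ 2) * (‖1 + a * v‖ ^ 2 - t ^ 2 * ‖a + v‖ ^ 2) := by
    intro t
    rw [mul_pow, he, hL2, hV, norm_sq_eq, hq2]
    simp only [add_re, add_im, sub_re, sub_im, mul_re, mul_im, ofReal_re, ofReal_im, one_re,
      one_im, pow_two]
    ring
  have ha2 : 0 < 1 - a ^ 2 := by
    have : 1 - a ^ 2 = (1 - a) * (1 + a) := by ring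
    rw [this]; exact mul_pos (by linarith) (by linarith)
  have hqq : 0 < 1 - ‖v‖ ^ 2 := by
    have : 1 - ‖v‖ ^ 2 = (1 - ‖v‖) * (1 + ‖v‖) := by ring
    rw [this]; exact mul_pos (by linarith) (by linarith)
  have hLV : ‖1 + a * v‖ ^ 2 - ‖a + v‖ ^ 2 = (1 - a ^ 2) * (1 - ‖v‖ ^ 2) := by rw [hL2, hV]; ring
  have hpos : 0 < (1 - a ^ 2) * (1 - ‖v‖ ^ 2) := mul_pos ha2 hqq
  have hL0 : 0 ≤ ‖1 + a * v‖ := norm_nonneg _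
  have hV0 : 0 ≤ ‖a + v‖ := norm_nonneg _
  have hVL : ‖a + v‖ ≤ ‖1 + a * v‖ := by
    apply le_of_sq_le_sq _ hL0
    linarith
  have hLpos : 0 < ‖1 + a * v‖ := by
    rcases eq_or_lt_of_le hL0 with h | h
    · exfalso
      rw [← h] at hLV
      have : 0 ≤ ‖a + v‖ ^ 2 := sq_nonneg _
      nlinarith
    · exact h
  have hrr : r ^ 2 ≤ 1 := by
    have := pow_le_pow_left₀ hr0 hr27 2
    linarith
  have hden : 0 < ‖1 + a * v‖ ^ 2 - r ^ 2 * ‖a + v‖ ^ 2 := by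
    have : r ^ 2 * ‖a + v‖ ^ 2 ≤ 1 * ‖a + v‖ ^ 2 := mul_le_mul_of_nonneg_right hrr (sq_nonneg _)
    linarith
  refine ⟨hden, ?_⟩
  have hNeq : (1 - ‖v‖ ^ 2) * (1 + ‖v‖ ^ 2 + 2 * a * v.re) =
      ‖1 + a * v‖ ^ 2 - ‖v‖ ^ 2 * ‖a + v‖ ^ 2 := by
    rw [hL2, hV]; ring
  have hdenq : 0 < ‖1 + a * v‖ ^ 2 - ‖v‖ ^ 2 * ‖a + v‖ ^ 2 := by
    have h1 : ‖v‖ ^ 2 ≤ r ^ 2 := pow_le_pow_left₀ hq0 hv 2
    have : ‖v‖ ^ 2 * ‖a + v‖ ^ 2 ≤ r ^ 2 * ‖a + v‖ ^ 2 := mul_le_mul_of_nonneg_right h1 (sq_nonneg _)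
    linarith
  have hN : 0 < 1 + ‖v‖ ^ 2 + 2 * a * v.re := by
    rw [← hNeq] at hdenq
    exact (mul_pos_iff_of_pos_left hqq).mp hdenq
  have hmN : ‖a + 2 * v + a * v ^ 2‖ ≤ 1 + ‖v‖ ^ 2 + 2 * a * v.re := by
    apply le_of_sq_le_sq _ hN.le
    rw [hm]
    have : 0 ≤ (1 - ‖v‖ ^ 2) ^ 2 * (1 - a ^ 2) := by positivity
    linarith
  have hE0 : 0 ≤ (1 - a) * ‖1 - v‖ := mul_nonneg (by linarith) (norm_nonneg _)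
  -- the case of radius `q`
  have hNq2 := hNt ‖v‖
  have hNr2 := hNt r
  have hNq0 : 0 < ‖(1 + a * v) - ((‖v‖ : ℝ) : ℂ) ^ 2 * (a + v)‖ := by
    rcases eq_or_lt_of_le (norm_nonneg ((1 + a * v) - ((‖v‖ : ℝ) : ℂ) ^ 2 * (a + v))) with h | h
    · exfalso
      rw [← h] at hNq2
      have h1 : 0 < (1 - ‖v‖ ^ 2) * (‖1 + a * v‖ ^ 2 - ‖v‖ ^ 2 * ‖a + v‖ ^ 2) := mul_pos hqq hdenq
      have h2 : 0 ≤ ‖v‖ ^ 2 * ((1 - a) * ‖1 - v‖) ^ 2 := by positivity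
      linarith
    · exact h
  have hrr1 : 0 < 1 - r ^ 2 := by
    have := pow_le_pow_left₀ hr0 hr27 2
    linarith
  have hNr0 : 0 < ‖(1 + a * v) - (r : ℂ) ^ 2 * (a + v)‖ := by
    rcases eq_or_lt_of_le (norm_nonneg ((1 + a * v) - (r : ℂ) ^ 2 * (a + v))) with h | h
    · exfalso
      rw [← h] at hNr2
      have h1 : 0 < (1 - r ^ 2) * (‖1 + a * v‖ ^ 2 - r ^ 2 * ‖a + v‖ ^ 2) := mul_pos hrr1 hden
      have h2 : 0 ≤ r ^ 2 * ((1 - a) * ‖1 - v‖) ^ 2 := by positivity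
      linarith
    · exact h
  have hrq : 0 ≤ 1 - 4 * ‖v‖ + ‖v‖ ^ 2 := by
    have e : 1 - 4 * ‖v‖ + ‖v‖ ^ 2 = (1 - 4 * r + r ^ 2) + (r - ‖v‖) * (4 - r - ‖v‖) := by ring
    rw [e]
    have : 0 ≤ (r - ‖v‖) * (4 - r - ‖v‖) := mul_nonneg (by linarith) (by linarith)
    linarith
  have hB := blaschke (E := (1 - a) * ‖1 - v‖) (Nq := ‖(1 + a * v) - ((‖v‖ : ℝ) : ℂ) ^ 2 * (a + v)‖)
    ha0 ha1 hq0 hq1 hrq hx hx' (norm_nonneg _) hm hN hmN (by rw [mul_pow, he]) hNq0.le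
    (by rw [hNq2, ← hNeq]; ring)
  -- triangle inequalities
  have t1 : ‖1 + a * v‖ - ‖v‖ ^ 2 * ‖a + v‖ ≤ ‖(1 + a * v) - ((‖v‖ : ℝ) : ℂ) ^ 2 * (a + v)‖ := by
    have h1 := norm_sub_norm_le (1 + a * v) (((‖v‖ : ℝ) : ℂ) ^ 2 * (a + v))
    rw [norm_mul, norm_pow, norm_real, norm_norm] at h1
    exact h1
  have t2 : ‖(1 + a * v) - ((‖v‖ : ℝ) : ℂ) ^ 2 * (a + v)‖ - (r ^ 2 - ‖v‖ ^ 2) * ‖a + v‖ ≤
      ‖(1 + a * v) - (r : ℂ) ^ 2 * (a + v)‖ := by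
    have h1 := norm_sub_norm_le ((1 + a * v) - ((‖v‖ : ℝ) : ℂ) ^ 2 * (a + v))
      (((r ^ 2 - ‖v‖ ^ 2 : ℝ) : ℂ) * (a + v))
    rw [norm_mul, norm_real, Real.norm_eq_abs, abs_of_nonneg (by
      have := pow_le_pow_left₀ hq0 hv 2
      linarith)] at h1
    refine h1.trans (le_of_eq ?_)
    congr 1
    push_cast
    ring
  have tt := tt_aux (v := v) ha1
  have hE2 : (1 - a) * ‖1 - v‖ ≤ 2 * ‖1 + a * v‖ := by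
    have h1 : ‖1 - v‖ ≤ 1 + ‖v‖ := by
      have := norm_sub_le (1 : ℂ) v
      rwa [norm_one] at this
    have h2 : 1 - a * ‖v‖ ≤ ‖1 + a * v‖ := by
      have := norm_sub_norm_le (1 : ℂ) (-(a * v))
      rw [norm_one, norm_neg, norm_mul, norm_real, Real.norm_eq_abs, abs_of_nonneg ha0,
        sub_neg_eq_add] at this
      exact this
    have h3 : (1 - a) * ‖1 - v‖ ≤ (1 - a) * (1 + ‖v‖) := mul_le_mul_of_nonneg_left h1 (by linarith)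
    have h4 : a * ‖v‖ ≤ a * 1 := mul_le_mul_of_nonneg_left hq1.le ha0
    linarith
  have hS := step_S (E := (1 - a) * ‖1 - v‖) hq0 hv hr1 hr hLpos hVL hE0 hE2 hNq0 hNr0 t1 t2
    (tt r hr0 hr1.le) (tt ‖v‖ hq0 hq1.le)
  have hD := step_D ha0 ha1 hq0 hv hr1 hr hx hx' (norm_nonneg _) hm hN hLpos hL2 hV
    (norm_nonneg _) he (norm_nonneg _) hb hden
  -- the Blaschke inequality in quotient form
  have hB' : ‖a + 2 * v + a * v ^ 2‖ / (1 + ‖v‖ ^ 2 + 2 * a * v.re) +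
      (1 - ‖v‖) ^ 2 * ((1 - a) * ‖1 - v‖) /
        (‖(1 + a * v) - ((‖v‖ : ℝ) : ℂ) ^ 2 * (a + v)‖ + ‖v‖ * ((1 - a) * ‖1 - v‖)) ≤ 1 := by
    have hd : 0 < ‖(1 + a * v) - ((‖v‖ : ℝ) : ℂ) ^ 2 * (a + v)‖ + ‖v‖ * ((1 - a) * ‖1 - v‖) := by
      have := mul_nonneg hq0 hE0
      linarith
    rw [div_add_div _ _ hN.ne' hd.ne', div_le_one (mul_pos hN hd)]
    linarith
  linarith

end Pool.Agent.R255.Camp
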