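import Pool.Agent.R255.CampC

set_option autoImplicit false

/-!
# Disc automorphisms, the Schwarz-Pick and Dieudonne lemmas
-/

namespace Pool.Agent.R255.Camp

open Complex Metric Set Filter Topology

/-- The disc automorphism `z ↦ (z + c) / (1 + conj c z)`. -/
noncomputable def T (c z : ℂ) : ℂ := (z + c) / (1 + (starRingEnd ℂ) c * z)

theorem one_add_ne {c z : ℂ} (hc : ‖c‖ < 1) (hz : ‖z‖ < 1) :
    1 + (starRingEnd ℂ) c * z ≠ 0 := by
  intro h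
  have h1 : (starRingEnd ℂ) c * z = -1 := by linear_combination h
  have h2 : ‖c‖ * ‖z‖ = 1 := by
    have := congrArg norm h1
    rwa [norm_mul, RCLike.norm_conj, norm_neg, norm_one] at this
  have h3 : ‖c‖ * ‖z‖ ≤ ‖c‖ * 1 := mul_le_mul_of_nonneg_left hz.le (norm_nonneg c)
  linarith

theorem norm_identity (c z : ℂ) :
    ‖1 + (starRingEnd ℂ) c * z‖ ^ 2 - ‖z + c‖ ^ 2 = (1 - ‖c‖ ^ 2) * (1 - ‖z‖ ^ 2) := by
  rw [norm_sq_eq, norm_sq_eq, norm_sq_eq, norm_sq_eq]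
  simp only [add_re, add_im, mul_re, mul_im, one_re, one_im, conj_re, conj_im]
  ring

theorem one_sub_T {c z : ℂ} (hc : ‖c‖ < 1) (hz : ‖z‖ < 1) :
    1 - ‖T c z‖ ^ 2 = (1 - ‖c‖ ^ 2) * (1 - ‖z‖ ^ 2) / ‖1 + (starRingEnd ℂ) c * z‖ ^ 2 := by
  have h := one_add_ne hc hz
  have h' : ‖1 + (starRingEnd ℂ) c * z‖ ≠ 0 := norm_ne_zero_iff.mpr h
  rw [T, norm_div, div_pow, eq_div_iff (pow_ne_zero 2 h'), sub_mul, div_mul_cancel₀ _ (pow_ne_zero 2 h'),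
    one_mul, norm_identity]

theorem one_sub_sq_pos {c : ℂ} (hc : ‖c‖ < 1) : 0 < 1 - ‖c‖ ^ 2 := by
  have h0 := norm_nonneg c
  have : 1 - ‖c‖ ^ 2 = (1 - ‖c‖) * (1 + ‖c‖) := by ring
  rw [this]
  exact mul_pos (by linarith) (by linarith)

theorem norm_lt_one_of_sq {x : ℂ} (h : 0 < 1 - ‖x‖ ^ 2) : ‖x‖ < 1 := by
  have : ‖x‖ ^ 2 < 1 ^ 2 := by linarith
  exact lt_of_pow_lt_pow_left₀ 2 zero_le_one this

theorem T_lt {c z : ℂ} (hc : ‖c‖ < 1) (hz : ‖z‖ < 1) : ‖T c z‖ < 1 := by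
  apply norm_lt_one_of_sq
  rw [one_sub_T hc hz]
  have h' : 0 < ‖1 + (starRingEnd ℂ) c * z‖ := norm_pos_iff.mpr (one_add_ne hc hz)
  have h1 := one_sub_sq_pos hc
  have h2 := one_sub_sq_pos hz
  positivity

theorem T_hasDeriv {c z : ℂ} (hc : ‖c‖ < 1) (hz : ‖z‖ < 1) :
    HasDerivAt (T c) ((1 - (starRingEnd ℂ) c * c) / (1 + (starRingEnd ℂ) c * z) ^ 2) z := by
  have h := one_add_ne hc hz
  have h1 : HasDerivAt (fun z : ℂ => z + c) 1 z := (hasDerivAt_id z).add_const c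
  have h2 : HasDerivAt (fun z : ℂ => 1 + (starRingEnd ℂ) c * z) ((starRingEnd ℂ) c * 1) z :=
    ((hasDerivAt_id z).const_mul _).const_add 1
  have h3 := h1.div h2 h
  have e : (1 - (starRingEnd ℂ) c * c) / (1 + (starRingEnd ℂ) c * z) ^ 2 =
      (1 * (1 + (starRingEnd ℂ) c * z) - (z + c) * ((starRingEnd ℂ) c * 1)) /
        (1 + (starRingEnd ℂ) c * z) ^ 2 := by
    congr 1
    ring
  rw [e]
  exact h3

theorem T_zero (c : ℂ) : T c 0 = c := by simp [T]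

theorem T_neg (c : ℂ) : T (-c) c = 0 := by simp [T]

theorem T_inv {c z : ℂ} (hc : ‖c‖ < 1) (hz : ‖z‖ < 1) : T c (T (-c) z) = z := by
  have h := one_add_ne (c := -c) (by rwa [norm_neg]) hz
  have h1 := one_add_ne hc (T_lt (c := -c) (by rwa [norm_neg]) hz)
  rw [T, div_eq_iff h1]
  simp only [T, map_neg] at h ⊢
  rw [div_add' _ _ _ h, mul_div_assoc', add_div' _ _ _ h, mul_div_assoc', div_left_inj' h]
  ring

/-- Schwarz-Pick for maps into the open disc. -/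
theorem schwarz_pick_open {f : ℂ → ℂ} (hf : DifferentiableOn ℂ f (ball 0 1))
    (hm : ∀ z, ‖z‖ < 1 → ‖f z‖ < 1) {z : ℂ} (hz : ‖z‖ < 1) :
    ‖deriv f z‖ * (1 - ‖z‖ ^ 2) ≤ 1 - ‖f z‖ ^ 2 := by
  have hfz := hm z hz
  have hfz' : ‖-f z‖ < 1 := by rwa [norm_neg]
  have hfd : HasDerivAt f (deriv f z) z :=
    (hf.differentiableAt (isOpen_ball.mem_nhds (by simpa using hz))).hasDerivAt
  set g : ℂ → ℂ := fun ζ => T (-f z) (f (T z ζ)) with hg
  have hgd : DifferentiableOn ℂ g (ball 0 1) := by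
    intro ζ hζ
    have hζ' : ‖ζ‖ < 1 := by simpa using hζ
    have h1 := T_lt hz hζ'
    have h2 : DifferentiableAt ℂ f (T z ζ) :=
      hf.differentiableAt (isOpen_ball.mem_nhds (by simpa using h1))
    have h3 : DifferentiableAt ℂ (T (-f z)) (f (T z ζ)) :=
      (T_hasDeriv hfz' (hm _ h1)).differentiableAt
    exact ((h3.comp ζ (h2.comp ζ (T_hasDeriv hz hζ').differentiableAt))).differentiableWithinAt
  have hg0 : g 0 = 0 := by simp only [hg, T_zero, T_neg]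
  have hgm : MapsTo g (ball 0 1) (closedBall (g 0) 1) := by
    intro ζ hζ
    have hζ' : ‖ζ‖ < 1 := by simpa using hζ
    rw [hg0, mem_closedBall_zero_iff]
    exact (T_lt hfz' (hm _ (T_lt hz hζ'))).le
  have h1 := norm_deriv_le_one_of_mapsTo_ball hgd hgm one_pos
  have h2 : HasDerivAt g ((1 - (starRingEnd ℂ) (-f z) * (-f z)) /
      (1 + (starRingEnd ℂ) (-f z) * (f z)) ^ 2 * (deriv f z *
        ((1 - (starRingEnd ℂ) z * z) / (1 + (starRingEnd ℂ) z * 0) ^ 2))) 0 := by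
    have a1 := T_hasDeriv (c := z) (z := 0) hz (by simp)
    have a2 : HasDerivAt f (deriv f z) (T z 0) := by rw [T_zero]; exact hfd
    have a3 : HasDerivAt (T (-f z)) ((1 - (starRingEnd ℂ) (-f z) * (-f z)) /
      (1 + (starRingEnd ℂ) (-f z) * (f z)) ^ 2) (f (T z 0)) := by
      rw [T_zero]; exact T_hasDeriv hfz' hfz
    have := a3.comp (0 : ℂ) (a2.comp (0 : ℂ) a1)
    exact this
  rw [h2.deriv] at h1
  have e1 : (starRingEnd ℂ) (-f z) * (-f z) = ((‖f z‖ ^ 2 : ℝ) : ℂ) := by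
    rw [map_neg, neg_mul_neg, mul_comm, mul_conj, normSq_eq_norm_sq]
  have e2 : (starRingEnd ℂ) (-f z) * (f z) = -((‖f z‖ ^ 2 : ℝ) : ℂ) := by
    rw [map_neg, neg_mul, mul_comm, mul_conj, normSq_eq_norm_sq]
  have e3 : (starRingEnd ℂ) z * z = ((‖z‖ ^ 2 : ℝ) : ℂ) := by
    rw [mul_comm, mul_conj, normSq_eq_norm_sq]
  rw [e1, e2, e3, mul_zero, add_zero, one_pow, div_one] at h1
  have p1 := one_sub_sq_pos hfz
  have p2 := one_sub_sq_pos hz
  have e4 : (1 - ((‖f z‖ ^ 2 : ℝ) : ℂ)) / (1 + -((‖f z‖ ^ 2 : ℝ) : ℂ)) ^ 2 *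
      (deriv f z * (1 - ((‖z‖ ^ 2 : ℝ) : ℂ))) =
      deriv f z * (((1 - ‖z‖ ^ 2) / (1 - ‖f z‖ ^ 2) : ℝ) : ℂ) := by
    have p1' : (1 : ℂ) - ((‖f z‖ ^ 2 : ℝ) : ℂ) ≠ 0 := by
      have : (((1 - ‖f z‖ ^ 2 : ℝ)) : ℂ) ≠ 0 := by exact_mod_cast p1.ne'
      push_cast at this ⊢
      exact this
    rw [← sub_eq_add_neg]
    push_cast at p1' ⊢
    field_simp
  rw [e4, norm_mul, norm_real, Real.norm_eq_abs, abs_of_pos (div_pos p2 p1), ← mul_div_assoc,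
    div_le_one p1] at h1
  exact h1

/-- Schwarz-Pick for maps into the closed disc. -/
theorem schwarz_pick {f : ℂ → ℂ} (hf : DifferentiableOn ℂ f (ball 0 1))
    (hm : ∀ z, ‖z‖ < 1 → ‖f z‖ ≤ 1) {z : ℂ} (hz : ‖z‖ < 1) :
    ‖deriv f z‖ * (1 - ‖z‖ ^ 2) ≤ 1 - ‖f z‖ ^ 2 := by
  have hfd : DifferentiableAt ℂ f z :=
    hf.differentiableAt (isOpen_ball.mem_nhds (by simpa using hz))
  have key : ∀ t : ℝ, t ∈ Ioo (0 : ℝ) 1 → t * ‖deriv f z‖ * (1 - ‖z‖ ^ 2) ≤ 1 - t ^ 2 * ‖f z‖ ^ 2 := by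
    intro t ht
    have h1 := schwarz_pick_open (f := fun z => (t : ℂ) * f z) (hf.const_mul _)
      (fun w hw => by
        rw [norm_mul, norm_real, Real.norm_eq_abs, abs_of_pos ht.1]
        have := mul_le_mul_of_nonneg_left (hm w hw) ht.1.le
        linarith [ht.2]) hz
    rw [deriv_const_mul _ hfd, norm_mul, norm_mul, norm_real, Real.norm_eq_abs, abs_of_pos ht.1,
      mul_pow] at h1
    exact h1
  have hl : Tendsto (fun t : ℝ => t * ‖deriv f z‖ * (1 - ‖z‖ ^ 2)) (𝓝[<] 1)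
      (𝓝 (1 * ‖deriv f z‖ * (1 - ‖z‖ ^ 2))) := by
    apply Tendsto.mono_left _ nhdsWithin_le_nhds
    exact Continuous.tendsto (by fun_prop) 1
  have hr : Tendsto (fun t : ℝ => 1 - t ^ 2 * ‖f z‖ ^ 2) (𝓝[<] 1)
      (𝓝 (1 - 1 ^ 2 * ‖f z‖ ^ 2)) := by
    apply Tendsto.mono_left _ nhdsWithin_le_nhds
    exact Continuous.tendsto (by fun_prop) 1
  have hle : ∀ᶠ t : ℝ in 𝓝[<] 1, t * ‖deriv f z‖ * (1 - ‖z‖ ^ 2) ≤ 1 - t ^ 2 * ‖f z‖ ^ 2 := by
    filter_upwards [Ioo_mem_nhdsLT (show (0 : ℝ) < 1 by norm_num)] with t ht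
    exact key t ht
  have := le_of_tendsto_of_tendsto hl hr hle
  rwa [one_mul, one_pow, one_mul] at this

/-- Dieudonne's lemma. -/
theorem dieudonne {v : ℂ → ℂ} (hv : DifferentiableOn ℂ v (ball 0 1))
    (hm : ∀ z, ‖z‖ < 1 → ‖v z‖ ≤ 1) (hv0 : v 0 = 0) {z : ℂ} (hz : ‖z‖ < 1) :
    ‖v z‖ ≤ ‖z‖ ∧ ‖z * deriv v z - v z‖ * (1 - ‖z‖ ^ 2) ≤ ‖z‖ ^ 2 - ‖v z‖ ^ 2 := by
  have hmaps : MapsTo v (ball 0 1) (closedBall (v 0) 1) := by
    intro ζ hζ
    rw [hv0, mem_closedBall_zero_iff]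
    exact hm ζ (by simpa using hζ)
  set ψ := dslope v 0 with hψ
  have hψd : DifferentiableOn ℂ ψ (ball 0 1) :=
    (differentiableOn_dslope (isOpen_ball.mem_nhds (by simp))).mpr hv
  have hψm : ∀ z, ‖z‖ < 1 → ‖ψ z‖ ≤ 1 := by
    intro w hw
    have := norm_dslope_le_div_of_mapsTo_ball hv hmaps (show w ∈ ball (0 : ℂ) 1 by simpa using hw)
    rwa [div_one] at this
  have hvψ : ∀ w, v w = w * ψ w := by
    intro w
    have := sub_smul_dslope v 0 w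
    rw [hv0, sub_zero, sub_zero, smul_eq_mul] at this
    exact this.symm
  have hψz : DifferentiableAt ℂ ψ z :=
    hψd.differentiableAt (isOpen_ball.mem_nhds (by simpa using hz))
  have hder : deriv v z = ψ z + z * deriv ψ z := by
    have h1 : HasDerivAt (fun w => w * ψ w) (1 * ψ z + z * deriv ψ z) z :=
      (hasDerivAt_id z).mul hψz.hasDerivAt
    have h2 : v = fun w => w * ψ w := funext hvψ
    rw [h2, h1.deriv, one_mul]
  constructor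
  · rw [hvψ z, norm_mul]
    have := mul_le_mul_of_nonneg_left (hψm z hz) (norm_nonneg z)
    linarith
  · have e : z * deriv v z - v z = z ^ 2 * deriv ψ z := by
      rw [hder, hvψ z]; ring
    rw [e, hvψ z, norm_mul, norm_mul, norm_pow, mul_pow]
    have h1 := mul_le_mul_of_nonneg_left (schwarz_pick hψd hψm hz) (sq_nonneg ‖z‖)
    linarith

end Pool.Agent.R255.Camp
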