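import Pool.Agent.R255.CampD

set_option autoImplicit false

/-!
# The distortion theorem in the linearly invariant family of order `α`
-/

namespace Pool.Agent.R255.Camp

open Complex Metric Set Filter Topology

/-- Growth of the absolute value of a nonvanishing function along a segment. -/
theorem growth {α s : ℝ} (hs0 : 0 ≤ s) (hs1 : s < 1) {k k' : ℝ → ℂ}
    (hk : ∀ t, 0 ≤ t → t ≤ s → HasDerivAt k (k' t) t) (hk0 : ∀ t, 0 ≤ t → t ≤ s → k t ≠ 0)
    (hb : ∀ t, 0 ≤ t → t ≤ s → (1 - t ^ 2) * (k' t / k t).re ≤ 2 * (α + t)) :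
    ‖k s‖ * (1 - s ^ 2) ≤ ‖k 0‖ * ((1 + s) / (1 - s)) ^ α := by
  set D : ℝ → ℝ := fun t => Real.log (‖k t‖ ^ 2) + 2 * (1 - α) * Real.log (1 + t) +
    2 * (1 + α) * Real.log (1 - t) with hD
  have hder : ∀ t, 0 ≤ t → t ≤ s → HasDerivAt D
      (2 * (k' t / k t).re + 2 * (1 - α) * (1 / (1 + t)) + 2 * (1 + α) * (-1 / (1 - t))) t := by
    intro t ht0 hts
    have hkt := hk0 t ht0 hts
    have hn : ‖k t‖ ^ 2 ≠ 0 := pow_ne_zero 2 (norm_ne_zero_iff.mpr hkt)
    have h1 : HasDerivAt (fun t => ‖k t‖ ^ 2) (2 * inner ℝ (k t) (k' t)) t := (hk t ht0 hts).norm_sq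
    have h2 := h1.log hn
    have h3 : HasDerivAt (fun t : ℝ => Real.log (1 + t)) (1 / (1 + t)) t :=
      ((hasDerivAt_id t).const_add 1).log (by simp; linarith)
    have h4 : HasDerivAt (fun t : ℝ => Real.log (1 - t)) (-1 / (1 - t)) t :=
      ((hasDerivAt_id t).const_sub 1).log (by simp; linarith)
    have h5 := (h2.add (h3.const_mul (2 * (1 - α)))).add (h4.const_mul (2 * (1 + α)))
    have e : 2 * inner ℝ (k t) (k' t) / ‖k t‖ ^ 2 = 2 * (k' t / k t).re := by
      rw [Complex.inner, div_re, normSq_eq_norm_sq]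
      simp only [mul_re, conj_re, conj_im]
      ring
    rw [e] at h5
    exact h5
  have hanti : AntitoneOn D (Icc 0 s) := by
    apply antitoneOn_of_deriv_nonpos (convex_Icc 0 s)
    · intro t ht
      exact (hder t ht.1 ht.2).continuousAt.continuousWithinAt
    · intro t ht
      rw [interior_Icc] at ht
      exact (hder t ht.1.le ht.2.le).differentiableAt.differentiableWithinAt
    · intro t ht
      rw [interior_Icc] at ht
      rw [(hder t ht.1.le ht.2.le).deriv]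
      have ht1 : 0 < 1 - t := by linarith [ht.2]
      have ht2 : 0 < 1 + t := by linarith [ht.1]
      have h1 := hb t ht.1.le ht.2.le
      have e : 2 * (k' t / k t).re + 2 * (1 - α) * (1 / (1 + t)) + 2 * (1 + α) * (-1 / (1 - t)) =
          2 * ((1 - t ^ 2) * (k' t / k t).re - 2 * (α + t)) / ((1 + t) * (1 - t)) := by
        field_simp
        ring
      rw [e]
      apply div_nonpos_of_nonpos_of_nonneg
      · linarith
      · positivity
  have h := hanti (left_mem_Icc.mpr hs0) (right_mem_Icc.mpr hs0) hs0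
  simp only [hD] at h
  rw [add_zero, sub_zero, Real.log_one, mul_zero, mul_zero, add_zero, add_zero, Real.log_pow,
    Real.log_pow] at h
  have hs2 : 0 < 1 - s := by linarith
  have hs3 : 0 < 1 + s := by linarith
  have n0 : 0 < ‖k 0‖ := norm_pos_iff.mpr (hk0 0 le_rfl hs0)
  have ns : 0 < ‖k s‖ := norm_pos_iff.mpr (hk0 s hs0 le_rfl)
  have hq : 0 < (1 + s) / (1 - s) := div_pos hs3 hs2
  have e1 : 1 - s ^ 2 = (1 + s) * (1 - s) := by ring
  rw [e1]
  have hl : 0 < ‖k s‖ * ((1 + s) * (1 - s)) := by positivity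
  have hrr : 0 < ‖k 0‖ * ((1 + s) / (1 - s)) ^ α := mul_pos n0 (Real.rpow_pos_of_pos hq α)
  rw [← Real.log_le_log_iff hl hrr, Real.log_mul ns.ne' (mul_pos hs3 hs2).ne',
    Real.log_mul hs3.ne' hs2.ne', Real.log_mul n0.ne' (Real.rpow_pos_of_pos hq α).ne',
    Real.log_rpow hq, Real.log_div hs3.ne' hs2.ne']
  push_cast at h
  linarith

/-- The pointwise bound defining the order of a locally univalent function. -/
def OrdLe (F : ℂ → ℂ) (α : ℝ) : Prop :=
  ∀ z : ℂ, ‖z‖ < 1 →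
    ‖-(starRingEnd ℂ) z + (1 - (‖z‖ : ℂ) ^ 2) * deriv (deriv F) z / (2 * deriv F z)‖ ≤ α

theorem distortion {F : ℂ → ℂ} {α : ℝ} (hF : DifferentiableOn ℂ F (ball 0 1))
    (hF' : ∀ z : ℂ, ‖z‖ < 1 → deriv F z ≠ 0) (hord : OrdLe F α) {z w : ℂ}
    (hz : ‖z‖ < 1) (hw : ‖w‖ < 1) :
    ‖deriv F w‖ * (1 - ‖w‖ ^ 2) ≤ ‖deriv F z‖ * (1 - ‖z‖ ^ 2) *
      ((1 + ‖w - z‖ / ‖1 - (starRingEnd ℂ) z * w‖) / (1 - ‖w - z‖ / ‖1 - (starRingEnd ℂ) z * w‖)) ^ α := by
  have hz' : ‖-z‖ < 1 := by rwa [norm_neg]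
  set ζ := T (-z) w with hζ
  have hζ1 : ‖ζ‖ < 1 := T_lt hz' hw
  have hTζ : T z ζ = w := T_inv hz hw
  have hs : ‖w - z‖ / ‖1 - (starRingEnd ℂ) z * w‖ = ‖ζ‖ := by
    rw [hζ, T, norm_div, map_neg, neg_mul, ← sub_eq_add_neg, ← sub_eq_add_neg]
  rw [hs]
  -- direction
  obtain ⟨e, he1, heζ⟩ : ∃ e : ℂ, ‖e‖ = 1 ∧ ζ = ‖ζ‖ * e := by
    by_cases h0 : ζ = 0
    · exact ⟨1, norm_one, by rw [h0]; simp⟩
    · have hn : (‖ζ‖ : ℂ) ≠ 0 := by exact_mod_cast (norm_ne_zero_iff.mpr h0)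
      refine ⟨ζ / ‖ζ‖, ?_, ?_⟩
      · rw [norm_div, norm_real, norm_norm, div_self (norm_ne_zero_iff.mpr h0)]
      · field_simp
  have hG : DifferentiableOn ℂ (deriv F) (ball 0 1) := hF.deriv isOpen_ball
  -- the function along the ray
  set k : ℝ → ℂ := fun t => deriv F (T z (t * e)) / (1 + (starRingEnd ℂ) z * (t * e)) ^ 2 with hk
  set k' : ℝ → ℂ := fun t => k t * e * (deriv (deriv F) (T z (t * e)) / deriv F (T z (t * e)) *
    ((1 - (starRingEnd ℂ) z * z) / (1 + (starRingEnd ℂ) z * (t * e)) ^ 2) -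
      2 * (starRingEnd ℂ) z / (1 + (starRingEnd ℂ) z * (t * e))) with hk'
  have hte : ∀ t : ℝ, 0 ≤ t → t ≤ ‖ζ‖ → ‖(t : ℂ) * e‖ < 1 := by
    intro t h0 h1
    rw [norm_mul, he1, mul_one, norm_real, Real.norm_eq_abs, abs_of_nonneg h0]
    linarith
  have hmain := growth (α := α) (s := ‖ζ‖) (norm_nonneg ζ) hζ1 (k := k) (k' := k') ?_ ?_ ?_
  · -- conclusion
    have e1 : k ‖ζ‖ = deriv F w / (1 + (starRingEnd ℂ) z * ζ) ^ 2 := by
      simp only [hk]
      rw [← heζ, hTζ]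
    have e2 : k 0 = deriv F z := by
      simp only [hk]
      rw [ofReal_zero, zero_mul, T_zero, mul_zero, add_zero, one_pow, div_one]
    rw [e1, e2] at hmain
    have e3 : 1 - ‖w‖ ^ 2 = (1 - ‖z‖ ^ 2) * (1 - ‖ζ‖ ^ 2) / ‖1 + (starRingEnd ℂ) z * ζ‖ ^ 2 := by
      rw [← one_sub_T hz hζ1, hTζ]
    rw [e3]
    have p := one_sub_sq_pos hz
    have h4 := mul_le_mul_of_nonneg_left hmain p.le
    rw [norm_div, norm_pow] at h4
    calc ‖deriv F w‖ * ((1 - ‖z‖ ^ 2) * (1 - ‖ζ‖ ^ 2) / ‖1 + (starRingEnd ℂ) z * ζ‖ ^ 2)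
        = (1 - ‖z‖ ^ 2) * (‖deriv F w‖ / ‖1 + (starRingEnd ℂ) z * ζ‖ ^ 2 * (1 - ‖ζ‖ ^ 2)) := by ring
      _ ≤ _ := h4
      _ = _ := by ring
  · -- derivative
    intro t h0 h1
    have ht := hte t h0 h1
    have hd := one_add_ne hz ht
    have hT := T_lt hz ht
    have a1 : HasDerivAt (fun t : ℝ => (t : ℂ) * e) (1 * e) t :=
      (hasDerivAt_id (t : ℂ)).comp_ofReal.mul_const e
    have a2 : HasDerivAt (fun x : ℂ => deriv F (T z x) / (1 + (starRingEnd ℂ) z * x) ^ 2)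
        ((deriv (deriv F) (T z (t * e)) *
          ((1 - (starRingEnd ℂ) z * z) / (1 + (starRingEnd ℂ) z * (t * e)) ^ 2) *
            (1 + (starRingEnd ℂ) z * (t * e)) ^ 2 - deriv F (T z (t * e)) *
              ((2 : ℕ) * (1 + (starRingEnd ℂ) z * (t * e)) ^ (2 - 1) * ((starRingEnd ℂ) z * 1))) /
          ((1 + (starRingEnd ℂ) z * (t * e)) ^ 2) ^ 2) (t * e) := by
      have b1 : HasDerivAt (deriv F) (deriv (deriv F) (T z (t * e))) (T z (t * e)) :=
        (hG.differentiableAt (isOpen_ball.mem_nhds (by simpa using hT))).hasDerivAt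
      have b2 := b1.comp ((t : ℂ) * e) (T_hasDeriv hz ht)
      have b3 : HasDerivAt (fun x : ℂ => 1 + (starRingEnd ℂ) z * x) ((starRingEnd ℂ) z * 1)
          ((t : ℂ) * e) := ((hasDerivAt_id _).const_mul _).const_add 1
      exact b2.div (b3.pow 2) (pow_ne_zero 2 hd)
    have a3 := a2.comp t a1
    have hFt := hF' _ hT
    have e8 : k' t = (deriv (deriv F) (T z (t * e)) *
          ((1 - (starRingEnd ℂ) z * z) / (1 + (starRingEnd ℂ) z * (t * e)) ^ 2) *
            (1 + (starRingEnd ℂ) z * (t * e)) ^ 2 - deriv F (T z (t * e)) *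
              ((2 : ℕ) * (1 + (starRingEnd ℂ) z * (t * e)) ^ (2 - 1) * ((starRingEnd ℂ) z * 1))) /
          ((1 + (starRingEnd ℂ) z * (t * e)) ^ 2) ^ 2 * (1 * e) := by
      simp only [hk', hk]
      generalize deriv (deriv F) (T z (t * e)) = F2
      generalize deriv F (T z (t * e)) = F1 at hFt
      generalize 1 + (starRingEnd ℂ) z * (t * e) = d at hd
      field_simp
      push_cast
      ring
    rw [e8]
    exact a3
  · intro t h0 h1
    have ht := hte t h0 h1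
    exact div_ne_zero (hF' _ (T_lt hz ht)) (pow_ne_zero 2 (one_add_ne hz ht))
  · -- the bound
    intro t h0 h1
    have ht := hte t h0 h1
    have hd := one_add_ne hz ht
    have hT := T_lt hz ht
    have hkt : k t ≠ 0 := div_ne_zero (hF' _ hT) (pow_ne_zero 2 hd)
    have hFt := hF' _ hT
    have hb := hord _ hT
    have hdn : ‖1 + (starRingEnd ℂ) z * (t * e)‖ ≠ 0 := norm_ne_zero_iff.mpr hd
    have hcd : (starRingEnd ℂ) (1 + (starRingEnd ℂ) z * (t * e)) ≠ 0 := by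
      intro h
      apply hd
      exact (map_eq_zero _).mp h
    set d := 1 + (starRingEnd ℂ) z * (t * e) with hdd
    -- `1 - |T|^2`
    have e1 : (1 - (‖T z (t * e)‖ : ℂ) ^ 2) =
        (1 - z * (starRingEnd ℂ) z) * (1 - t ^ 2) / (d * (starRingEnd ℂ) d) := by
      have h := one_sub_T hz ht
      have h2 : ((1 - ‖T z (t * e)‖ ^ 2 : ℝ) : ℂ) =
        (((1 - ‖z‖ ^ 2) * (1 - ‖(t : ℂ) * e‖ ^ 2) / ‖d‖ ^ 2 : ℝ) : ℂ) := by rw [h]
      rw [norm_mul, he1, mul_one, norm_real, Real.norm_eq_abs, sq_abs] at h2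
      rw [mul_conj, mul_conj, normSq_eq_norm_sq, normSq_eq_norm_sq]
      push_cast at h2 ⊢
      exact h2
    have hee : e * (starRingEnd ℂ) e = 1 := by
      rw [mul_conj, normSq_eq_norm_sq, he1]; simp
    -- rotation
    have e2 : -(t : ℂ) + (1 - t ^ 2) * (k' t / k t) / 2 =
        e * ((starRingEnd ℂ) d / d) * (-(starRingEnd ℂ) (T z (t * e)) +
          (1 - (‖T z (t * e)‖ : ℂ) ^ 2) * deriv (deriv F) (T z (t * e)) /
            (2 * deriv F (T z (t * e)))) := by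
      rw [e1]
      have e3 : (starRingEnd ℂ) (T z (t * e)) = (t * (starRingEnd ℂ) e + (starRingEnd ℂ) z) /
          (starRingEnd ℂ) d := by
        rw [T, map_div₀, map_add, map_mul, conj_ofReal, hdd]
      rw [e3]
      have e4 : k' t / k t = e * (deriv (deriv F) (T z (t * e)) / deriv F (T z (t * e)) *
        ((1 - (starRingEnd ℂ) z * z) / d ^ 2) - 2 * (starRingEnd ℂ) z / d) := by
        simp only [hk']
        rw [mul_assoc, mul_div_cancel_left₀ _ hkt]
      rw [e4]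
      generalize deriv (deriv F) (T z (t * e)) = F2
      generalize hF1 : deriv F (T z (t * e)) = F1 at hFt
      generalize (starRingEnd ℂ) d = dc at hcd
      have h5 : (d : ℂ) * t = t * (1 + (starRingEnd ℂ) z * (t * e)) := by rw [hdd]; ring
      field_simp
      have h6 : (t : ℂ) * e * (starRingEnd ℂ) e = t := by rw [mul_assoc, hee, mul_one]
      linear_combination (-2 * d * F1) * h5 + (2 * d * F1) * h6
    have e5 : ‖-(t : ℂ) + (1 - t ^ 2) * (k' t / k t) / 2‖ ≤ α := by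
      rw [e2, norm_mul, norm_mul, he1, norm_div, RCLike.norm_conj, div_self hdn, one_mul, one_mul]
      exact hb
    have e6 := (re_le_norm _).trans e5
    have e7 : (-(t : ℂ) + (1 - t ^ 2) * (k' t / k t) / 2).re =
        -t + (1 - t ^ 2) * (k' t / k t).re / 2 := by
      have : -(t : ℂ) + (1 - t ^ 2) * (k' t / k t) / 2 =
          ((-t : ℝ) : ℂ) + (((1 - t ^ 2) / 2 : ℝ) : ℂ) * (k' t / k t) := by
        push_cast; ring
      rw [this, add_re, ofReal_re, re_ofReal_mul]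
      ring
    rw [e7] at e6
    linarith

end Pool.Agent.R255.Camp
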