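import Pool.Agent.R255.CampE

set_option autoImplicit false

/-!
# Majorization of the derivative under subordination, analytic part
-/

namespace Pool.Agent.R255.Camp

open Complex Metric Set Filter Topology

theorem radius_facts {α r : ℝ} (hα : 1 ≤ α) (hr0 : 0 ≤ r)
    (hr : r < α + 1 - √(α ^ 2 + 2 * α)) :
    r < 1 ∧ 2 * α * r ≤ (1 - r) ^ 2 ∧ 0 ≤ 1 - 4 * r + r ^ 2 := by
  have h0 : 0 ≤ α ^ 2 + 2 * α := by positivity
  have h1 : √(α ^ 2 + 2 * α) ^ 2 = α ^ 2 + 2 * α := Real.sq_sqrt h0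
  have h2 : α ≤ √(α ^ 2 + 2 * α) := Real.le_sqrt_of_sq_le (by linarith)
  have hr1 : r < 1 := by linarith
  have h3 : √(α ^ 2 + 2 * α) < α + 1 - r := by linarith
  have h4 : √(α ^ 2 + 2 * α) ^ 2 < (α + 1 - r) ^ 2 :=
    pow_lt_pow_left₀ h3 (Real.sqrt_nonneg _) (by norm_num)
  have h5 : 2 * α * r ≤ (1 - r) ^ 2 := by
    have e : (1 - r) ^ 2 - 2 * α * r = (α + 1 - r) ^ 2 - (α ^ 2 + 2 * α) := by ring
    linarith
  refine ⟨hr1, h5, ?_⟩
  have h6 : 1 * r ≤ α * r := mul_le_mul_of_nonneg_right hα hr0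
  have e : 1 - 4 * r + r ^ 2 = (1 - r) ^ 2 - 2 * r := by ring
  linarith

/-- The estimate for the derivative of a self-map of the disc fixing the origin. -/
theorem self_map {w : ℂ → ℂ} (hw : DifferentiableOn ℂ w (ball 0 1))
    (hwz : ∀ z : ℂ, ‖z‖ < 1 → ‖w z‖ ≤ ‖z‖) {a : ℝ} (ha0 : 0 ≤ a) (hwa : deriv w 0 = (a : ℂ))
    {z : ℂ} (hz : ‖z‖ < 1) (hr : 0 ≤ 1 - 4 * ‖z‖ + ‖z‖ ^ 2) :
    (∀ z : ℂ, ‖z‖ < 1 → w z = z) ∨
    (‖deriv w z‖ * (1 - ‖z‖ ^ 2) / (1 - ‖w z‖ ^ 2) +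
      (1 - ‖z‖) ^ 2 * ‖w z - z‖ / (‖z‖ * (‖w z - z‖ + ‖1 - (starRingEnd ℂ) z * w z‖)) ≤ 1) ∨
    (z = 0 ∧ ‖deriv w z‖ ≤ 1) := by
  have hw0 : w 0 = 0 := by
    have := hwz 0 (by simp)
    rw [norm_zero] at this
    exact norm_le_zero_iff.mp this
  have hmaps : MapsTo w (ball 0 1) (closedBall (w 0) 1) := by
    intro ζ hζ
    have hζ' : ‖ζ‖ < 1 := by simpa using hζ
    rw [hw0, mem_closedBall_zero_iff]
    exact (hwz ζ hζ').trans hζ'.le
  set φ := dslope w 0 with hφ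
  have hφd : DifferentiableOn ℂ φ (ball 0 1) :=
    (differentiableOn_dslope (isOpen_ball.mem_nhds (by simp))).mpr hw
  have hφm : ∀ z, ‖z‖ < 1 → ‖φ z‖ ≤ 1 := by
    intro x hx
    have := norm_dslope_le_div_of_mapsTo_ball hw hmaps (show x ∈ ball (0 : ℂ) 1 by simpa using hx)
    rwa [div_one] at this
  have hwφ : ∀ x, w x = x * φ x := by
    intro x
    have := sub_smul_dslope w 0 x
    rw [hw0, sub_zero, sub_zero, smul_eq_mul] at this
    exact this.symm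
  have hφ0 : φ 0 = (a : ℂ) := by rw [hφ, dslope_same, hwa]
  have ha1 : a ≤ 1 := by
    have := hφm 0 (by simp)
    rwa [hφ0, norm_real, Real.norm_eq_abs, abs_of_nonneg ha0] at this
  by_cases hex : ∃ x, ‖x‖ < 1 ∧ ‖φ x‖ = 1
  · left
    obtain ⟨x, hx, hx1⟩ := hex
    have hmax : IsMaxOn (norm ∘ φ) (ball 0 1) x := by
      intro y hy
      simp only [mem_ofPred_eq, Function.comp_apply]
      rw [hx1]
      exact hφm y (by simpa using hy)
    have hc := Complex.eqOn_of_isPreconnected_of_isMaxOn_norm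
      (convex_ball (0 : ℂ) 1).isPreconnected isOpen_ball hφd
      (show x ∈ ball (0 : ℂ) 1 by simpa using hx) hmax
    have h0 : φ 0 = φ x := hc (by simp)
    have ha : a = 1 := by
      rw [← h0, hφ0, norm_real, Real.norm_eq_abs, abs_of_nonneg ha0] at hx1
      exact hx1
    intro y hy
    have h1 : φ y = φ x := hc (show y ∈ ball (0 : ℂ) 1 by simpa using hy)
    rw [hwφ y, h1, ← h0, hφ0, ha, ofReal_one, mul_one]
  right
  push Not at hex
  by_cases hz0 : z = 0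
  · right
    refine ⟨hz0, ?_⟩
    rw [hz0, hwa, norm_real, Real.norm_eq_abs, abs_of_nonneg ha0]
    exact ha1
  left
  have hrpos : 0 < ‖z‖ := norm_pos_iff.mpr hz0
  have hφlt : ∀ x, ‖x‖ < 1 → ‖φ x‖ < 1 := fun x hx => lt_of_le_of_ne (hφm x hx) (hex x hx)
  have ha1' : a < 1 := by
    have := hφlt 0 (by simp)
    rwa [hφ0, norm_real, Real.norm_eq_abs, abs_of_nonneg ha0] at this
  have han : ‖(a : ℂ)‖ < 1 := by rwa [norm_real, Real.norm_eq_abs, abs_of_nonneg ha0]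
  have han' : ‖-(a : ℂ)‖ < 1 := by rwa [norm_neg]
  set v : ℂ → ℂ := fun x => T (-a) (φ x) with hv
  have hvd : DifferentiableOn ℂ v (ball 0 1) := by
    intro x hx
    have hx' : ‖x‖ < 1 := by simpa using hx
    exact ((T_hasDeriv han' (hφlt x hx')).differentiableAt.comp x
      (hφd.differentiableAt (isOpen_ball.mem_nhds hx))).differentiableWithinAt
  have hvm : ∀ x, ‖x‖ < 1 → ‖v x‖ < 1 := fun x hx => T_lt han' (hφlt x hx)
  have hv0 : v 0 = 0 := by simp only [hv, hφ0, T_neg]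
  have hφv : ∀ x, ‖x‖ < 1 → φ x = T a (v x) := fun x hx => (T_inv han (hφlt x hx)).symm
  obtain ⟨hq, hdie⟩ := dieudonne hvd (fun x hx => (hvm x hx).le) hv0 hz
  have hvz := hvm z hz
  have hd := one_add_ne han hvz
  rw [conj_ofReal] at hd
  -- the derivative of `w`
  have hzn : z ∈ ball (0 : ℂ) 1 := by simpa using hz
  have hder : deriv w z = ((a + 2 * v z + a * v z ^ 2) + (1 - a ^ 2) * (z * deriv v z - v z)) /
      (1 + a * v z) ^ 2 := by
    have b1 : HasDerivAt v (deriv v z) z := (hvd.differentiableAt (isOpen_ball.mem_nhds hzn)).hasDerivAt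
    have b2 := (T_hasDeriv han hvz).comp z b1
    have b3 : HasDerivAt (fun x => x * T a (v x)) (1 * T a (v z) + z *
        ((1 - (starRingEnd ℂ) (a : ℂ) * a) / (1 + (starRingEnd ℂ) (a : ℂ) * v z) ^ 2 * deriv v z)) z :=
      (hasDerivAt_id z).mul b2
    have b4 : w =ᶠ[𝓝 z] fun x => x * T a (v x) := by
      filter_upwards [isOpen_ball.mem_nhds hzn] with x hx
      rw [hwφ x, hφv x (by simpa using hx)]
    rw [b4.deriv_eq, b3.deriv, T, conj_ofReal]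
    field_simp
    ring
  have hdn : 0 < ‖1 + (a : ℂ) * v z‖ := norm_pos_iff.mpr hd
  have hrr := one_sub_sq_pos hz
  have ha2 : 0 < 1 - a ^ 2 := by
    have : 1 - a ^ 2 = (1 - a) * (1 + a) := by ring
    rw [this]; exact mul_pos (by linarith) (by linarith)
  have hwn : ‖deriv w z‖ * (1 - ‖z‖ ^ 2) * ‖1 + (a : ℂ) * v z‖ ^ 2 ≤
      (1 - ‖z‖ ^ 2) * ‖a + 2 * v z + a * v z ^ 2‖ + (1 - a ^ 2) * (‖z‖ ^ 2 - ‖v z‖ ^ 2) := by
    rw [hder, norm_div, norm_pow]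
    have h1 : ‖(a + 2 * v z + a * v z ^ 2) + (1 - (a : ℂ) ^ 2) * (z * deriv v z - v z)‖ ≤
        ‖a + 2 * v z + a * v z ^ 2‖ + (1 - a ^ 2) * ‖z * deriv v z - v z‖ := by
      refine (norm_add_le _ _).trans (le_of_eq ?_)
      congr 1
      rw [norm_mul]
      congr 1
      have : (1 - (a : ℂ) ^ 2) = ((1 - a ^ 2 : ℝ) : ℂ) := by push_cast; ring
      rw [this, norm_real, Real.norm_eq_abs, abs_of_pos ha2]
    have h2 := mul_le_mul_of_nonneg_left hdie ha2.le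
    have h3 := mul_le_mul_of_nonneg_right h1 hrr.le
    have e : ‖(a + 2 * v z + a * v z ^ 2) + (1 - (a : ℂ) ^ 2) * (z * deriv v z - v z)‖ /
        ‖1 + (a : ℂ) * v z‖ ^ 2 * (1 - ‖z‖ ^ 2) * ‖1 + (a : ℂ) * v z‖ ^ 2 =
        ‖(a + 2 * v z + a * v z ^ 2) + (1 - (a : ℂ) ^ 2) * (z * deriv v z - v z)‖ * (1 - ‖z‖ ^ 2) := by
      field_simp
    rw [e]
    linarith
  have hTa : φ z = (a + v z) / (1 + a * v z) := by
    rw [hφv z hz, T, conj_ofReal, add_comm (v z)]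
  -- `1 - |w|^2`
  have hw2 : (1 - ‖w z‖ ^ 2) * ‖1 + (a : ℂ) * v z‖ ^ 2 =
      ‖1 + (a : ℂ) * v z‖ ^ 2 - ‖z‖ ^ 2 * ‖a + v z‖ ^ 2 := by
    rw [hwφ z, hTa, norm_mul, norm_div, mul_pow, div_pow]
    field_simp
  obtain ⟨hDen, hcore⟩ := core (v := v z) (r := ‖z‖) ha0 ha1' hq hz hr
  have hw1 : 0 < 1 - ‖w z‖ ^ 2 := by
    rw [← hw2] at hDen
    exact (mul_pos_iff_of_pos_right (by positivity)).mp hDen
  -- first term
  have f1 : ‖deriv w z‖ * (1 - ‖z‖ ^ 2) / (1 - ‖w z‖ ^ 2) ≤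
      ((1 - ‖z‖ ^ 2) * ‖a + 2 * v z + a * v z ^ 2‖ + (1 - a ^ 2) * (‖z‖ ^ 2 - ‖v z‖ ^ 2)) /
      (‖1 + a * v z‖ ^ 2 - ‖z‖ ^ 2 * ‖a + v z‖ ^ 2) := by
    rw [← hw2, div_le_div_iff₀ hw1 (by positivity)]
    have := mul_le_mul_of_nonneg_right hwn hw1.le
    linarith
  -- second term
  have g1 : ‖w z - z‖ = ‖z‖ * ((1 - a) * ‖1 - v z‖) / ‖1 + (a : ℂ) * v z‖ := by
    have : w z - z = -(z * (((1 - a : ℝ) : ℂ) * (1 - v z))) / (1 + a * v z) := by
      rw [hwφ z, hTa]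
      push_cast
      field_simp
      ring
    rw [this, norm_div, norm_neg, norm_mul, norm_mul, norm_real, Real.norm_eq_abs,
      abs_of_pos (by linarith : 0 < 1 - a)]
  have g2 : ‖1 - (starRingEnd ℂ) z * w z‖ =
      ‖(1 + a * v z) - ((‖z‖ : ℝ) : ℂ) ^ 2 * (a + v z)‖ / ‖1 + (a : ℂ) * v z‖ := by
    have e2 : (starRingEnd ℂ) z * z = ((‖z‖ : ℝ) : ℂ) ^ 2 := by
      rw [mul_comm, mul_conj, normSq_eq_norm_sq]; push_cast; rfl
    have : 1 - (starRingEnd ℂ) z * w z =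
        ((1 + a * v z) - ((‖z‖ : ℝ) : ℂ) ^ 2 * (a + v z)) / (1 + a * v z) := by
      rw [hwφ z, hTa, ← e2]
      field_simp
    rw [this, norm_div]
  have f2 : (1 - ‖z‖) ^ 2 * ‖w z - z‖ / (‖z‖ * (‖w z - z‖ + ‖1 - (starRingEnd ℂ) z * w z‖)) =
      (1 - ‖z‖) ^ 2 * ((1 - a) * ‖1 - v z‖) /
      (‖(1 + a * v z) - ((‖z‖ : ℝ) : ℂ) ^ 2 * (a + v z)‖ + ‖z‖ * ((1 - a) * ‖1 - v z‖)) := by
    rw [g1, g2, ← add_div, mul_div_assoc', mul_div_assoc', div_div_div_cancel_right₀ hdn.ne']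
    have e : (1 - ‖z‖) ^ 2 * (‖z‖ * ((1 - a) * ‖1 - v z‖)) =
      ‖z‖ * ((1 - ‖z‖) ^ 2 * ((1 - a) * ‖1 - v z‖)) := by ring
    rw [e, mul_div_mul_left _ _ hrpos.ne', add_comm (‖z‖ * ((1 - a) * ‖1 - v z‖))]
  rw [f2]
  linarith

theorem frac_aux {α A B r : ℝ} (hA : 0 ≤ A) (hB : 0 < B) (hr : 0 < r) :
    2 * α * (A / B) / (1 + A / B) = (2 * α * r) * A / (r * (A + B)) := by
  have h2 : 0 < A + B := by linarith
  have h3 : 1 + A / B = (A + B) / B := by field_simp; ring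
  rw [h3]
  field_simp

theorem main {α : ℝ} (hα : 1 ≤ α) {F w : ℂ → ℂ} (hF : DifferentiableOn ℂ F (ball 0 1))
    (hF' : ∀ z : ℂ, ‖z‖ < 1 → deriv F z ≠ 0) (hord : OrdLe F α)
    (hw : DifferentiableOn ℂ w (ball 0 1))
    (hwz : ∀ z : ℂ, ‖z‖ < 1 → ‖w z‖ ≤ ‖z‖) {a : ℝ} (ha0 : 0 ≤ a) (hwa : deriv w 0 = (a : ℂ))
    {z : ℂ} (hzr : ‖z‖ < α + 1 - √(α ^ 2 + 2 * α)) :
    ‖deriv (fun x => F (w x)) z‖ ≤ ‖deriv F z‖ := by
  obtain ⟨hz, hr2, hr4⟩ := radius_facts hα (norm_nonneg z) hzr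
  have hwlt : ∀ x : ℂ, ‖x‖ < 1 → ‖w x‖ < 1 := fun x hx => lt_of_le_of_lt (hwz x hx) hx
  have hzb : z ∈ ball (0 : ℂ) 1 := by simpa using hz
  have hwzb : w z ∈ ball (0 : ℂ) 1 := by simpa using hwlt z hz
  have hcomp : deriv (fun x => F (w x)) z = deriv F (w z) * deriv w z := by
    have h1 : HasDerivAt F (deriv F (w z)) (w z) :=
      (hF.differentiableAt (isOpen_ball.mem_nhds hwzb)).hasDerivAt
    have h2 : HasDerivAt w (deriv w z) z :=
      (hw.differentiableAt (isOpen_ball.mem_nhds hzb)).hasDerivAt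
    exact (h1.comp z h2).deriv
  rcases self_map hw hwz ha0 hwa hz hr4 with h | h | ⟨h, h'⟩
  · have : (fun x => F (w x)) =ᶠ[𝓝 z] F := by
      filter_upwards [isOpen_ball.mem_nhds hzb] with x hx
      rw [h x (by simpa using hx)]
    rw [this.deriv_eq]
  · -- the main case
    rw [hcomp, norm_mul]
    by_cases hz0 : z = 0
    · -- degenerate: `z = 0`
      rw [hz0] at h ⊢
      have hw0 : w 0 = 0 := by
        have := hwz 0 (by simp)
        rw [norm_zero] at this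
        exact norm_le_zero_iff.mp this
      rw [hw0] at h ⊢
      simp only [norm_zero, sub_zero, map_zero, zero_mul, div_zero, add_zero] at h
      have h1 : ‖deriv w 0‖ ≤ 1 := by
        have := h
        norm_num at this
        exact this
      have := mul_le_mul_of_nonneg_left h1 (norm_nonneg (deriv F 0))
      linarith
    have hrpos : 0 < ‖z‖ := norm_pos_iff.mpr hz0
    have hdist := distortion hF hF' hord hz (hwlt z hz)
    have hw1 := one_sub_sq_pos (hwlt z hz)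
    have hne : 0 < ‖1 - (starRingEnd ℂ) z * w z‖ := by
      have := one_add_ne (c := -z) (by rwa [norm_neg]) (hwlt z hz)
      rw [map_neg, neg_mul, ← sub_eq_add_neg] at this
      exact norm_pos_iff.mpr this
    have hs1 : ‖w z - z‖ / ‖1 - (starRingEnd ℂ) z * w z‖ < 1 := by
      have := T_lt (c := -z) (z := w z) (by rwa [norm_neg]) (hwlt z hz)
      rwa [T, norm_div, map_neg, neg_mul, ← sub_eq_add_neg, ← sub_eq_add_neg] at this
    set s := ‖w z - z‖ / ‖1 - (starRingEnd ℂ) z * w z‖ with hs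
    have hs0 : 0 ≤ s := div_nonneg (norm_nonneg _) (norm_nonneg _)
    have hp : 0 < 1 + s := by linarith
    have hm : 0 < 1 - s := by linarith
    have hQ : 0 < (1 + s) / (1 - s) := div_pos hp hm
    have hQα : 0 < ((1 + s) / (1 - s)) ^ α := Real.rpow_pos_of_pos hQ α
    -- Bernoulli
    have hbern : 1 - 2 * α * s / (1 + s) ≤ (((1 + s) / (1 - s)) ^ α)⁻¹ := by
      rw [← Real.inv_rpow hQ.le, inv_div]
      have h1 := one_add_mul_self_le_rpow_one_add (s := -(2 * s / (1 + s))) (by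
        rw [neg_le_neg_iff, div_le_one hp]; linarith) hα
      have e1 : 1 + -(2 * s / (1 + s)) = (1 - s) / (1 + s) := by field_simp; ring
      have e2 : 1 + α * -(2 * s / (1 + s)) = 1 - 2 * α * s / (1 + s) := by ring
      rw [e1, e2] at h1
      exact h1
    -- comparison of the second term
    have hsec : 2 * α * s / (1 + s) ≤ (1 - ‖z‖) ^ 2 * ‖w z - z‖ /
        (‖z‖ * (‖w z - z‖ + ‖1 - (starRingEnd ℂ) z * w z‖)) := by
      have e1 : 2 * α * s / (1 + s) = (2 * α * ‖z‖) * ‖w z - z‖ /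
          (‖z‖ * (‖w z - z‖ + ‖1 - (starRingEnd ℂ) z * w z‖)) := by
        rw [hs]
        exact frac_aux (norm_nonneg _) hne hrpos
      rw [e1]
      apply div_le_div_of_nonneg_right _ (by positivity)
      exact mul_le_mul_of_nonneg_right hr2 (norm_nonneg _)
    have hD : ‖deriv w z‖ * (1 - ‖z‖ ^ 2) / (1 - ‖w z‖ ^ 2) ≤ (((1 + s) / (1 - s)) ^ α)⁻¹ := by
      linarith
    have hD' : ‖deriv w z‖ * (1 - ‖z‖ ^ 2) / (1 - ‖w z‖ ^ 2) * ((1 + s) / (1 - s)) ^ α ≤ 1 := by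
      have := mul_le_mul_of_nonneg_right hD hQα.le
      rwa [inv_mul_cancel₀ hQα.ne'] at this
    calc ‖deriv F (w z)‖ * ‖deriv w z‖
        = (‖deriv F (w z)‖ * (1 - ‖w z‖ ^ 2)) * (‖deriv w z‖ / (1 - ‖w z‖ ^ 2)) := by
          field_simp
      _ ≤ (‖deriv F z‖ * (1 - ‖z‖ ^ 2) * ((1 + s) / (1 - s)) ^ α) *
          (‖deriv w z‖ / (1 - ‖w z‖ ^ 2)) :=
          mul_le_mul_of_nonneg_right hdist (div_nonneg (norm_nonneg _) hw1.le)
      _ = ‖deriv F z‖ * (‖deriv w z‖ * (1 - ‖z‖ ^ 2) / (1 - ‖w z‖ ^ 2) *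
          ((1 + s) / (1 - s)) ^ α) := by ring
      _ ≤ ‖deriv F z‖ * 1 := mul_le_mul_of_nonneg_left hD' (norm_nonneg _)
      _ = ‖deriv F z‖ := mul_one _
  · rw [hcomp, norm_mul, h]
    have hw0 : w 0 = 0 := by
      have := hwz 0 (by simp)
      rw [norm_zero] at this
      exact norm_le_zero_iff.mp this
    rw [hw0]
    rw [h] at h'
    have := mul_le_mul_of_nonneg_left h' (norm_nonneg (deriv F 0))
    linarith

end Pool.Agent.R255.Camp
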