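import Mathlib

/-! Polynomial certificates used in `Pool.Agent.Results.MP_fa5fea_an.FivePoints`. -/

set_option autoImplicit false
set_option linter.unusedVariables false

namespace Pool.Agent.R255.CliffCert

/-- minus the determinant of the localizer. -/
def P (x y z : ℝ) : ℝ := (x ^ 2 + y ^ 2 + z ^ 2) * (x ^ 2 + y ^ 2 + z ^ 2 + 1) ^ 2 - 16 * x * y * z

theorem cert00 {x y z a0 b0 c0 d0 a1 b1 c1 d1 a2 b2 c2 d2 : ℝ}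
    (hr0 : ((-1) * z) * a0 + ((-1) * x) * c0 - ((1) * y) * d0 + ((1)) * a1 - ((-1)) * d2 = 0)
    (hi0 : ((-1) * z) * b0 + ((-1) * x) * d0 + ((1) * y) * c0 + ((1)) * b1 + ((-1)) * c2 = 0) 
    (hr1 : ((-1) * x) * a0 - ((-1) * y) * b0 + ((1) * z) * c0 + ((-1)) * c1 - ((1)) * b2 = 0)
    (hi1 : ((-1) * x) * b0 + ((-1) * y) * a0 + ((1) * z) * d0 + ((-1)) * d1 + ((1)) * a2 = 0) 
    (hr2 : ((1)) * a0 + ((-1) * z) * a1 + ((-1) * x) * c1 - ((1) * y) * d1 + ((1)) * c2 = 0)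
    (hi2 : ((1)) * b0 + ((-1) * z) * b1 + ((-1) * x) * d1 + ((1) * y) * c1 + ((1)) * d2 = 0) 
    (hr3 : ((-1)) * c0 + ((-1) * x) * a1 - ((-1) * y) * b1 + ((1) * z) * c1 + ((1)) * a2 = 0)
    (hi3 : ((-1)) * d0 + ((-1) * x) * b1 + ((-1) * y) * a1 + ((1) * z) * d1 + ((1)) * b2 = 0) 
    (hr4 : - ((-1)) * d0 + ((1)) * c1 + ((-1) * z) * a2 + ((-1) * x) * c2 - ((1) * y) * d2 = 0)
    (hi4 : ((-1)) * c0 + ((1)) * d1 + ((-1) * z) * b2 + ((-1) * x) * d2 + ((1) * y) * c2 = 0) 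
    (hr5 : - ((1)) * b0 + ((1)) * a1 + ((-1) * x) * a2 - ((-1) * y) * b2 + ((1) * z) * c2 = 0)
    (hi5 : ((1)) * a0 + ((1)) * b1 + ((-1) * x) * b2 + ((-1) * y) * a2 + ((1) * z) * d2 = 0) :
    P x y z * a0 = 0 := by
  unfold P
  linear_combination
      ((-1) * z + (-2) * z ^ 3 + (-1) * z ^ 5 + (-2) * y ^ 2 * z + (-2) * y ^ 2 * z ^ 3 + (-1) * y ^ 4 * z + (4) * x * y + (2) * x ^ 2 * z + (-2) * x ^ 2 * z ^ 3 + (-2) * x ^ 2 * y ^ 2 * z + (-1) * x ^ 4 * z) * hr0 +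
      ((1) * x + (-4) * x * z ^ 2 + (-1) * x * z ^ 4 + (-4) * x * y ^ 2 + (-2) * x * y ^ 2 * z ^ 2 + (-1) * x * y ^ 4 + (-2) * x ^ 3 * z ^ 2 + (-2) * x ^ 3 * y ^ 2 + (-1) * x ^ 5) * hr1 +
      ((-1) * y + (-2) * y * z ^ 2 + (-1) * y * z ^ 4 + (-2) * y ^ 3 + (-2) * y ^ 3 * z ^ 2 + (-1) * y ^ 5 + (4) * x * z + (2) * x ^ 2 * y + (-2) * x ^ 2 * y * z ^ 2 + (-2) * x ^ 2 * y ^ 3 + (-1) * x ^ 4 * y) * hi1 +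
      ((-1) * z ^ 2 + (-1) * z ^ 4 + (1) * y ^ 2 + (1) * y ^ 4 + (-4) * x * y * z + (1) * x ^ 2 + (2) * x ^ 2 * y ^ 2 + (1) * x ^ 4) * hr2 +
      ((1) * z + (1) * z ^ 3 + (1) * y ^ 2 * z + (-4) * x * y + (1) * x ^ 2 * z) * hi2 +
      ((1) * y + (1) * y * z ^ 2 + (1) * y ^ 3 + (-2) * x * z + (-2) * x * z ^ 3 + (-2) * x * y ^ 2 * z + (-3) * x ^ 2 * y + (-2) * x ^ 3 * z) * hr3 +
      ((-2) * y * z + (-2) * y * z ^ 3 + (-2) * y ^ 3 * z + (1) * x + (1) * x * z ^ 2 + (-3) * x * y ^ 2 + (-2) * x ^ 2 * y * z + (1) * x ^ 3) * hi3 +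
      ((-2) * y * z + (-2) * y * z ^ 3 + (-2) * y ^ 3 * z + (1) * x + (-3) * x * z ^ 2 + (1) * x * y ^ 2 + (-2) * x ^ 2 * y * z + (1) * x ^ 3) * hr4 +
      ((-1) * y + (-1) * y * z ^ 2 + (-1) * y ^ 3 + (4) * x * z + (-1) * x ^ 2 * y) * hi4 +
      ((1) * z + (1) * z ^ 3 + (1) * y ^ 2 * z + (-2) * x * y + (-2) * x * y * z ^ 2 + (-2) * x * y ^ 3 + (-3) * x ^ 2 * z + (-2) * x ^ 3 * y) * hr5 +
      ((1) * z ^ 2 + (1) * z ^ 4 + (-1) * y ^ 2 + (-1) * y ^ 4 + (-4) * x * y * z + (1) * x ^ 2 + (2) * x ^ 2 * z ^ 2 + (1) * x ^ 4) * hi5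

theorem cert01 {x y z a0 b0 c0 d0 a1 b1 c1 d1 a2 b2 c2 d2 : ℝ}
    (hr0 : ((-1) * z) * a0 + ((-1) * x) * c0 - ((1) * y) * d0 + ((1)) * a1 - ((-1)) * d2 = 0)
    (hi0 : ((-1) * z) * b0 + ((-1) * x) * d0 + ((1) * y) * c0 + ((1)) * b1 + ((-1)) * c2 = 0) 
    (hr1 : ((-1) * x) * a0 - ((-1) * y) * b0 + ((1) * z) * c0 + ((-1)) * c1 - ((1)) * b2 = 0)
    (hi1 : ((-1) * x) * b0 + ((-1) * y) * a0 + ((1) * z) * d0 + ((-1)) * d1 + ((1)) * a2 = 0) 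
    (hr2 : ((1)) * a0 + ((-1) * z) * a1 + ((-1) * x) * c1 - ((1) * y) * d1 + ((1)) * c2 = 0)
    (hi2 : ((1)) * b0 + ((-1) * z) * b1 + ((-1) * x) * d1 + ((1) * y) * c1 + ((1)) * d2 = 0) 
    (hr3 : ((-1)) * c0 + ((-1) * x) * a1 - ((-1) * y) * b1 + ((1) * z) * c1 + ((1)) * a2 = 0)
    (hi3 : ((-1)) * d0 + ((-1) * x) * b1 + ((-1) * y) * a1 + ((1) * z) * d1 + ((1)) * b2 = 0) 
    (hr4 : - ((-1)) * d0 + ((1)) * c1 + ((-1) * z) * a2 + ((-1) * x) * c2 - ((1) * y) * d2 = 0)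
    (hi4 : ((-1)) * c0 + ((1)) * d1 + ((-1) * z) * b2 + ((-1) * x) * d2 + ((1) * y) * c2 = 0) 
    (hr5 : - ((1)) * b0 + ((1)) * a1 + ((-1) * x) * a2 - ((-1) * y) * b2 + ((1) * z) * c2 = 0)
    (hi5 : ((1)) * a0 + ((1)) * b1 + ((-1) * x) * b2 + ((-1) * y) * a2 + ((1) * z) * d2 = 0) :
    P x y z * b0 = 0 := by
  unfold P
  linear_combination
      ((-1) * z + (-2) * z ^ 3 + (-1) * z ^ 5 + (-2) * y ^ 2 * z + (-2) * y ^ 2 * z ^ 3 + (-1) * y ^ 4 * z + (4) * x * y + (2) * x ^ 2 * z + (-2) * x ^ 2 * z ^ 3 + (-2) * x ^ 2 * y ^ 2 * z + (-1) * x ^ 4 * z) * hi0 +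
      ((1) * x + (-4) * x * z ^ 2 + (-1) * x * z ^ 4 + (-4) * x * y ^ 2 + (-2) * x * y ^ 2 * z ^ 2 + (-1) * x * y ^ 4 + (-2) * x ^ 3 * z ^ 2 + (-2) * x ^ 3 * y ^ 2 + (-1) * x ^ 5) * hi1 +
      ((1) * y + (2) * y * z ^ 2 + (1) * y * z ^ 4 + (2) * y ^ 3 + (2) * y ^ 3 * z ^ 2 + (1) * y ^ 5 + (-4) * x * z + (-2) * x ^ 2 * y + (2) * x ^ 2 * y * z ^ 2 + (2) * x ^ 2 * y ^ 3 + (1) * x ^ 4 * y) * hr1 +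
      ((-1) * z ^ 2 + (-1) * z ^ 4 + (1) * y ^ 2 + (1) * y ^ 4 + (-4) * x * y * z + (1) * x ^ 2 + (2) * x ^ 2 * y ^ 2 + (1) * x ^ 4) * hi2 +
      ((-1) * z + (-1) * z ^ 3 + (-1) * y ^ 2 * z + (4) * x * y + (-1) * x ^ 2 * z) * hr2 +
      ((1) * y + (1) * y * z ^ 2 + (1) * y ^ 3 + (-2) * x * z + (-2) * x * z ^ 3 + (-2) * x * y ^ 2 * z + (-3) * x ^ 2 * y + (-2) * x ^ 3 * z) * hi3 +
      ((2) * y * z + (2) * y * z ^ 3 + (2) * y ^ 3 * z + (-1) * x + (-1) * x * z ^ 2 + (3) * x * y ^ 2 + (2) * x ^ 2 * y * z + (-1) * x ^ 3) * hr3 +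
      ((-2) * y * z + (-2) * y * z ^ 3 + (-2) * y ^ 3 * z + (1) * x + (-3) * x * z ^ 2 + (1) * x * y ^ 2 + (-2) * x ^ 2 * y * z + (1) * x ^ 3) * hi4 +
      ((1) * y + (1) * y * z ^ 2 + (1) * y ^ 3 + (-4) * x * z + (1) * x ^ 2 * y) * hr4 +
      ((1) * z + (1) * z ^ 3 + (1) * y ^ 2 * z + (-2) * x * y + (-2) * x * y * z ^ 2 + (-2) * x * y ^ 3 + (-3) * x ^ 2 * z + (-2) * x ^ 3 * y) * hi5 +
      ((-1) * z ^ 2 + (-1) * z ^ 4 + (1) * y ^ 2 + (1) * y ^ 4 + (4) * x * y * z + (-1) * x ^ 2 + (-2) * x ^ 2 * z ^ 2 + (-1) * x ^ 4) * hr5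

theorem cert10 {x y z a0 b0 c0 d0 a1 b1 c1 d1 a2 b2 c2 d2 : ℝ}
    (hr0 : ((-1) * z) * a0 + ((-1) * x) * c0 - ((1) * y) * d0 + ((1)) * a1 - ((-1)) * d2 = 0)
    (hi0 : ((-1) * z) * b0 + ((-1) * x) * d0 + ((1) * y) * c0 + ((1)) * b1 + ((-1)) * c2 = 0) 
    (hr1 : ((-1) * x) * a0 - ((-1) * y) * b0 + ((1) * z) * c0 + ((-1)) * c1 - ((1)) * b2 = 0)
    (hi1 : ((-1) * x) * b0 + ((-1) * y) * a0 + ((1) * z) * d0 + ((-1)) * d1 + ((1)) * a2 = 0) 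
    (hr2 : ((1)) * a0 + ((-1) * z) * a1 + ((-1) * x) * c1 - ((1) * y) * d1 + ((1)) * c2 = 0)
    (hi2 : ((1)) * b0 + ((-1) * z) * b1 + ((-1) * x) * d1 + ((1) * y) * c1 + ((1)) * d2 = 0) 
    (hr3 : ((-1)) * c0 + ((-1) * x) * a1 - ((-1) * y) * b1 + ((1) * z) * c1 + ((1)) * a2 = 0)
    (hi3 : ((-1)) * d0 + ((-1) * x) * b1 + ((-1) * y) * a1 + ((1) * z) * d1 + ((1)) * b2 = 0) 
    (hr4 : - ((-1)) * d0 + ((1)) * c1 + ((-1) * z) * a2 + ((-1) * x) * c2 - ((1) * y) * d2 = 0)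
    (hi4 : ((-1)) * c0 + ((1)) * d1 + ((-1) * z) * b2 + ((-1) * x) * d2 + ((1) * y) * c2 = 0) 
    (hr5 : - ((1)) * b0 + ((1)) * a1 + ((-1) * x) * a2 - ((-1) * y) * b2 + ((1) * z) * c2 = 0)
    (hi5 : ((1)) * a0 + ((1)) * b1 + ((-1) * x) * b2 + ((-1) * y) * a2 + ((1) * z) * d2 = 0) :
    P x y z * c0 = 0 := by
  unfold P
  linear_combination
      ((1) * x + (-4) * x * z ^ 2 + (-1) * x * z ^ 4 + (-4) * x * y ^ 2 + (-2) * x * y ^ 2 * z ^ 2 + (-1) * x * y ^ 4 + (-2) * x ^ 3 * z ^ 2 + (-2) * x ^ 3 * y ^ 2 + (-1) * x ^ 5) * hr0 +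
      ((1) * y + (2) * y * z ^ 2 + (1) * y * z ^ 4 + (2) * y ^ 3 + (2) * y ^ 3 * z ^ 2 + (1) * y ^ 5 + (-4) * x * z + (-2) * x ^ 2 * y + (2) * x ^ 2 * y * z ^ 2 + (2) * x ^ 2 * y ^ 3 + (1) * x ^ 4 * y) * hi0 +
      ((1) * z + (2) * z ^ 3 + (1) * z ^ 5 + (2) * y ^ 2 * z + (2) * y ^ 2 * z ^ 3 + (1) * y ^ 4 * z + (-4) * x * y + (-2) * x ^ 2 * z + (2) * x ^ 2 * z ^ 3 + (2) * x ^ 2 * y ^ 2 * z + (1) * x ^ 4 * z) * hr1 +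
      ((1) * y + (1) * y * z ^ 2 + (1) * y ^ 3 + (-2) * x * z + (-2) * x * z ^ 3 + (-2) * x * y ^ 2 * z + (-3) * x ^ 2 * y + (-2) * x ^ 3 * z) * hr2 +
      ((2) * y * z + (2) * y * z ^ 3 + (2) * y ^ 3 * z + (-1) * x + (-1) * x * z ^ 2 + (3) * x * y ^ 2 + (2) * x ^ 2 * y * z + (-1) * x ^ 3) * hi2 +
      ((1) * z ^ 2 + (1) * z ^ 4 + (-1) * y ^ 2 + (-1) * y ^ 4 + (4) * x * y * z + (-1) * x ^ 2 + (-2) * x ^ 2 * y ^ 2 + (-1) * x ^ 4) * hr3 +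
      ((1) * z + (1) * z ^ 3 + (1) * y ^ 2 * z + (-4) * x * y + (1) * x ^ 2 * z) * hi3 +
      ((1) * z + (1) * z ^ 3 + (1) * y ^ 2 * z + (-2) * x * y + (-2) * x * y * z ^ 2 + (-2) * x * y ^ 3 + (-3) * x ^ 2 * z + (-2) * x ^ 3 * y) * hr4 +
      ((-1) * z ^ 2 + (-1) * z ^ 4 + (1) * y ^ 2 + (1) * y ^ 4 + (4) * x * y * z + (-1) * x ^ 2 + (-2) * x ^ 2 * z ^ 2 + (-1) * x ^ 4) * hi4 +
      ((2) * y * z + (2) * y * z ^ 3 + (2) * y ^ 3 * z + (-1) * x + (3) * x * z ^ 2 + (-1) * x * y ^ 2 + (2) * x ^ 2 * y * z + (-1) * x ^ 3) * hr5 +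
      ((-1) * y + (-1) * y * z ^ 2 + (-1) * y ^ 3 + (4) * x * z + (-1) * x ^ 2 * y) * hi5

theorem cert11 {x y z a0 b0 c0 d0 a1 b1 c1 d1 a2 b2 c2 d2 : ℝ}
    (hr0 : ((-1) * z) * a0 + ((-1) * x) * c0 - ((1) * y) * d0 + ((1)) * a1 - ((-1)) * d2 = 0)
    (hi0 : ((-1) * z) * b0 + ((-1) * x) * d0 + ((1) * y) * c0 + ((1)) * b1 + ((-1)) * c2 = 0) 
    (hr1 : ((-1) * x) * a0 - ((-1) * y) * b0 + ((1) * z) * c0 + ((-1)) * c1 - ((1)) * b2 = 0)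
    (hi1 : ((-1) * x) * b0 + ((-1) * y) * a0 + ((1) * z) * d0 + ((-1)) * d1 + ((1)) * a2 = 0) 
    (hr2 : ((1)) * a0 + ((-1) * z) * a1 + ((-1) * x) * c1 - ((1) * y) * d1 + ((1)) * c2 = 0)
    (hi2 : ((1)) * b0 + ((-1) * z) * b1 + ((-1) * x) * d1 + ((1) * y) * c1 + ((1)) * d2 = 0) 
    (hr3 : ((-1)) * c0 + ((-1) * x) * a1 - ((-1) * y) * b1 + ((1) * z) * c1 + ((1)) * a2 = 0)
    (hi3 : ((-1)) * d0 + ((-1) * x) * b1 + ((-1) * y) * a1 + ((1) * z) * d1 + ((1)) * b2 = 0) 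
    (hr4 : - ((-1)) * d0 + ((1)) * c1 + ((-1) * z) * a2 + ((-1) * x) * c2 - ((1) * y) * d2 = 0)
    (hi4 : ((-1)) * c0 + ((1)) * d1 + ((-1) * z) * b2 + ((-1) * x) * d2 + ((1) * y) * c2 = 0) 
    (hr5 : - ((1)) * b0 + ((1)) * a1 + ((-1) * x) * a2 - ((-1) * y) * b2 + ((1) * z) * c2 = 0)
    (hi5 : ((1)) * a0 + ((1)) * b1 + ((-1) * x) * b2 + ((-1) * y) * a2 + ((1) * z) * d2 = 0) :
    P x y z * d0 = 0 := by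
  unfold P
  linear_combination
      ((1) * x + (-4) * x * z ^ 2 + (-1) * x * z ^ 4 + (-4) * x * y ^ 2 + (-2) * x * y ^ 2 * z ^ 2 + (-1) * x * y ^ 4 + (-2) * x ^ 3 * z ^ 2 + (-2) * x ^ 3 * y ^ 2 + (-1) * x ^ 5) * hi0 +
      ((-1) * y + (-2) * y * z ^ 2 + (-1) * y * z ^ 4 + (-2) * y ^ 3 + (-2) * y ^ 3 * z ^ 2 + (-1) * y ^ 5 + (4) * x * z + (2) * x ^ 2 * y + (-2) * x ^ 2 * y * z ^ 2 + (-2) * x ^ 2 * y ^ 3 + (-1) * x ^ 4 * y) * hr0 +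
      ((1) * z + (2) * z ^ 3 + (1) * z ^ 5 + (2) * y ^ 2 * z + (2) * y ^ 2 * z ^ 3 + (1) * y ^ 4 * z + (-4) * x * y + (-2) * x ^ 2 * z + (2) * x ^ 2 * z ^ 3 + (2) * x ^ 2 * y ^ 2 * z + (1) * x ^ 4 * z) * hi1 +
      ((1) * y + (1) * y * z ^ 2 + (1) * y ^ 3 + (-2) * x * z + (-2) * x * z ^ 3 + (-2) * x * y ^ 2 * z + (-3) * x ^ 2 * y + (-2) * x ^ 3 * z) * hi2 +
      ((-2) * y * z + (-2) * y * z ^ 3 + (-2) * y ^ 3 * z + (1) * x + (1) * x * z ^ 2 + (-3) * x * y ^ 2 + (-2) * x ^ 2 * y * z + (1) * x ^ 3) * hr2 +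
      ((1) * z ^ 2 + (1) * z ^ 4 + (-1) * y ^ 2 + (-1) * y ^ 4 + (4) * x * y * z + (-1) * x ^ 2 + (-2) * x ^ 2 * y ^ 2 + (-1) * x ^ 4) * hi3 +
      ((-1) * z + (-1) * z ^ 3 + (-1) * y ^ 2 * z + (4) * x * y + (-1) * x ^ 2 * z) * hr3 +
      ((1) * z + (1) * z ^ 3 + (1) * y ^ 2 * z + (-2) * x * y + (-2) * x * y * z ^ 2 + (-2) * x * y ^ 3 + (-3) * x ^ 2 * z + (-2) * x ^ 3 * y) * hi4 +
      ((1) * z ^ 2 + (1) * z ^ 4 + (-1) * y ^ 2 + (-1) * y ^ 4 + (-4) * x * y * z + (1) * x ^ 2 + (2) * x ^ 2 * z ^ 2 + (1) * x ^ 4) * hr4 +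
      ((2) * y * z + (2) * y * z ^ 3 + (2) * y ^ 3 * z + (-1) * x + (3) * x * z ^ 2 + (-1) * x * y ^ 2 + (2) * x ^ 2 * y * z + (-1) * x ^ 3) * hi5 +
      ((1) * y + (1) * y * z ^ 2 + (1) * y ^ 3 + (-4) * x * z + (1) * x ^ 2 * y) * hr5

theorem cert20 {x y z a0 b0 c0 d0 a1 b1 c1 d1 a2 b2 c2 d2 : ℝ}
    (hr0 : ((-1) * z) * a0 + ((-1) * x) * c0 - ((1) * y) * d0 + ((1)) * a1 - ((-1)) * d2 = 0)
    (hi0 : ((-1) * z) * b0 + ((-1) * x) * d0 + ((1) * y) * c0 + ((1)) * b1 + ((-1)) * c2 = 0) 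
    (hr1 : ((-1) * x) * a0 - ((-1) * y) * b0 + ((1) * z) * c0 + ((-1)) * c1 - ((1)) * b2 = 0)
    (hi1 : ((-1) * x) * b0 + ((-1) * y) * a0 + ((1) * z) * d0 + ((-1)) * d1 + ((1)) * a2 = 0) 
    (hr2 : ((1)) * a0 + ((-1) * z) * a1 + ((-1) * x) * c1 - ((1) * y) * d1 + ((1)) * c2 = 0)
    (hi2 : ((1)) * b0 + ((-1) * z) * b1 + ((-1) * x) * d1 + ((1) * y) * c1 + ((1)) * d2 = 0) 
    (hr3 : ((-1)) * c0 + ((-1) * x) * a1 - ((-1) * y) * b1 + ((1) * z) * c1 + ((1)) * a2 = 0)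
    (hi3 : ((-1)) * d0 + ((-1) * x) * b1 + ((-1) * y) * a1 + ((1) * z) * d1 + ((1)) * b2 = 0) 
    (hr4 : - ((-1)) * d0 + ((1)) * c1 + ((-1) * z) * a2 + ((-1) * x) * c2 - ((1) * y) * d2 = 0)
    (hi4 : ((-1)) * c0 + ((1)) * d1 + ((-1) * z) * b2 + ((-1) * x) * d2 + ((1) * y) * c2 = 0) 
    (hr5 : - ((1)) * b0 + ((1)) * a1 + ((-1) * x) * a2 - ((-1) * y) * b2 + ((1) * z) * c2 = 0)
    (hi5 : ((1)) * a0 + ((1)) * b1 + ((-1) * x) * b2 + ((-1) * y) * a2 + ((1) * z) * d2 = 0) :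
    P x y z * a1 = 0 := by
  unfold P
  linear_combination
      ((-1) * z ^ 2 + (-1) * z ^ 4 + (1) * y ^ 2 + (1) * y ^ 4 + (-4) * x * y * z + (1) * x ^ 2 + (2) * x ^ 2 * y ^ 2 + (1) * x ^ 4) * hr0 +
      ((-1) * z + (-1) * z ^ 3 + (-1) * y ^ 2 * z + (4) * x * y + (-1) * x ^ 2 * z) * hi0 +
      ((1) * y + (1) * y * z ^ 2 + (1) * y ^ 3 + (-2) * x * z + (-2) * x * z ^ 3 + (-2) * x * y ^ 2 * z + (-3) * x ^ 2 * y + (-2) * x ^ 3 * z) * hr1 +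
      ((-2) * y * z + (-2) * y * z ^ 3 + (-2) * y ^ 3 * z + (1) * x + (1) * x * z ^ 2 + (-3) * x * y ^ 2 + (-2) * x ^ 2 * y * z + (1) * x ^ 3) * hi1 +
      ((-1) * z + (-2) * z ^ 3 + (-1) * z ^ 5 + (2) * y ^ 2 * z + (-2) * y ^ 2 * z ^ 3 + (-1) * y ^ 4 * z + (4) * x * y + (-2) * x ^ 2 * z + (-2) * x ^ 2 * z ^ 3 + (-2) * x ^ 2 * y ^ 2 * z + (-1) * x ^ 4 * z) * hr2 +
      ((4) * y * z + (-1) * x + (-2) * x * z ^ 2 + (-1) * x * z ^ 4 + (2) * x * y ^ 2 + (-2) * x * y ^ 2 * z ^ 2 + (-1) * x * y ^ 4 + (-2) * x ^ 3 + (-2) * x ^ 3 * z ^ 2 + (-2) * x ^ 3 * y ^ 2 + (-1) * x ^ 5) * hr3 +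
      ((1) * y + (-4) * y * z ^ 2 + (-1) * y * z ^ 4 + (-2) * y ^ 3 * z ^ 2 + (-1) * y ^ 5 + (-4) * x ^ 2 * y + (-2) * x ^ 2 * y * z ^ 2 + (-2) * x ^ 2 * y ^ 3 + (-1) * x ^ 4 * y) * hi3 +
      ((1) * y + (-3) * y * z ^ 2 + (1) * y ^ 3 + (-2) * x * z + (-2) * x * z ^ 3 + (-2) * x * y ^ 2 * z + (1) * x ^ 2 * y + (-2) * x ^ 3 * z) * hr4 +
      ((-4) * y * z + (1) * x + (1) * x * z ^ 2 + (1) * x * y ^ 2 + (1) * x ^ 3) * hi4 +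
      ((1) * z ^ 2 + (1) * z ^ 4 + (1) * y ^ 2 + (2) * y ^ 2 * z ^ 2 + (1) * y ^ 4 + (-4) * x * y * z + (-1) * x ^ 2 + (-1) * x ^ 4) * hr5 +
      ((1) * z + (1) * z ^ 3 + (-3) * y ^ 2 * z + (-2) * x * y + (-2) * x * y * z ^ 2 + (-2) * x * y ^ 3 + (1) * x ^ 2 * z + (-2) * x ^ 3 * y) * hi5

theorem cert21 {x y z a0 b0 c0 d0 a1 b1 c1 d1 a2 b2 c2 d2 : ℝ}
    (hr0 : ((-1) * z) * a0 + ((-1) * x) * c0 - ((1) * y) * d0 + ((1)) * a1 - ((-1)) * d2 = 0)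
    (hi0 : ((-1) * z) * b0 + ((-1) * x) * d0 + ((1) * y) * c0 + ((1)) * b1 + ((-1)) * c2 = 0) 
    (hr1 : ((-1) * x) * a0 - ((-1) * y) * b0 + ((1) * z) * c0 + ((-1)) * c1 - ((1)) * b2 = 0)
    (hi1 : ((-1) * x) * b0 + ((-1) * y) * a0 + ((1) * z) * d0 + ((-1)) * d1 + ((1)) * a2 = 0) 
    (hr2 : ((1)) * a0 + ((-1) * z) * a1 + ((-1) * x) * c1 - ((1) * y) * d1 + ((1)) * c2 = 0)
    (hi2 : ((1)) * b0 + ((-1) * z) * b1 + ((-1) * x) * d1 + ((1) * y) * c1 + ((1)) * d2 = 0) 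
    (hr3 : ((-1)) * c0 + ((-1) * x) * a1 - ((-1) * y) * b1 + ((1) * z) * c1 + ((1)) * a2 = 0)
    (hi3 : ((-1)) * d0 + ((-1) * x) * b1 + ((-1) * y) * a1 + ((1) * z) * d1 + ((1)) * b2 = 0) 
    (hr4 : - ((-1)) * d0 + ((1)) * c1 + ((-1) * z) * a2 + ((-1) * x) * c2 - ((1) * y) * d2 = 0)
    (hi4 : ((-1)) * c0 + ((1)) * d1 + ((-1) * z) * b2 + ((-1) * x) * d2 + ((1) * y) * c2 = 0) 
    (hr5 : - ((1)) * b0 + ((1)) * a1 + ((-1) * x) * a2 - ((-1) * y) * b2 + ((1) * z) * c2 = 0)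
    (hi5 : ((1)) * a0 + ((1)) * b1 + ((-1) * x) * b2 + ((-1) * y) * a2 + ((1) * z) * d2 = 0) :
    P x y z * b1 = 0 := by
  unfold P
  linear_combination
      ((-1) * z ^ 2 + (-1) * z ^ 4 + (1) * y ^ 2 + (1) * y ^ 4 + (-4) * x * y * z + (1) * x ^ 2 + (2) * x ^ 2 * y ^ 2 + (1) * x ^ 4) * hi0 +
      ((1) * z + (1) * z ^ 3 + (1) * y ^ 2 * z + (-4) * x * y + (1) * x ^ 2 * z) * hr0 +
      ((1) * y + (1) * y * z ^ 2 + (1) * y ^ 3 + (-2) * x * z + (-2) * x * z ^ 3 + (-2) * x * y ^ 2 * z + (-3) * x ^ 2 * y + (-2) * x ^ 3 * z) * hi1 +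
      ((2) * y * z + (2) * y * z ^ 3 + (2) * y ^ 3 * z + (-1) * x + (-1) * x * z ^ 2 + (3) * x * y ^ 2 + (2) * x ^ 2 * y * z + (-1) * x ^ 3) * hr1 +
      ((-1) * z + (-2) * z ^ 3 + (-1) * z ^ 5 + (2) * y ^ 2 * z + (-2) * y ^ 2 * z ^ 3 + (-1) * y ^ 4 * z + (4) * x * y + (-2) * x ^ 2 * z + (-2) * x ^ 2 * z ^ 3 + (-2) * x ^ 2 * y ^ 2 * z + (-1) * x ^ 4 * z) * hi2 +
      ((4) * y * z + (-1) * x + (-2) * x * z ^ 2 + (-1) * x * z ^ 4 + (2) * x * y ^ 2 + (-2) * x * y ^ 2 * z ^ 2 + (-1) * x * y ^ 4 + (-2) * x ^ 3 + (-2) * x ^ 3 * z ^ 2 + (-2) * x ^ 3 * y ^ 2 + (-1) * x ^ 5) * hi3 +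
      ((-1) * y + (4) * y * z ^ 2 + (1) * y * z ^ 4 + (2) * y ^ 3 * z ^ 2 + (1) * y ^ 5 + (4) * x ^ 2 * y + (2) * x ^ 2 * y * z ^ 2 + (2) * x ^ 2 * y ^ 3 + (1) * x ^ 4 * y) * hr3 +
      ((1) * y + (-3) * y * z ^ 2 + (1) * y ^ 3 + (-2) * x * z + (-2) * x * z ^ 3 + (-2) * x * y ^ 2 * z + (1) * x ^ 2 * y + (-2) * x ^ 3 * z) * hi4 +
      ((4) * y * z + (-1) * x + (-1) * x * z ^ 2 + (-1) * x * y ^ 2 + (-1) * x ^ 3) * hr4 +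
      ((1) * z ^ 2 + (1) * z ^ 4 + (1) * y ^ 2 + (2) * y ^ 2 * z ^ 2 + (1) * y ^ 4 + (-4) * x * y * z + (-1) * x ^ 2 + (-1) * x ^ 4) * hi5 +
      ((-1) * z + (-1) * z ^ 3 + (3) * y ^ 2 * z + (2) * x * y + (2) * x * y * z ^ 2 + (2) * x * y ^ 3 + (-1) * x ^ 2 * z + (2) * x ^ 3 * y) * hr5

theorem cert30 {x y z a0 b0 c0 d0 a1 b1 c1 d1 a2 b2 c2 d2 : ℝ}
    (hr0 : ((-1) * z) * a0 + ((-1) * x) * c0 - ((1) * y) * d0 + ((1)) * a1 - ((-1)) * d2 = 0)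
    (hi0 : ((-1) * z) * b0 + ((-1) * x) * d0 + ((1) * y) * c0 + ((1)) * b1 + ((-1)) * c2 = 0) 
    (hr1 : ((-1) * x) * a0 - ((-1) * y) * b0 + ((1) * z) * c0 + ((-1)) * c1 - ((1)) * b2 = 0)
    (hi1 : ((-1) * x) * b0 + ((-1) * y) * a0 + ((1) * z) * d0 + ((-1)) * d1 + ((1)) * a2 = 0) 
    (hr2 : ((1)) * a0 + ((-1) * z) * a1 + ((-1) * x) * c1 - ((1) * y) * d1 + ((1)) * c2 = 0)
    (hi2 : ((1)) * b0 + ((-1) * z) * b1 + ((-1) * x) * d1 + ((1) * y) * c1 + ((1)) * d2 = 0) 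
    (hr3 : ((-1)) * c0 + ((-1) * x) * a1 - ((-1) * y) * b1 + ((1) * z) * c1 + ((1)) * a2 = 0)
    (hi3 : ((-1)) * d0 + ((-1) * x) * b1 + ((-1) * y) * a1 + ((1) * z) * d1 + ((1)) * b2 = 0) 
    (hr4 : - ((-1)) * d0 + ((1)) * c1 + ((-1) * z) * a2 + ((-1) * x) * c2 - ((1) * y) * d2 = 0)
    (hi4 : ((-1)) * c0 + ((1)) * d1 + ((-1) * z) * b2 + ((-1) * x) * d2 + ((1) * y) * c2 = 0) 
    (hr5 : - ((1)) * b0 + ((1)) * a1 + ((-1) * x) * a2 - ((-1) * y) * b2 + ((1) * z) * c2 = 0)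
    (hi5 : ((1)) * a0 + ((1)) * b1 + ((-1) * x) * b2 + ((-1) * y) * a2 + ((1) * z) * d2 = 0) :
    P x y z * c1 = 0 := by
  unfold P
  linear_combination
      ((1) * y + (1) * y * z ^ 2 + (1) * y ^ 3 + (-2) * x * z + (-2) * x * z ^ 3 + (-2) * x * y ^ 2 * z + (-3) * x ^ 2 * y + (-2) * x ^ 3 * z) * hr0 +
      ((2) * y * z + (2) * y * z ^ 3 + (2) * y ^ 3 * z + (-1) * x + (-1) * x * z ^ 2 + (3) * x * y ^ 2 + (2) * x ^ 2 * y * z + (-1) * x ^ 3) * hi0 +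
      ((1) * z ^ 2 + (1) * z ^ 4 + (-1) * y ^ 2 + (-1) * y ^ 4 + (4) * x * y * z + (-1) * x ^ 2 + (-2) * x ^ 2 * y ^ 2 + (-1) * x ^ 4) * hr1 +
      ((-1) * z + (-1) * z ^ 3 + (-1) * y ^ 2 * z + (4) * x * y + (-1) * x ^ 2 * z) * hi1 +
      ((4) * y * z + (-1) * x + (-2) * x * z ^ 2 + (-1) * x * z ^ 4 + (2) * x * y ^ 2 + (-2) * x * y ^ 2 * z ^ 2 + (-1) * x * y ^ 4 + (-2) * x ^ 3 + (-2) * x ^ 3 * z ^ 2 + (-2) * x ^ 3 * y ^ 2 + (-1) * x ^ 5) * hr2 +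
      ((-1) * y + (4) * y * z ^ 2 + (1) * y * z ^ 4 + (2) * y ^ 3 * z ^ 2 + (1) * y ^ 5 + (4) * x ^ 2 * y + (2) * x ^ 2 * y * z ^ 2 + (2) * x ^ 2 * y ^ 3 + (1) * x ^ 4 * y) * hi2 +
      ((1) * z + (2) * z ^ 3 + (1) * z ^ 5 + (-2) * y ^ 2 * z + (2) * y ^ 2 * z ^ 3 + (1) * y ^ 4 * z + (-4) * x * y + (2) * x ^ 2 * z + (2) * x ^ 2 * z ^ 3 + (2) * x ^ 2 * y ^ 2 * z + (1) * x ^ 4 * z) * hr3 +
      ((1) * z ^ 2 + (1) * z ^ 4 + (1) * y ^ 2 + (2) * y ^ 2 * z ^ 2 + (1) * y ^ 4 + (-4) * x * y * z + (-1) * x ^ 2 + (-1) * x ^ 4) * hr4 +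
      ((-1) * z + (-1) * z ^ 3 + (3) * y ^ 2 * z + (2) * x * y + (2) * x * y * z ^ 2 + (2) * x * y ^ 3 + (-1) * x ^ 2 * z + (2) * x ^ 3 * y) * hi4 +
      ((-1) * y + (3) * y * z ^ 2 + (-1) * y ^ 3 + (2) * x * z + (2) * x * z ^ 3 + (2) * x * y ^ 2 * z + (-1) * x ^ 2 * y + (2) * x ^ 3 * z) * hr5 +
      ((-4) * y * z + (1) * x + (1) * x * z ^ 2 + (1) * x * y ^ 2 + (1) * x ^ 3) * hi5

theorem cert31 {x y z a0 b0 c0 d0 a1 b1 c1 d1 a2 b2 c2 d2 : ℝ}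
    (hr0 : ((-1) * z) * a0 + ((-1) * x) * c0 - ((1) * y) * d0 + ((1)) * a1 - ((-1)) * d2 = 0)
    (hi0 : ((-1) * z) * b0 + ((-1) * x) * d0 + ((1) * y) * c0 + ((1)) * b1 + ((-1)) * c2 = 0) 
    (hr1 : ((-1) * x) * a0 - ((-1) * y) * b0 + ((1) * z) * c0 + ((-1)) * c1 - ((1)) * b2 = 0)
    (hi1 : ((-1) * x) * b0 + ((-1) * y) * a0 + ((1) * z) * d0 + ((-1)) * d1 + ((1)) * a2 = 0) 
    (hr2 : ((1)) * a0 + ((-1) * z) * a1 + ((-1) * x) * c1 - ((1) * y) * d1 + ((1)) * c2 = 0)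
    (hi2 : ((1)) * b0 + ((-1) * z) * b1 + ((-1) * x) * d1 + ((1) * y) * c1 + ((1)) * d2 = 0) 
    (hr3 : ((-1)) * c0 + ((-1) * x) * a1 - ((-1) * y) * b1 + ((1) * z) * c1 + ((1)) * a2 = 0)
    (hi3 : ((-1)) * d0 + ((-1) * x) * b1 + ((-1) * y) * a1 + ((1) * z) * d1 + ((1)) * b2 = 0) 
    (hr4 : - ((-1)) * d0 + ((1)) * c1 + ((-1) * z) * a2 + ((-1) * x) * c2 - ((1) * y) * d2 = 0)
    (hi4 : ((-1)) * c0 + ((1)) * d1 + ((-1) * z) * b2 + ((-1) * x) * d2 + ((1) * y) * c2 = 0) 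
    (hr5 : - ((1)) * b0 + ((1)) * a1 + ((-1) * x) * a2 - ((-1) * y) * b2 + ((1) * z) * c2 = 0)
    (hi5 : ((1)) * a0 + ((1)) * b1 + ((-1) * x) * b2 + ((-1) * y) * a2 + ((1) * z) * d2 = 0) :
    P x y z * d1 = 0 := by
  unfold P
  linear_combination
      ((1) * y + (1) * y * z ^ 2 + (1) * y ^ 3 + (-2) * x * z + (-2) * x * z ^ 3 + (-2) * x * y ^ 2 * z + (-3) * x ^ 2 * y + (-2) * x ^ 3 * z) * hi0 +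
      ((-2) * y * z + (-2) * y * z ^ 3 + (-2) * y ^ 3 * z + (1) * x + (1) * x * z ^ 2 + (-3) * x * y ^ 2 + (-2) * x ^ 2 * y * z + (1) * x ^ 3) * hr0 +
      ((1) * z ^ 2 + (1) * z ^ 4 + (-1) * y ^ 2 + (-1) * y ^ 4 + (4) * x * y * z + (-1) * x ^ 2 + (-2) * x ^ 2 * y ^ 2 + (-1) * x ^ 4) * hi1 +
      ((1) * z + (1) * z ^ 3 + (1) * y ^ 2 * z + (-4) * x * y + (1) * x ^ 2 * z) * hr1 +
      ((4) * y * z + (-1) * x + (-2) * x * z ^ 2 + (-1) * x * z ^ 4 + (2) * x * y ^ 2 + (-2) * x * y ^ 2 * z ^ 2 + (-1) * x * y ^ 4 + (-2) * x ^ 3 + (-2) * x ^ 3 * z ^ 2 + (-2) * x ^ 3 * y ^ 2 + (-1) * x ^ 5) * hi2 +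
      ((1) * y + (-4) * y * z ^ 2 + (-1) * y * z ^ 4 + (-2) * y ^ 3 * z ^ 2 + (-1) * y ^ 5 + (-4) * x ^ 2 * y + (-2) * x ^ 2 * y * z ^ 2 + (-2) * x ^ 2 * y ^ 3 + (-1) * x ^ 4 * y) * hr2 +
      ((1) * z + (2) * z ^ 3 + (1) * z ^ 5 + (-2) * y ^ 2 * z + (2) * y ^ 2 * z ^ 3 + (1) * y ^ 4 * z + (-4) * x * y + (2) * x ^ 2 * z + (2) * x ^ 2 * z ^ 3 + (2) * x ^ 2 * y ^ 2 * z + (1) * x ^ 4 * z) * hi3 +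
      ((1) * z ^ 2 + (1) * z ^ 4 + (1) * y ^ 2 + (2) * y ^ 2 * z ^ 2 + (1) * y ^ 4 + (-4) * x * y * z + (-1) * x ^ 2 + (-1) * x ^ 4) * hi4 +
      ((1) * z + (1) * z ^ 3 + (-3) * y ^ 2 * z + (-2) * x * y + (-2) * x * y * z ^ 2 + (-2) * x * y ^ 3 + (1) * x ^ 2 * z + (-2) * x ^ 3 * y) * hr4 +
      ((-1) * y + (3) * y * z ^ 2 + (-1) * y ^ 3 + (2) * x * z + (2) * x * z ^ 3 + (2) * x * y ^ 2 * z + (-1) * x ^ 2 * y + (2) * x ^ 3 * z) * hi5 +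
      ((4) * y * z + (-1) * x + (-1) * x * z ^ 2 + (-1) * x * y ^ 2 + (-1) * x ^ 3) * hr5

theorem cert40 {x y z a0 b0 c0 d0 a1 b1 c1 d1 a2 b2 c2 d2 : ℝ}
    (hr0 : ((-1) * z) * a0 + ((-1) * x) * c0 - ((1) * y) * d0 + ((1)) * a1 - ((-1)) * d2 = 0)
    (hi0 : ((-1) * z) * b0 + ((-1) * x) * d0 + ((1) * y) * c0 + ((1)) * b1 + ((-1)) * c2 = 0) 
    (hr1 : ((-1) * x) * a0 - ((-1) * y) * b0 + ((1) * z) * c0 + ((-1)) * c1 - ((1)) * b2 = 0)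
    (hi1 : ((-1) * x) * b0 + ((-1) * y) * a0 + ((1) * z) * d0 + ((-1)) * d1 + ((1)) * a2 = 0) 
    (hr2 : ((1)) * a0 + ((-1) * z) * a1 + ((-1) * x) * c1 - ((1) * y) * d1 + ((1)) * c2 = 0)
    (hi2 : ((1)) * b0 + ((-1) * z) * b1 + ((-1) * x) * d1 + ((1) * y) * c1 + ((1)) * d2 = 0) 
    (hr3 : ((-1)) * c0 + ((-1) * x) * a1 - ((-1) * y) * b1 + ((1) * z) * c1 + ((1)) * a2 = 0)
    (hi3 : ((-1)) * d0 + ((-1) * x) * b1 + ((-1) * y) * a1 + ((1) * z) * d1 + ((1)) * b2 = 0) 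
    (hr4 : - ((-1)) * d0 + ((1)) * c1 + ((-1) * z) * a2 + ((-1) * x) * c2 - ((1) * y) * d2 = 0)
    (hi4 : ((-1)) * c0 + ((1)) * d1 + ((-1) * z) * b2 + ((-1) * x) * d2 + ((1) * y) * c2 = 0) 
    (hr5 : - ((1)) * b0 + ((1)) * a1 + ((-1) * x) * a2 - ((-1) * y) * b2 + ((1) * z) * c2 = 0)
    (hi5 : ((1)) * a0 + ((1)) * b1 + ((-1) * x) * b2 + ((-1) * y) * a2 + ((1) * z) * d2 = 0) :
    P x y z * a2 = 0 := by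
  unfold P
  linear_combination
      ((-2) * y * z + (-2) * y * z ^ 3 + (-2) * y ^ 3 * z + (1) * x + (-3) * x * z ^ 2 + (1) * x * y ^ 2 + (-2) * x ^ 2 * y * z + (1) * x ^ 3) * hr0 +
      ((1) * y + (1) * y * z ^ 2 + (1) * y ^ 3 + (-4) * x * z + (1) * x ^ 2 * y) * hi0 +
      ((1) * z + (1) * z ^ 3 + (1) * y ^ 2 * z + (-2) * x * y + (-2) * x * y * z ^ 2 + (-2) * x * y ^ 3 + (-3) * x ^ 2 * z + (-2) * x ^ 3 * y) * hr1 +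
      ((1) * z ^ 2 + (1) * z ^ 4 + (-1) * y ^ 2 + (-1) * y ^ 4 + (-4) * x * y * z + (1) * x ^ 2 + (2) * x ^ 2 * z ^ 2 + (1) * x ^ 4) * hi1 +
      ((1) * y + (-3) * y * z ^ 2 + (1) * y ^ 3 + (-2) * x * z + (-2) * x * z ^ 3 + (-2) * x * y ^ 2 * z + (1) * x ^ 2 * y + (-2) * x ^ 3 * z) * hr2 +
      ((4) * y * z + (-1) * x + (-1) * x * z ^ 2 + (-1) * x * y ^ 2 + (-1) * x ^ 3) * hi2 +
      ((1) * z ^ 2 + (1) * z ^ 4 + (1) * y ^ 2 + (2) * y ^ 2 * z ^ 2 + (1) * y ^ 4 + (-4) * x * y * z + (-1) * x ^ 2 + (-1) * x ^ 4) * hr3 +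
      ((1) * z + (1) * z ^ 3 + (-3) * y ^ 2 * z + (-2) * x * y + (-2) * x * y * z ^ 2 + (-2) * x * y ^ 3 + (1) * x ^ 2 * z + (-2) * x ^ 3 * y) * hi3 +
      ((1) * z + (-1) * z ^ 5 + (-4) * y ^ 2 * z + (-2) * y ^ 2 * z ^ 3 + (-1) * y ^ 4 * z + (-4) * x ^ 2 * z + (-2) * x ^ 2 * z ^ 3 + (-2) * x ^ 2 * y ^ 2 * z + (-1) * x ^ 4 * z) * hr4 +
      ((4) * y * z + (-1) * x + (2) * x * z ^ 2 + (-1) * x * z ^ 4 + (-2) * x * y ^ 2 + (-2) * x * y ^ 2 * z ^ 2 + (-1) * x * y ^ 4 + (-2) * x ^ 3 + (-2) * x ^ 3 * z ^ 2 + (-2) * x ^ 3 * y ^ 2 + (-1) * x ^ 5) * hr5 +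
      ((-1) * y + (2) * y * z ^ 2 + (-1) * y * z ^ 4 + (-2) * y ^ 3 + (-2) * y ^ 3 * z ^ 2 + (-1) * y ^ 5 + (4) * x * z + (-2) * x ^ 2 * y + (-2) * x ^ 2 * y * z ^ 2 + (-2) * x ^ 2 * y ^ 3 + (-1) * x ^ 4 * y) * hi5

theorem cert41 {x y z a0 b0 c0 d0 a1 b1 c1 d1 a2 b2 c2 d2 : ℝ}
    (hr0 : ((-1) * z) * a0 + ((-1) * x) * c0 - ((1) * y) * d0 + ((1)) * a1 - ((-1)) * d2 = 0)
    (hi0 : ((-1) * z) * b0 + ((-1) * x) * d0 + ((1) * y) * c0 + ((1)) * b1 + ((-1)) * c2 = 0) 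
    (hr1 : ((-1) * x) * a0 - ((-1) * y) * b0 + ((1) * z) * c0 + ((-1)) * c1 - ((1)) * b2 = 0)
    (hi1 : ((-1) * x) * b0 + ((-1) * y) * a0 + ((1) * z) * d0 + ((-1)) * d1 + ((1)) * a2 = 0) 
    (hr2 : ((1)) * a0 + ((-1) * z) * a1 + ((-1) * x) * c1 - ((1) * y) * d1 + ((1)) * c2 = 0)
    (hi2 : ((1)) * b0 + ((-1) * z) * b1 + ((-1) * x) * d1 + ((1) * y) * c1 + ((1)) * d2 = 0) 
    (hr3 : ((-1)) * c0 + ((-1) * x) * a1 - ((-1) * y) * b1 + ((1) * z) * c1 + ((1)) * a2 = 0)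
    (hi3 : ((-1)) * d0 + ((-1) * x) * b1 + ((-1) * y) * a1 + ((1) * z) * d1 + ((1)) * b2 = 0) 
    (hr4 : - ((-1)) * d0 + ((1)) * c1 + ((-1) * z) * a2 + ((-1) * x) * c2 - ((1) * y) * d2 = 0)
    (hi4 : ((-1)) * c0 + ((1)) * d1 + ((-1) * z) * b2 + ((-1) * x) * d2 + ((1) * y) * c2 = 0) 
    (hr5 : - ((1)) * b0 + ((1)) * a1 + ((-1) * x) * a2 - ((-1) * y) * b2 + ((1) * z) * c2 = 0)
    (hi5 : ((1)) * a0 + ((1)) * b1 + ((-1) * x) * b2 + ((-1) * y) * a2 + ((1) * z) * d2 = 0) :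
    P x y z * b2 = 0 := by
  unfold P
  linear_combination
      ((-2) * y * z + (-2) * y * z ^ 3 + (-2) * y ^ 3 * z + (1) * x + (-3) * x * z ^ 2 + (1) * x * y ^ 2 + (-2) * x ^ 2 * y * z + (1) * x ^ 3) * hi0 +
      ((-1) * y + (-1) * y * z ^ 2 + (-1) * y ^ 3 + (4) * x * z + (-1) * x ^ 2 * y) * hr0 +
      ((1) * z + (1) * z ^ 3 + (1) * y ^ 2 * z + (-2) * x * y + (-2) * x * y * z ^ 2 + (-2) * x * y ^ 3 + (-3) * x ^ 2 * z + (-2) * x ^ 3 * y) * hi1 +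
      ((-1) * z ^ 2 + (-1) * z ^ 4 + (1) * y ^ 2 + (1) * y ^ 4 + (4) * x * y * z + (-1) * x ^ 2 + (-2) * x ^ 2 * z ^ 2 + (-1) * x ^ 4) * hr1 +
      ((1) * y + (-3) * y * z ^ 2 + (1) * y ^ 3 + (-2) * x * z + (-2) * x * z ^ 3 + (-2) * x * y ^ 2 * z + (1) * x ^ 2 * y + (-2) * x ^ 3 * z) * hi2 +
      ((-4) * y * z + (1) * x + (1) * x * z ^ 2 + (1) * x * y ^ 2 + (1) * x ^ 3) * hr2 +
      ((1) * z ^ 2 + (1) * z ^ 4 + (1) * y ^ 2 + (2) * y ^ 2 * z ^ 2 + (1) * y ^ 4 + (-4) * x * y * z + (-1) * x ^ 2 + (-1) * x ^ 4) * hi3 +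
      ((-1) * z + (-1) * z ^ 3 + (3) * y ^ 2 * z + (2) * x * y + (2) * x * y * z ^ 2 + (2) * x * y ^ 3 + (-1) * x ^ 2 * z + (2) * x ^ 3 * y) * hr3 +
      ((1) * z + (-1) * z ^ 5 + (-4) * y ^ 2 * z + (-2) * y ^ 2 * z ^ 3 + (-1) * y ^ 4 * z + (-4) * x ^ 2 * z + (-2) * x ^ 2 * z ^ 3 + (-2) * x ^ 2 * y ^ 2 * z + (-1) * x ^ 4 * z) * hi4 +
      ((4) * y * z + (-1) * x + (2) * x * z ^ 2 + (-1) * x * z ^ 4 + (-2) * x * y ^ 2 + (-2) * x * y ^ 2 * z ^ 2 + (-1) * x * y ^ 4 + (-2) * x ^ 3 + (-2) * x ^ 3 * z ^ 2 + (-2) * x ^ 3 * y ^ 2 + (-1) * x ^ 5) * hi5 +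
      ((1) * y + (-2) * y * z ^ 2 + (1) * y * z ^ 4 + (2) * y ^ 3 + (2) * y ^ 3 * z ^ 2 + (1) * y ^ 5 + (-4) * x * z + (2) * x ^ 2 * y + (2) * x ^ 2 * y * z ^ 2 + (2) * x ^ 2 * y ^ 3 + (1) * x ^ 4 * y) * hr5

theorem cert50 {x y z a0 b0 c0 d0 a1 b1 c1 d1 a2 b2 c2 d2 : ℝ}
    (hr0 : ((-1) * z) * a0 + ((-1) * x) * c0 - ((1) * y) * d0 + ((1)) * a1 - ((-1)) * d2 = 0)
    (hi0 : ((-1) * z) * b0 + ((-1) * x) * d0 + ((1) * y) * c0 + ((1)) * b1 + ((-1)) * c2 = 0) 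
    (hr1 : ((-1) * x) * a0 - ((-1) * y) * b0 + ((1) * z) * c0 + ((-1)) * c1 - ((1)) * b2 = 0)
    (hi1 : ((-1) * x) * b0 + ((-1) * y) * a0 + ((1) * z) * d0 + ((-1)) * d1 + ((1)) * a2 = 0) 
    (hr2 : ((1)) * a0 + ((-1) * z) * a1 + ((-1) * x) * c1 - ((1) * y) * d1 + ((1)) * c2 = 0)
    (hi2 : ((1)) * b0 + ((-1) * z) * b1 + ((-1) * x) * d1 + ((1) * y) * c1 + ((1)) * d2 = 0) 
    (hr3 : ((-1)) * c0 + ((-1) * x) * a1 - ((-1) * y) * b1 + ((1) * z) * c1 + ((1)) * a2 = 0)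
    (hi3 : ((-1)) * d0 + ((-1) * x) * b1 + ((-1) * y) * a1 + ((1) * z) * d1 + ((1)) * b2 = 0) 
    (hr4 : - ((-1)) * d0 + ((1)) * c1 + ((-1) * z) * a2 + ((-1) * x) * c2 - ((1) * y) * d2 = 0)
    (hi4 : ((-1)) * c0 + ((1)) * d1 + ((-1) * z) * b2 + ((-1) * x) * d2 + ((1) * y) * c2 = 0) 
    (hr5 : - ((1)) * b0 + ((1)) * a1 + ((-1) * x) * a2 - ((-1) * y) * b2 + ((1) * z) * c2 = 0)
    (hi5 : ((1)) * a0 + ((1)) * b1 + ((-1) * x) * b2 + ((-1) * y) * a2 + ((1) * z) * d2 = 0) :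
    P x y z * c2 = 0 := by
  unfold P
  linear_combination
      ((1) * z + (1) * z ^ 3 + (1) * y ^ 2 * z + (-2) * x * y + (-2) * x * y * z ^ 2 + (-2) * x * y ^ 3 + (-3) * x ^ 2 * z + (-2) * x ^ 3 * y) * hr0 +
      ((-1) * z ^ 2 + (-1) * z ^ 4 + (1) * y ^ 2 + (1) * y ^ 4 + (4) * x * y * z + (-1) * x ^ 2 + (-2) * x ^ 2 * z ^ 2 + (-1) * x ^ 4) * hi0 +
      ((2) * y * z + (2) * y * z ^ 3 + (2) * y ^ 3 * z + (-1) * x + (3) * x * z ^ 2 + (-1) * x * y ^ 2 + (2) * x ^ 2 * y * z + (-1) * x ^ 3) * hr1 +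
      ((1) * y + (1) * y * z ^ 2 + (1) * y ^ 3 + (-4) * x * z + (1) * x ^ 2 * y) * hi1 +
      ((1) * z ^ 2 + (1) * z ^ 4 + (1) * y ^ 2 + (2) * y ^ 2 * z ^ 2 + (1) * y ^ 4 + (-4) * x * y * z + (-1) * x ^ 2 + (-1) * x ^ 4) * hr2 +
      ((-1) * z + (-1) * z ^ 3 + (3) * y ^ 2 * z + (2) * x * y + (2) * x * y * z ^ 2 + (2) * x * y ^ 3 + (-1) * x ^ 2 * z + (2) * x ^ 3 * y) * hi2 +
      ((-1) * y + (3) * y * z ^ 2 + (-1) * y ^ 3 + (2) * x * z + (2) * x * z ^ 3 + (2) * x * y ^ 2 * z + (-1) * x ^ 2 * y + (2) * x ^ 3 * z) * hr3 +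
      ((4) * y * z + (-1) * x + (-1) * x * z ^ 2 + (-1) * x * y ^ 2 + (-1) * x ^ 3) * hi3 +
      ((4) * y * z + (-1) * x + (2) * x * z ^ 2 + (-1) * x * z ^ 4 + (-2) * x * y ^ 2 + (-2) * x * y ^ 2 * z ^ 2 + (-1) * x * y ^ 4 + (-2) * x ^ 3 + (-2) * x ^ 3 * z ^ 2 + (-2) * x ^ 3 * y ^ 2 + (-1) * x ^ 5) * hr4 +
      ((1) * y + (-2) * y * z ^ 2 + (1) * y * z ^ 4 + (2) * y ^ 3 + (2) * y ^ 3 * z ^ 2 + (1) * y ^ 5 + (-4) * x * z + (2) * x ^ 2 * y + (2) * x ^ 2 * y * z ^ 2 + (2) * x ^ 2 * y ^ 3 + (1) * x ^ 4 * y) * hi4 +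
      ((-1) * z + (1) * z ^ 5 + (4) * y ^ 2 * z + (2) * y ^ 2 * z ^ 3 + (1) * y ^ 4 * z + (4) * x ^ 2 * z + (2) * x ^ 2 * z ^ 3 + (2) * x ^ 2 * y ^ 2 * z + (1) * x ^ 4 * z) * hr5

theorem cert51 {x y z a0 b0 c0 d0 a1 b1 c1 d1 a2 b2 c2 d2 : ℝ}
    (hr0 : ((-1) * z) * a0 + ((-1) * x) * c0 - ((1) * y) * d0 + ((1)) * a1 - ((-1)) * d2 = 0)
    (hi0 : ((-1) * z) * b0 + ((-1) * x) * d0 + ((1) * y) * c0 + ((1)) * b1 + ((-1)) * c2 = 0) 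
    (hr1 : ((-1) * x) * a0 - ((-1) * y) * b0 + ((1) * z) * c0 + ((-1)) * c1 - ((1)) * b2 = 0)
    (hi1 : ((-1) * x) * b0 + ((-1) * y) * a0 + ((1) * z) * d0 + ((-1)) * d1 + ((1)) * a2 = 0) 
    (hr2 : ((1)) * a0 + ((-1) * z) * a1 + ((-1) * x) * c1 - ((1) * y) * d1 + ((1)) * c2 = 0)
    (hi2 : ((1)) * b0 + ((-1) * z) * b1 + ((-1) * x) * d1 + ((1) * y) * c1 + ((1)) * d2 = 0) 
    (hr3 : ((-1)) * c0 + ((-1) * x) * a1 - ((-1) * y) * b1 + ((1) * z) * c1 + ((1)) * a2 = 0)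
    (hi3 : ((-1)) * d0 + ((-1) * x) * b1 + ((-1) * y) * a1 + ((1) * z) * d1 + ((1)) * b2 = 0) 
    (hr4 : - ((-1)) * d0 + ((1)) * c1 + ((-1) * z) * a2 + ((-1) * x) * c2 - ((1) * y) * d2 = 0)
    (hi4 : ((-1)) * c0 + ((1)) * d1 + ((-1) * z) * b2 + ((-1) * x) * d2 + ((1) * y) * c2 = 0) 
    (hr5 : - ((1)) * b0 + ((1)) * a1 + ((-1) * x) * a2 - ((-1) * y) * b2 + ((1) * z) * c2 = 0)
    (hi5 : ((1)) * a0 + ((1)) * b1 + ((-1) * x) * b2 + ((-1) * y) * a2 + ((1) * z) * d2 = 0) :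
    P x y z * d2 = 0 := by
  unfold P
  linear_combination
      ((1) * z + (1) * z ^ 3 + (1) * y ^ 2 * z + (-2) * x * y + (-2) * x * y * z ^ 2 + (-2) * x * y ^ 3 + (-3) * x ^ 2 * z + (-2) * x ^ 3 * y) * hi0 +
      ((1) * z ^ 2 + (1) * z ^ 4 + (-1) * y ^ 2 + (-1) * y ^ 4 + (-4) * x * y * z + (1) * x ^ 2 + (2) * x ^ 2 * z ^ 2 + (1) * x ^ 4) * hr0 +
      ((2) * y * z + (2) * y * z ^ 3 + (2) * y ^ 3 * z + (-1) * x + (3) * x * z ^ 2 + (-1) * x * y ^ 2 + (2) * x ^ 2 * y * z + (-1) * x ^ 3) * hi1 +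
      ((-1) * y + (-1) * y * z ^ 2 + (-1) * y ^ 3 + (4) * x * z + (-1) * x ^ 2 * y) * hr1 +
      ((1) * z ^ 2 + (1) * z ^ 4 + (1) * y ^ 2 + (2) * y ^ 2 * z ^ 2 + (1) * y ^ 4 + (-4) * x * y * z + (-1) * x ^ 2 + (-1) * x ^ 4) * hi2 +
      ((1) * z + (1) * z ^ 3 + (-3) * y ^ 2 * z + (-2) * x * y + (-2) * x * y * z ^ 2 + (-2) * x * y ^ 3 + (1) * x ^ 2 * z + (-2) * x ^ 3 * y) * hr2 +
      ((-1) * y + (3) * y * z ^ 2 + (-1) * y ^ 3 + (2) * x * z + (2) * x * z ^ 3 + (2) * x * y ^ 2 * z + (-1) * x ^ 2 * y + (2) * x ^ 3 * z) * hi3 +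
      ((-4) * y * z + (1) * x + (1) * x * z ^ 2 + (1) * x * y ^ 2 + (1) * x ^ 3) * hr3 +
      ((4) * y * z + (-1) * x + (2) * x * z ^ 2 + (-1) * x * z ^ 4 + (-2) * x * y ^ 2 + (-2) * x * y ^ 2 * z ^ 2 + (-1) * x * y ^ 4 + (-2) * x ^ 3 + (-2) * x ^ 3 * z ^ 2 + (-2) * x ^ 3 * y ^ 2 + (-1) * x ^ 5) * hi4 +
      ((-1) * y + (2) * y * z ^ 2 + (-1) * y * z ^ 4 + (-2) * y ^ 3 + (-2) * y ^ 3 * z ^ 2 + (-1) * y ^ 5 + (4) * x * z + (-2) * x ^ 2 * y + (-2) * x ^ 2 * y * z ^ 2 + (-2) * x ^ 2 * y ^ 3 + (-1) * x ^ 4 * y) * hr4 +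
      ((-1) * z + (1) * z ^ 5 + (4) * y ^ 2 * z + (2) * y ^ 2 * z ^ 3 + (1) * y ^ 4 * z + (4) * x ^ 2 * z + (2) * x ^ 2 * z ^ 3 + (2) * x ^ 2 * y ^ 2 * z + (1) * x ^ 4 * z) * hi5

theorem certs {x y z a0 b0 c0 d0 a1 b1 c1 d1 a2 b2 c2 d2 : ℝ}
    (hr0 : ((-1) * z) * a0 + ((-1) * x) * c0 - ((1) * y) * d0 + ((1)) * a1 - ((-1)) * d2 = 0)
    (hi0 : ((-1) * z) * b0 + ((-1) * x) * d0 + ((1) * y) * c0 + ((1)) * b1 + ((-1)) * c2 = 0) 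
    (hr1 : ((-1) * x) * a0 - ((-1) * y) * b0 + ((1) * z) * c0 + ((-1)) * c1 - ((1)) * b2 = 0)
    (hi1 : ((-1) * x) * b0 + ((-1) * y) * a0 + ((1) * z) * d0 + ((-1)) * d1 + ((1)) * a2 = 0) 
    (hr2 : ((1)) * a0 + ((-1) * z) * a1 + ((-1) * x) * c1 - ((1) * y) * d1 + ((1)) * c2 = 0)
    (hi2 : ((1)) * b0 + ((-1) * z) * b1 + ((-1) * x) * d1 + ((1) * y) * c1 + ((1)) * d2 = 0) 
    (hr3 : ((-1)) * c0 + ((-1) * x) * a1 - ((-1) * y) * b1 + ((1) * z) * c1 + ((1)) * a2 = 0)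
    (hi3 : ((-1)) * d0 + ((-1) * x) * b1 + ((-1) * y) * a1 + ((1) * z) * d1 + ((1)) * b2 = 0) 
    (hr4 : - ((-1)) * d0 + ((1)) * c1 + ((-1) * z) * a2 + ((-1) * x) * c2 - ((1) * y) * d2 = 0)
    (hi4 : ((-1)) * c0 + ((1)) * d1 + ((-1) * z) * b2 + ((-1) * x) * d2 + ((1) * y) * c2 = 0) 
    (hr5 : - ((1)) * b0 + ((1)) * a1 + ((-1) * x) * a2 - ((-1) * y) * b2 + ((1) * z) * c2 = 0)
    (hi5 : ((1)) * a0 + ((1)) * b1 + ((-1) * x) * b2 + ((-1) * y) * a2 + ((1) * z) * d2 = 0) :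
    (P x y z * a0 = 0 ∧ P x y z * b0 = 0) ∧ (P x y z * c0 = 0 ∧ P x y z * d0 = 0) ∧
    (P x y z * a1 = 0 ∧ P x y z * b1 = 0) ∧ (P x y z * c1 = 0 ∧ P x y z * d1 = 0) ∧
    (P x y z * a2 = 0 ∧ P x y z * b2 = 0) ∧ (P x y z * c2 = 0 ∧ P x y z * d2 = 0) :=
  ⟨⟨cert00 hr0 hi0 hr1 hi1 hr2 hi2 hr3 hi3 hr4 hi4 hr5 hi5, cert01 hr0 hi0 hr1 hi1 hr2 hi2 hr3 hi3 hr4 hi4 hr5 hi5⟩, ⟨cert10 hr0 hi0 hr1 hi1 hr2 hi2 hr3 hi3 hr4 hi4 hr5 hi5, cert11 hr0 hi0 hr1 hi1 hr2 hi2 hr3 hi3 hr4 hi4 hr5 hi5⟩,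
    ⟨cert20 hr0 hi0 hr1 hi1 hr2 hi2 hr3 hi3 hr4 hi4 hr5 hi5, cert21 hr0 hi0 hr1 hi1 hr2 hi2 hr3 hi3 hr4 hi4 hr5 hi5⟩, ⟨cert30 hr0 hi0 hr1 hi1 hr2 hi2 hr3 hi3 hr4 hi4 hr5 hi5, cert31 hr0 hi0 hr1 hi1 hr2 hi2 hr3 hi3 hr4 hi4 hr5 hi5⟩,
    ⟨cert40 hr0 hi0 hr1 hi1 hr2 hi2 hr3 hi3 hr4 hi4 hr5 hi5, cert41 hr0 hi0 hr1 hi1 hr2 hi2 hr3 hi3 hr4 hi4 hr5 hi5⟩, ⟨cert50 hr0 hi0 hr1 hi1 hr2 hi2 hr3 hi3 hr4 hi4 hr5 hi5, cert51 hr0 hi0 hr1 hi1 hr2 hi2 hr3 hi3 hr4 hi4 hr5 hi5⟩⟩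


end Pool.Agent.R255.CliffCert
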