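import Mathlib

/-!
# Heavy-ball cycles: definitions and the pattern obstruction
-/

namespace Pool.Agent.R255.HB

open scoped InnerProductSpace
open Set

section Defs

variable {E : Type*} [NormedAddCommGroup E] [InnerProductSpace ℝ E] [CompleteSpace E]

/-- The class `F_{μ,L}(E)`: differentiable, `μ`-strongly convex, `L`-Lipschitz gradient. -/
def InF (μ L : ℝ) (f : E → ℝ) : Prop :=
  Differentiable ℝ f ∧ StrongConvexOn univ μ f ∧
    ∀ x y, ‖gradient f x - gradient f y‖ ≤ L * ‖x - y‖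

/-- `x = (x_0, …, x_{K-1})` (indices mod `K`), not all equal, is a cycle of length `K` of the
heavy-ball method with step size `γ` and momentum `β` on `f`. -/
def IsCycle (K : ℕ) (γ β : ℝ) (f : E → ℝ) (x : ZMod K → E) : Prop :=
  (∃ i j, x i ≠ x j) ∧
    ∀ i : ZMod K, x (i + 1) = x i - γ • gradient f (x i) + β • (x i - x (i - 1))

end Defs

/-- The rank function of the pattern: `0, 1, 3, 5, …, 4, 2`. -/
def rank (K j : ℕ) : ℕ := if j = 0 then 0 else if j ≤ K / 2 then 2 * j - 1 else 2 * (K - j)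

/-- The one-dimensional tuple `x` has the pattern: `x_i ≤ x_j` whenever `rank i < rank j`. -/
def HasPattern (K : ℕ) (x : ZMod K → ℝ) : Prop :=
  ∀ i j : ZMod K, rank K i.val < rank K j.val → x i ≤ x j

theorem strong_mono {μ L : ℝ} {f : ℝ → ℝ} (hf : InF μ L f) {a b : ℝ} (hab : a ≤ b) :
    μ * (b - a) ≤ gradient f b - gradient f a := by
  obtain ⟨hd, hs, -⟩ := hf
  rw [strongConvexOn_iff_convex] at hs
  have hdiff : Differentiable ℝ fun x : ℝ => f x - μ / 2 * ‖x‖ ^ 2 := by
    simp only [Real.norm_eq_abs, sq_abs]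
    fun_prop
  have hm := hs.monotoneOn_deriv (fun x _ => hdiff x) (mem_univ a) (mem_univ b) hab
  have hder : ∀ x : ℝ, deriv (fun x : ℝ => f x - μ / 2 * ‖x‖ ^ 2) x = deriv f x - μ * x := by
    intro x
    simp only [Real.norm_eq_abs, sq_abs]
    rw [deriv_fun_sub (hd x) (by fun_prop)]
    have : deriv (fun x : ℝ => μ / 2 * x ^ 2) x = μ * x := by
      rw [deriv_const_mul _ (by fun_prop)]
      simp
      ring
    rw [this]
  rw [hder, hder] at hm
  rw [gradient_eq_deriv', gradient_eq_deriv']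
  linarith

/-- The obstruction: if `γ μ > 1 + 2 β` and `β < 1`, no cycle of any length `K ≥ 3` has the
pattern. -/
theorem no_pattern {K : ℕ} (hK : 3 ≤ K) {μ L γ β : ℝ} (hγ : 0 < γ) (hβ : β < 1)
    (hs : 1 + 2 * β < γ * μ) {f : ℝ → ℝ} (hf : InF μ L f) {x : ZMod K → ℝ}
    (hc : IsCycle K γ β f x) (hp : HasPattern K x) : False := by
  obtain ⟨n, rfl⟩ : ∃ n, K = n + 3 := ⟨K - 3, by omega⟩
  have v0 : (0 : ZMod (n + 3)).val = 0 := ZMod.val_zero
  have v1 : (1 : ZMod (n + 3)).val = 1 := by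
    have : ((1 : ℕ) : ZMod (n + 3)).val = 1 := ZMod.val_cast_of_lt (by omega)
    simpa using this
  have v2 : (2 : ZMod (n + 3)).val = 2 := by
    have : ((2 : ℕ) : ZMod (n + 3)).val = 2 := ZMod.val_cast_of_lt (by omega)
    simpa using this
  have vm : (-1 : ZMod (n + 3)).val = n + 2 := ZMod.val_neg_one (n + 2)
  have h01 : x 0 ≤ x 1 := hp 0 1 (by rw [v0, v1]; unfold rank; split_ifs <;> first | contradiction | omega)
  have h1m : x 1 ≤ x (-1) := hp 1 (-1) (by rw [v1, vm]; unfold rank; split_ifs <;> first | contradiction | omega)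
  have hm2 : x (-1) ≤ x 2 := by
    rcases Nat.eq_zero_or_pos n with hn | hn
    · subst hn
      have : (-1 : ZMod (0 + 3)) = 2 := by decide
      rw [this]
    · exact hp (-1) 2 (by rw [v2, vm]; unfold rank; split_ifs <;> first | contradiction | omega)
  have e0 := hc.2 0
  have e1 := hc.2 1
  rw [zero_add, zero_sub] at e0
  have e12 : (1 : ZMod (n + 3)) + 1 = 2 := by norm_num
  rw [e12, sub_self] at e1
  simp only [smul_eq_mul] at e0 e1
  have hm := strong_mono hf h01
  have hm' : γ * μ * (x 1 - x 0) ≤ γ * gradient f (x 1) - γ * gradient f (x 0) := by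
    have := mul_le_mul_of_nonneg_left hm hγ.le
    linarith
  set a := x 1 - x 0 with ha
  set p := x (-1) - x 1 with hp'
  set q := x 2 - x (-1) with hq
  have ha0 : 0 ≤ a := by linarith
  have hp0 : 0 ≤ p := by linarith
  have hq0 : 0 ≤ q := by linarith
  have key : (γ * μ - (1 + 2 * β)) * a + (1 - β) * p + q ≤ 0 := by
    have : γ * gradient f (x 1) - γ * gradient f (x 0) =
        (1 + 2 * β) * a - (1 - β) * p - q := by
      rw [ha, hp', hq]; linarith
    rw [this] at hm'
    linarith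
  have t1 : 0 ≤ (γ * μ - (1 + 2 * β)) * a := mul_nonneg (by linarith) ha0
  have t2 : 0 ≤ (1 - β) * p := mul_nonneg (by linarith) hp0
  have qa : (γ * μ - (1 + 2 * β)) * a = 0 := by linarith
  have qp : (1 - β) * p = 0 := by linarith
  have qq : q = 0 := by linarith
  have a0 : a = 0 := by
    rcases mul_eq_zero.mp qa with h | h
    · linarith
    · exact h
  have p0 : p = 0 := by
    rcases mul_eq_zero.mp qp with h | h
    · linarith
    · exact h
  have x1 : x 1 = x 0 := by linarith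
  have xm : x (-1) = x 0 := by linarith
  have g0 : γ * gradient f (x 0) = 0 := by
    rw [x1, xm] at e0
    linarith
  have all : ∀ m : ℕ, x (m : ZMod (n + 3)) = x 0 ∧ x ((m + 1 : ℕ) : ZMod (n + 3)) = x 0 := by
    intro m
    induction m with
    | zero => exact ⟨by simp, by simpa using x1⟩
    | succ m ih =>
      refine ⟨ih.2, ?_⟩
      have e := hc.2 ((m + 1 : ℕ) : ZMod (n + 3))
      have e' : ((m + 1 : ℕ) : ZMod (n + 3)) - 1 = (m : ZMod (n + 3)) := by push_cast; ring
      rw [e', ih.1, ih.2] at e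
      have e'' : ((m + 1 + 1 : ℕ) : ZMod (n + 3)) = ((m + 1 : ℕ) : ZMod (n + 3)) + 1 := by
        push_cast; ring
      rw [e'', e]
      simp only [smul_eq_mul]
      rw [g0]; ring
  obtain ⟨i, j, hij⟩ := hc.1
  apply hij
  have hi := (all i.val).1
  have hj := (all j.val).1
  rw [ZMod.natCast_zmod_val] at hi hj
  rw [hi, hj]

section Quadratic

variable {E : Type*} [NormedAddCommGroup E] [InnerProductSpace ℝ E] [CompleteSpace E]

theorem hasGradientAt_quad (μ : ℝ) (x : E) :
    HasGradientAt (fun y : E => μ / 2 * ‖y‖ ^ 2) (μ • x) x := by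
  rw [hasGradientAt_iff_hasFDerivAt]
  have h := ((hasStrictFDerivAt_norm_sq x).hasFDerivAt).const_mul (μ / 2)
  have e : (InnerProductSpace.toDual ℝ E) (μ • x) = (μ / 2) • (2 • innerSL ℝ x) := by
    ext y
    simp
    ring
  rw [e]
  exact h

theorem gradient_quad (μ : ℝ) (x : E) :
    gradient (fun y : E => μ / 2 * ‖y‖ ^ 2) x = μ • x := (hasGradientAt_quad μ x).gradient

theorem inF_quad {μ L : ℝ} (hμ : 0 < μ) (hL : μ ≤ L) :
    InF μ L (fun y : E => μ / 2 * ‖y‖ ^ 2) := by
  refine ⟨fun x => (hasGradientAt_quad μ x).differentiableAt, ?_, ?_⟩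
  · rw [strongConvexOn_iff_convex]
    simp only [sub_self]
    exact convexOn_const _ convex_univ
  · intro x y
    rw [gradient_quad, gradient_quad, ← smul_sub, norm_smul, Real.norm_eq_abs, abs_of_pos hμ]
    exact mul_le_mul_of_nonneg_right hL (norm_nonneg _)

/-- The alternating 4-cycle. -/
theorem cycle_four {μ β : ℝ} (hμ : 0 < μ) (e : E) (he : e ≠ 0) :
    IsCycle 4 (2 * (1 + β) / μ) β (fun y : E => μ / 2 * ‖y‖ ^ 2)
      (fun i : ZMod 4 => if i = 0 ∨ i = 2 then -e else e) := by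
  constructor
  · refine ⟨0, 1, ?_⟩
    have h1 : ¬ ((1 : ZMod 4) = 0 ∨ (1 : ZMod 4) = 2) := by decide
    simp only [true_or, if_true, h1, if_false]
    intro h
    apply he
    have h2 : (2 : ℝ) • e = 0 := by
      rw [two_smul]
      nth_rewrite 1 [← h]
      simp
    exact (smul_eq_zero.mp h2).resolve_left two_ne_zero
  · intro i
    have hne : μ ≠ 0 := hμ.ne'
    have c1 : (2 * (1 + β) / μ) * μ = 2 * (1 + β) := by field_simp
    simp only [gradient_quad, smul_smul, c1]
    have key : ∀ i : ZMod 4, (i = 0 ∨ i = 2) ∨ (i = 1 ∨ i = 3) := by decide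
    rcases key i with h | h
    · have h1 : ¬ (i + 1 = 0 ∨ i + 1 = 2) := by revert i; decide
      have h2 : ¬ (i - 1 = 0 ∨ i - 1 = 2) := by revert i; decide
      simp only [h, h1, h2, if_true, if_false]
      module
    · have h0 : ¬ (i = 0 ∨ i = 2) := by revert i; decide
      have h1 : (i + 1 = 0 ∨ i + 1 = 2) := by revert i; decide
      have h2 : (i - 1 = 0 ∨ i - 1 = 2) := by revert i; decide
      simp only [h0, h1, h2, if_true, if_false]
      module

end Quadratic

/-! ### A 5-cycle in the stable region -/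

/-- The positive part of `x - c`. -/
def pp (c x : ℝ) : ℝ := max (x - c) 0

theorem hasDerivAt_pp_sq (c x : ℝ) : HasDerivAt (fun y => (pp c y) ^ 2) (2 * pp c x) x := by
  unfold pp
  rcases lt_trichotomy x c with h | h | h
  · have h1 : (fun y => (max (y - c) 0) ^ 2) =ᶠ[nhds x] fun _ => (0 : ℝ) := by
      filter_upwards [Iio_mem_nhds h] with y hy
      rw [max_eq_right (by linarith [mem_Iio.mp hy])]; ring
    rw [max_eq_right (by linarith), mul_zero]
    exact (hasDerivAt_const x (0 : ℝ)).congr_of_eventuallyEq h1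
  · subst h
    rw [sub_self, max_self, mul_zero]
    rw [hasDerivAt_iff_isLittleO]
    simp only [sub_self, max_self, smul_zero, sub_zero]
    rw [Asymptotics.isLittleO_iff]
    intro ε hε
    filter_upwards [Metric.ball_mem_nhds x hε] with y hy
    rw [Metric.mem_ball, Real.dist_eq] at hy
    rw [Real.norm_eq_abs, Real.norm_eq_abs]
    have h1 : |max (y - x) 0 ^ 2 - 0 ^ 2| ≤ |y - x| ^ 2 := by
      rw [zero_pow two_ne_zero, sub_zero, abs_pow]
      apply pow_le_pow_left₀ (abs_nonneg _)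
      rw [abs_of_nonneg (le_max_right _ _)]
      exact max_le (le_abs_self _) (abs_nonneg _)
    calc _ ≤ |y - x| ^ 2 := h1
      _ = |y - x| * |y - x| := by ring
      _ ≤ ε * |y - x| := mul_le_mul_of_nonneg_right hy.le (abs_nonneg _)
  · have h1 : (fun y => (max (y - c) 0) ^ 2) =ᶠ[nhds x] fun y => (y - c) ^ 2 := by
      filter_upwards [Ioi_mem_nhds h] with y hy
      rw [max_eq_left (by linarith [mem_Ioi.mp hy])]
    rw [max_eq_left (by linarith)]
    have h2 : HasDerivAt (fun y : ℝ => (y - c) ^ 2) (2 * (x - c)) x := by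
      have h3 := ((hasDerivAt_id x).sub_const c).fun_pow 2
      simpa using h3
    exact h2.congr_of_eventuallyEq h1

/-- The piecewise linear gradient. -/
noncomputable def phi (x : ℝ) : ℝ :=
  -66 / 5 + 7 / 2 * x + 2 / 15 * pp 1 x - 8 / 15 * pp 4 x + 7 / 20 * pp 6 x

/-- The function with derivative `phi`. -/
noncomputable def F (x : ℝ) : ℝ :=
  -66 / 5 * x + 7 / 4 * x ^ 2 + 1 / 15 * (pp 1 x) ^ 2 - 4 / 15 * (pp 4 x) ^ 2 +
    7 / 40 * (pp 6 x) ^ 2

theorem hasDerivAt_F (x : ℝ) : HasDerivAt F (phi x) x := by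
  have h1 := (hasDerivAt_pp_sq 1 x).const_mul (1 / 15)
  have h4 := (hasDerivAt_pp_sq 4 x).const_mul (4 / 15)
  have h6 := (hasDerivAt_pp_sq 6 x).const_mul (7 / 40)
  have h0 := (hasDerivAt_id x).const_mul (-66 / 5)
  have h2 := (hasDerivAt_pow 2 x).const_mul (7 / 4)
  have h := (((h0.add h2).add h1).sub h4).add h6
  have e : phi x = -66 / 5 * 1 + 7 / 4 * (((2 : ℕ) : ℝ) * x ^ (2 - 1)) + 1 / 15 * (2 * pp 1 x) -
      4 / 15 * (2 * pp 4 x) + 7 / 40 * (2 * pp 6 x) := by
    unfold phi; norm_num; ring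
  rw [e]
  exact h

theorem pp_mono {c x y : ℝ} (h : x ≤ y) : pp c x ≤ pp c y := by
  unfold pp; exact max_le_max (by linarith) le_rfl

theorem pp_diff {c d x y : ℝ} (hcd : c ≤ d) (h : x ≤ y) :
    pp d y - pp d x ≤ pp c y - pp c x := by
  unfold pp
  rcases max_cases (y - d) 0 with h1 | h1 <;> rcases max_cases (x - d) 0 with h2 | h2 <;>
    rcases max_cases (y - c) 0 with h3 | h3 <;> rcases max_cases (x - c) 0 with h4 | h4 <;>
    rw [h1.1, h2.1, h3.1, h4.1] <;> linarith [h1.2, h2.2, h3.2, h4.2]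

theorem pp_diff_le {c x y : ℝ} (h : x ≤ y) : pp c y - pp c x ≤ y - x := by
  unfold pp
  rcases max_cases (y - c) 0 with h1 | h1 <;> rcases max_cases (x - c) 0 with h2 | h2 <;>
    rw [h1.1, h2.1] <;> linarith [h1.2, h2.2]

theorem phi_bounds {x y : ℝ} (h : x ≤ y) :
    3 * (y - x) ≤ phi y - phi x ∧ phi y - phi x ≤ 37 / 10 * (y - x) := by
  have a1 := pp_diff_le (c := 1) h
  have a2 := pp_diff (c := 1) (d := 4) (by norm_num) h
  have a3 := pp_diff (c := 4) (d := 6) (by norm_num) h
  have a4 := pp_mono (c := 6) h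
  unfold phi
  constructor <;> linarith

theorem inF_F : InF 3 (37 / 10) F := by
  have hg : ∀ x, gradient F x = phi x := fun x => by
    rw [gradient_eq_deriv', (hasDerivAt_F x).deriv]
  refine ⟨fun x => (hasDerivAt_F x).differentiableAt, ?_, ?_⟩
  · rw [strongConvexOn_iff_convex]
    have hd : ∀ x : ℝ, HasDerivAt (fun x : ℝ => F x - 3 / 2 * ‖x‖ ^ 2) (phi x - 3 * x) x := by
      intro x
      simp only [Real.norm_eq_abs, sq_abs]
      have h2 := (hasDerivAt_pow 2 x).const_mul (3 / 2)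
      have h := (hasDerivAt_F x).sub h2
      have e : phi x - 3 * x = phi x - 3 / 2 * (((2 : ℕ) : ℝ) * x ^ (2 - 1)) := by
        norm_num; ring
      rw [e]; exact h
    apply Monotone.convexOn_univ_of_deriv
    · exact fun x => (hd x).differentiableAt
    · intro x y hxy
      rw [(hd x).deriv, (hd y).deriv]
      have := (phi_bounds hxy).1
      linarith
  · intro x y
    rw [hg, hg, Real.norm_eq_abs, Real.norm_eq_abs]
    rcases le_total x y with h | h
    · have := phi_bounds h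
      rw [abs_sub_comm, abs_sub_comm x y, abs_of_nonneg (by linarith : (0 : ℝ) ≤ y - x),
        abs_of_nonneg (by linarith : (0 : ℝ) ≤ phi y - phi x)]
      exact this.2
    · have := phi_bounds h
      rw [abs_of_nonneg (by linarith : (0 : ℝ) ≤ x - y),
        abs_of_nonneg (by linarith : (0 : ℝ) ≤ phi x - phi y)]
      exact this.2

/-- The 5-cycle `(0, 6, 4, 1, 8)`. -/
def x5 : ZMod 5 → ℝ := ![0, 6, 4, 1, 8]

theorem cycle_five : IsCycle 5 1 (9 / 10) F x5 := by
  have hg : ∀ x, gradient F x = phi x := fun x => by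
    rw [gradient_eq_deriv', (hasDerivAt_F x).deriv]
  constructor
  · exact ⟨0, 1, by simp [x5]⟩
  · have p0 : phi 0 = -66 / 5 := by unfold phi pp; norm_num
    have p1 : phi 1 = -97 / 10 := by unfold phi pp; norm_num
    have p4 : phi 4 = 6 / 5 := by unfold phi pp; norm_num
    have p6 : phi 6 = 37 / 5 := by unfold phi pp; norm_num
    have p8 : phi 8 = 143 / 10 := by unfold phi pp; norm_num
    have v0 : x5 0 = 0 := rfl
    have v1 : x5 1 = 6 := rfl
    have v2 : x5 2 = 4 := rfl
    have v3 : x5 3 = 1 := rfl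
    have v4 : x5 4 = 8 := rfl
    intro i
    have key : ∀ i : ZMod 5, i = 0 ∨ i = 1 ∨ i = 2 ∨ i = 3 ∨ i = 4 := by decide
    rcases key i with h | h | h | h | h <;> subst h
    · have e1 : (0 : ZMod 5) + 1 = 1 := by decide
      have e2 : (0 : ZMod 5) - 1 = 4 := by decide
      rw [e1, e2, v0, v1, v4, hg, p0]; norm_num
    · have e1 : (1 : ZMod 5) + 1 = 2 := by decide
      have e2 : (1 : ZMod 5) - 1 = 0 := by decide
      rw [e1, e2, v0, v1, v2, hg, p6]; norm_num
    · have e1 : (2 : ZMod 5) + 1 = 3 := by decide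
      have e2 : (2 : ZMod 5) - 1 = 1 := by decide
      rw [e1, e2, v1, v2, v3, hg, p4]; norm_num
    · have e1 : (3 : ZMod 5) + 1 = 4 := by decide
      have e2 : (3 : ZMod 5) - 1 = 2 := by decide
      rw [e1, e2, v2, v3, v4, hg, p1]; norm_num
    · have e1 : (4 : ZMod 5) + 1 = 0 := by decide
      have e2 : (4 : ZMod 5) - 1 = 3 := by decide
      rw [e1, e2, v3, v4, v0, hg, p8]; norm_num

section Transfer

variable {E E' : Type*} [NormedAddCommGroup E] [InnerProductSpace ℝ E] [CompleteSpace E]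
  [NormedAddCommGroup E'] [InnerProductSpace ℝ E'] [CompleteSpace E']

theorem gradient_comp (φ : E ≃ₗᵢ[ℝ] E') {f : E' → ℝ} (hf : Differentiable ℝ f) (v : E) :
    HasGradientAt (fun w => f (φ w)) (φ.symm (gradient f (φ v))) v := by
  rw [hasGradientAt_iff_hasFDerivAt]
  have h1 : HasFDerivAt f (InnerProductSpace.toDual ℝ E' (gradient f (φ v))) (φ v) :=
    ((hf (φ v)).hasGradientAt).hasFDerivAt
  have h2 := h1.comp v (φ.toContinuousLinearEquiv.hasFDerivAt (x := v))
  have e : (InnerProductSpace.toDual ℝ E) (φ.symm (gradient f (φ v))) =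
      (InnerProductSpace.toDual ℝ E' (gradient f (φ v))).comp
        (φ.toContinuousLinearEquiv : E →L[ℝ] E') := by
    ext w
    simp only [InnerProductSpace.toDual_apply_apply, ContinuousLinearMap.comp_apply]
    rw [← φ.inner_map_map]
    simp
  rw [e]
  exact h2

theorem inF_comp (φ : E ≃ₗᵢ[ℝ] E') {μ L : ℝ} {f : E' → ℝ} (hf : InF μ L f) :
    InF μ L (fun w => f (φ w)) := by
  refine ⟨fun v => (gradient_comp φ hf.1 v).differentiableAt, ?_, ?_⟩
  · have h := hf.2.1
    rw [strongConvexOn_iff_convex] at h ⊢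
    have h2 := h.comp_linearMap (φ.toLinearEquiv : E →ₗ[ℝ] E')
    simpa [Function.comp_def] using h2
  · intro x y
    rw [(gradient_comp φ hf.1 x).gradient, (gradient_comp φ hf.1 y).gradient, ← map_sub,
      φ.symm.norm_map]
    have h := hf.2.2 (φ x) (φ y)
    rwa [← map_sub, φ.norm_map] at h

theorem cycle_comp (φ : E ≃ₗᵢ[ℝ] E') {K : ℕ} {γ β : ℝ} {f : E' → ℝ} (hf : Differentiable ℝ f)
    {x : ZMod K → E'} (hx : IsCycle K γ β f x) :
    IsCycle K γ β (fun w => f (φ w)) (fun i => φ.symm (x i)) := by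
  constructor
  · obtain ⟨i, j, h⟩ := hx.1
    exact ⟨i, j, fun e => h (φ.symm.injective e)⟩
  · intro i
    rw [(gradient_comp φ hf _).gradient, φ.apply_symm_apply]
    beta_reduce
    rw [hx.2 i]
    simp only [map_add, map_sub, map_smul]

end Transfer

/-- The set `Ω` of tunings `(γ, β)` for which the heavy-ball method has a cycle of some length
`K ≥ 3` on `F_{μ,L}(ℝ^d)` for some `d ≥ 1`. -/
def Omega (μ L : ℝ) : Set (ℝ × ℝ) :=
  {p | ∃ K : ℕ, 3 ≤ K ∧ ∃ d : ℕ, 1 ≤ d ∧ ∃ f : EuclideanSpace ℝ (Fin d) → ℝ, InF μ L f ∧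
    ∃ x : ZMod K → EuclideanSpace ℝ (Fin d), IsCycle K p.1 p.2 f x}

theorem mem_Omega_four {μ L β : ℝ} (hμ : 0 < μ) (hL : μ ≤ L) :
    (2 * (1 + β) / μ, β) ∈ Omega μ L := by
  refine ⟨4, by norm_num, 1, le_rfl, _, inF_quad hμ hL, _,
    cycle_four hμ (EuclideanSpace.single 0 1) ?_⟩
  intro h
  have := congrArg (fun v => v 0) h
  simp at this

theorem mem_Omega_five : ((1 : ℝ), (9 / 10 : ℝ)) ∈ Omega 3 (37 / 10) :=
  ⟨5, by norm_num, 1, le_rfl, _,
    inF_comp (OrthonormalBasis.singleton (Fin 1) ℝ).repr.symm inF_F, _,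
    cycle_comp (OrthonormalBasis.singleton (Fin 1) ℝ).repr.symm inF_F.1 cycle_five⟩

end Pool.Agent.R255.HB
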