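import Pool.Agent.TH133.PW.CasB
import Pool.Agent.TH133.PW.Kun

/-!
# Operators with rational supertraces and the projector onto the even part
-/

set_option autoImplicit false

open Polynomial TensorProduct

namespace Pool.Agent.R255.NcLin

open Pool.Agent.TH133.PW

universe w

section Desc

variable {K : Type*} [Field K] [CharZero K] {V : Type*} [AddCommGroup V] [Module K V]
  [Module.Finite K V]

/-- Descent of the projector from `K` to `ℚ`. -/
theorem mem_of_span {A : Set (Module.End K V)} (h1 : (1 : Module.End K V) ∈ A)
    (hadd : ∀ x ∈ A, ∀ y ∈ A, x + y ∈ A) (hsmul : ∀ q : ℚ, ∀ x ∈ A, ((q : K) • x) ∈ A)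
    (hmul : ∀ x ∈ A, ∀ y ∈ A, x * y ∈ A) {p : Module.End K V} (hp : p * p = p)
    (hpc : ∀ x ∈ A, p * x = x * p)
    (ht : ∀ x ∈ A, ∃ q : ℚ, LinearMap.trace K V (p * x) -
      LinearMap.trace K V ((1 - p) * x) = (q : K)) (hspan : p ∈ Submodule.span K A) : p ∈ A := by
  have hm : ∀ x ∈ Submodule.span K A, ∀ y ∈ Submodule.span K A, x * y ∈ Submodule.span K A := by
    intro x hx y hy
    induction hx using Submodule.span_induction with
    | mem x hx =>
      induction hy using Submodule.span_induction with
      | mem y hy => exact Submodule.subset_span (hmul x hx y hy)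
      | zero => rw [mul_zero]; exact Submodule.zero_mem _
      | add y z _ _ h1 h2 => rw [mul_add]; exact Submodule.add_mem _ h1 h2
      | smul a y _ h1 => rw [mul_smul_comm]; exact Submodule.smul_mem _ a h1
    | zero => rw [zero_mul]; exact Submodule.zero_mem _
    | add x z _ _ h1 h2 => rw [add_mul]; exact Submodule.add_mem _ h1 h2
    | smul a x _ h1 => rw [smul_mul_assoc]; exact Submodule.smul_mem _ a h1
  have hc : ∀ x ∈ Submodule.span K A, p * x = x * p := by
    intro x hx
    induction hx using Submodule.span_induction with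
    | mem x hx => exact hpc x hx
    | zero => rw [mul_zero, zero_mul]
    | add x z _ _ h1 h2 => rw [mul_add, add_mul, h1, h2]
    | smul a x _ h1 => rw [mul_smul_comm, smul_mul_assoc, h1]
  let S : Subalgebra K (Module.End K V) := (Submodule.span K A).toSubalgebra
    (Submodule.subset_span h1) (fun x y hx hy => hm x hx y hy)
  have hS : ∀ x, x ∈ S ↔ x ∈ Submodule.span K A := fun x => Iff.rfl
  let B : Set S := {x | (x : Module.End K V) ∈ A}
  have hB : ∀ x : S, x ∈ B ↔ (x : Module.End K V) ∈ A := fun _ => Iff.rfl
  have hfin : Module.Finite K S := by infer_instance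
  have key : (⟨p, (hS p).2 hspan⟩ : S) ∈ B := by
    apply central_idem_mem (K := K) (V := V) (A := B) ((hB _).2 h1)
      (fun x hx y hy => (hB _).2 (hadd _ hx _ hy)) (fun q x hx => (hB _).2 (hsmul q _ hx))
      (fun x hx y hy => (hB _).2 (hmul _ hx _ hy)) ?_ S.val Subtype.val_injective
    · exact Subtype.ext hp
    · exact fun x => Subtype.ext (hc x.1 x.2)
    · intro x hx
      obtain ⟨q, hq⟩ := ht x.1 hx
      exact ⟨q, hq⟩
    · rw [eq_top_iff]
      rintro ⟨y, hy⟩ -
      have key : ∀ y (hy : y ∈ Submodule.span K A),
          (⟨y, (hS y).2 hy⟩ : S) ∈ Submodule.span K B := by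
        intro y hy
        induction hy using Submodule.span_induction with
        | mem y hy => exact Submodule.subset_span ((hB _).2 hy)
        | zero => exact Submodule.zero_mem _
        | add x y _ _ h1 h2 => exact Submodule.add_mem _ h1 h2
        | smul a x _ h1 => exact Submodule.smul_mem _ a h1
      exact key y hy
  exact key

end Desc

section Ext

variable {K : Type w} [Field K] {V : Type w} [AddCommGroup V] [Module K V]

/-- The extension of an operator to a field extension. -/
noncomputable def bc (L : Type w) [Field L] [Algebra K L] (f : Module.End K V) :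
    Module.End L (L ⊗[K] V) := Module.End.baseChangeHom K L V f

lemma bc_mul (L : Type w) [Field L] [Algebra K L] (f g : Module.End K V) :
    bc L (f * g) = bc L f * bc L g := map_mul (Module.End.baseChangeHom K L V) f g

lemma bc_one (L : Type w) [Field L] [Algebra K L] : bc L (1 : Module.End K V) = 1 :=
  map_one (Module.End.baseChangeHom K L V)

lemma bc_tmul (L : Type w) [Field L] [Algebra K L] (f : Module.End K V) (l : L) (v : V) :
    bc L f (l ⊗ₜ v) = l ⊗ₜ f v := rfl

/-- The projector is a polynomial in `T`. -/
lemma exists_poly {R : Type*} [Ring R] {L : Type w} [Field L] [Algebra L R] {p T : R}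
    {P Q : L[X]} (hPQ : IsCoprime P Q) (h1 : aeval T P * p = 0) (h2 : aeval T Q * (1 - p) = 0) :
    ∃ g : L[X], aeval T g = p := by
  obtain ⟨a, b, hab⟩ := hPQ
  refine ⟨b * Q, ?_⟩
  have e1 : aeval T (b * Q) * (1 - p) = 0 := by
    rw [map_mul, mul_assoc, h2, mul_zero]
  have e2 : aeval T (b * Q) * p = p := by
    have e3 : b * Q = 1 - a * P := by rw [← hab]; ring
    rw [e3, map_sub, map_one, map_mul, sub_mul, mul_assoc, h1, mul_zero, sub_zero, one_mul]
  rw [mul_sub, mul_one, e2, sub_eq_zero] at e1
  exact e1

/-- Descent of membership in a span along a field extension. -/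
lemma mem_span_of_bc {L : Type w} [Field L] [Algebra K L] {A : Set (Module.End K V)}
    {p : Module.End K V} (h : bc L p ∈ Submodule.span L (bc L '' A)) :
    p ∈ Submodule.span K A := by
  obtain ⟨r, hr⟩ := LinearMap.exists_leftInverse_of_injective (Algebra.linearMap K L)
    (LinearMap.ker_eq_bot.2 (algebraMap K L).injective)
  have hr1 : r 1 = 1 := by
    have := LinearMap.congr_fun hr 1
    simpa using this
  -- the retraction of operators
  let ρ : L ⊗[K] V →ₗ[K] V := (TensorProduct.lid K V).toLinearMap ∘ₗ r.rTensor V
  have hρ : ∀ (l : L) (v : V), ρ (l ⊗ₜ v) = r l • v := fun l v => by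
    simp [ρ]
  let Φ : Module.End L (L ⊗[K] V) → Module.End K V := fun T =>
    { toFun := fun v => ρ (T (1 ⊗ₜ v))
      map_add' := fun v w => by rw [TensorProduct.tmul_add, map_add, map_add]
      map_smul' := fun c v => by
        rw [TensorProduct.tmul_smul, RingHom.id_apply]
        have : (c • (1 : L) ⊗ₜ[K] v : L ⊗[K] V) = (algebraMap K L c) • ((1 : L) ⊗ₜ[K] v) := by
          rw [algebraMap_smul]
        rw [this, map_smul, algebraMap_smul, map_smul] }
  have hΦ : ∀ T v, Φ T v = ρ (T (1 ⊗ₜ v)) := fun _ _ => rfl
  have hΦadd : ∀ S T, Φ (S + T) = Φ S + Φ T := fun S T => by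
    apply LinearMap.ext; intro v
    rw [LinearMap.add_apply, hΦ, hΦ, hΦ, LinearMap.add_apply, map_add]
  have hΦb : ∀ (l : L) (f : Module.End K V), Φ (l • bc L f) = r l • f := fun l f => by
    apply LinearMap.ext; intro v
    rw [hΦ, LinearMap.smul_apply, bc_tmul, TensorProduct.smul_tmul', hρ,
      LinearMap.smul_apply, smul_eq_mul, mul_one]
  have key : ∀ T ∈ Submodule.span L (bc L '' A), ∀ l : L,
      Φ (l • T) ∈ Submodule.span K A := by
    intro T hT
    induction hT using Submodule.span_induction with
    | mem T hT =>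
      obtain ⟨x, hx, rfl⟩ := hT
      intro l
      rw [hΦb]
      exact Submodule.smul_mem _ _ (Submodule.subset_span hx)
    | zero =>
      intro l
      have : Φ (l • (0 : Module.End L (L ⊗[K] V))) = 0 := by
        apply LinearMap.ext; intro v
        rw [hΦ, smul_zero, LinearMap.zero_apply, map_zero, LinearMap.zero_apply]
      rw [this]; exact Submodule.zero_mem _
    | add S T _ _ h1 h2 =>
      intro l
      rw [smul_add, hΦadd]
      exact Submodule.add_mem _ (h1 l) (h2 l)
    | smul c T _ h1 =>
      intro l
      rw [smul_smul]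
      exact h1 _
  have := key _ h 1
  rw [hΦb, hr1, one_smul] at this
  exact this

/-- The span over the extension of an algebra of operators is closed under polynomials. -/
lemma aeval_mem_span {L : Type w} [Field L] [Algebra K L] {A : Set (Module.End K V)}
    (h1 : (1 : Module.End K V) ∈ A) (hmul : ∀ x ∈ A, ∀ y ∈ A, x * y ∈ A)
    {T : Module.End L (L ⊗[K] V)} (hT : T ∈ Submodule.span L (bc L '' A)) (g : L[X]) :
    aeval T g ∈ Submodule.span L (bc L '' A) := by
  have hm : ∀ x ∈ Submodule.span L (bc L '' A), ∀ y ∈ Submodule.span L (bc L '' A),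
      x * y ∈ Submodule.span L (bc L '' A) := by
    intro x hx y hy
    induction hx using Submodule.span_induction with
    | mem x hx =>
      induction hy using Submodule.span_induction with
      | mem y hy =>
        obtain ⟨x, hx, rfl⟩ := hx
        obtain ⟨y, hy, rfl⟩ := hy
        exact Submodule.subset_span ⟨x * y, hmul x hx y hy, bc_mul L x y⟩
      | zero => rw [mul_zero]; exact Submodule.zero_mem _
      | add y z _ _ h1 h2 => rw [mul_add]; exact Submodule.add_mem _ h1 h2
      | smul a y _ h1 => rw [mul_smul_comm]; exact Submodule.smul_mem _ a h1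
    | zero => rw [zero_mul]; exact Submodule.zero_mem _
    | add x z _ _ h1 h2 => rw [add_mul]; exact Submodule.add_mem _ h1 h2
    | smul a x _ h1 => rw [smul_mul_assoc]; exact Submodule.smul_mem _ a h1
  have h1W : (1 : Module.End L (L ⊗[K] V)) ∈ Submodule.span L (bc L '' A) :=
    Submodule.subset_span ⟨1, h1, bc_one L⟩
  have hpow : ∀ n : ℕ, T ^ n ∈ Submodule.span L (bc L '' A) := by
    intro n
    induction n with
    | zero => rw [pow_zero]; exact h1W
    | succ n ih => rw [pow_succ]; exact hm _ ih _ hT
  rw [aeval_eq_sum_range]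
  exact Submodule.sum_mem _ (fun i _ => Submodule.smul_mem _ _ (hpow i))

end Ext

end Pool.Agent.R255.NcLin
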