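import Pool.Agent.R255.NcLin
import Pool.Agent.R484.NCb

/-!
# The sign conjecture and the eigenvalues of one noncommutative correspondence
-/

set_option autoImplicit false

open CategoryTheory Limits MonoidalCategory Polynomial TensorProduct
open Pool.Agent.Y112.SR Pool.Agent.Y112.KD Pool.Agent.R484.NC Pool.Agent.R255.NcLin

namespace Pool.Agent.R255.NcSep

universe v u w

/-- `T` has no common eigenvalue on the part where the involution `s` is `1` and on the part where it
is `-1`: there are coprime polynomials `P`, `Q` such that `P(T)` vanishes on the first part and `Q(T)`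
on the second. (In finite dimension this says that the characteristic polynomials of `T` on the two
parts have no common root in an algebraic closure.) -/
def NoCommonEigenvalue {F V : Type*} [Field F] [AddCommGroup V] [Module F V]
    (s T : Module.End F V) : Prop :=
  ∃ P Q : F[X], IsCoprime P Q ∧ (∀ y, s y = y → aeval T P y = 0) ∧
    (∀ y, s y = -y → aeval T Q y = 0)

section Forms

variable {K : Type w} [Field K] {V : Type w} [AddCommGroup V] [Module K V]

/-- The projector onto the even part. -/
noncomputable def evenProj (s : Module.End K V) : Module.End K V := (2 : K)⁻¹ • (1 + s)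

/-- The projector onto the even part is a `K`-linear combination of operators in `A`. -/
def CombinationOverK (s : Module.End K V) (A : Set (Module.End K V)) : Prop :=
  evenProj s ∈ Submodule.span K A

/-- The `L`-linear combinations of the extensions to `L` of the operators in `A`. -/
def spanOver (L : Type w) [Field L] [Algebra K L] (A : Set (Module.End K V)) :
    Submodule L (Module.End L (L ⊗[K] V)) := Submodule.span L (bc L '' A)

/-- The extension to `L` of the projector onto the even part is an `L`-linear combination of operators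
in `A`. -/
def CombinationOver (L : Type w) [Field L] [Algebra K L] (s : Module.End K V)
    (A : Set (Module.End K V)) : Prop := bc L (evenProj s) ∈ spanOver L A

/-- Some `L`-linear combination of operators in `A` has no common eigenvalue on the even and the odd
part. -/
def SeparatedOver (L : Type w) [Field L] [Algebra K L] (s : Module.End K V)
    (A : Set (Module.End K V)) : Prop := ∃ T ∈ spanOver L A, NoCommonEigenvalue (bc L s) T

/-- For some extension field `L` of `K` the projector onto the even part is, after extension to `L`,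
an `L`-linear combination of operators in `A`. -/
def CombinationOverSomeField (s : Module.End K V) (A : Set (Module.End K V)) : Prop :=
  ∃ (L : Type w) (_ : Field L) (_ : Algebra K L), CombinationOver L s A

/-- For some extension field `L` of `K` some `L`-linear combination of operators in `A` has no
common eigenvalue on the even and the odd part. -/
def SeparatedOverSomeField (s : Module.End K V) (A : Set (Module.End K V)) : Prop :=
  ∃ (L : Type w) (_ : Field L) (_ : Algebra K L), SeparatedOver L s A

/-- For each single even `y` and each single odd `y'` some `K`-linear combination of operators in `A`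
fixes `y` and kills `y'`. -/
def SeparatesPairs (s : Module.End K V) (A : Set (Module.End K V)) : Prop :=
  ∀ y y' : V, s y = y → s y' = -y' → ∃ T ∈ Submodule.span K A, T y = y ∧ T y' = 0

/-- Each subspace which is stable under the operators in `A` is stable under `s`. -/
def StableSubspacesGraded (s : Module.End K V) (A : Set (Module.End K V)) : Prop :=
  ∀ U : Submodule K V, (∀ T ∈ A, ∀ y ∈ U, T y ∈ U) → ∀ y ∈ U, s y ∈ U

/-- For each operator `T` in `A` which has no common eigenvalue on the even and the odd part (over
some extension field `L` of `K`) the projector onto the even part is `g(T)` for a polynomial `g` with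
rational coefficients. -/
def RationalPolynomial (s : Module.End K V) (A : Set (Module.End K V)) : Prop :=
  ∀ T ∈ A, ∀ (L : Type w) [Field L] [Algebra K L], NoCommonEigenvalue (bc L s) (bc L T) →
    ∃ g : ℚ[X], evenProj s = ∑ n ∈ g.support, (g.coeff n : K) • T ^ n

/-- The assertion `P` is equivalent to each of six assertions on the parity operator `s` and the set
`A` of algebraic operators. -/
def EquivalentForms (s : Module.End K V) (A : Set (Module.End K V)) (P : Prop) : Prop :=
  List.TFAE [P, CombinationOverK s A, CombinationOverSomeField s A, SeparatedOverSomeField s A,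
    ∃ T ∈ A, NoCommonEigenvalue s T, SeparatesPairs s A, StableSubspacesGraded s A]

end Forms

section Lin

variable {F V : Type*} [Field F] [AddCommGroup V] [Module F V] {s p T : Module.End F V}

lemma mul_eq_zero_of_even (hp : p * p = p) (hs : s = p - (1 - p)) {B : Module.End F V}
    (h : ∀ y, s y = y → B y = 0) : B * p = 0 := by
  apply LinearMap.ext
  intro y
  rw [Module.End.mul_apply, LinearMap.zero_apply]
  apply h
  have e : p (p y) = p y := LinearMap.congr_fun hp y
  rw [hs]
  change p (p y) - (p y - p (p y)) = p y
  rw [e]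
  abel

lemma mul_eq_zero_of_odd (hp : p * p = p) (hs : s = p - (1 - p)) {B : Module.End F V}
    (h : ∀ y, s y = -y → B y = 0) : B * (1 - p) = 0 := by
  apply LinearMap.ext
  intro y
  rw [Module.End.mul_apply, LinearMap.zero_apply]
  apply h
  have e : p (p y) = p y := LinearMap.congr_fun hp y
  rw [hs]
  change p (y - p y) - ((y - p y) - p (y - p y)) = -(y - p y)
  rw [map_sub, e]
  abel

lemma even_iff (h2 : (2 : F) ≠ 0) (hs : s = p - (1 - p)) (y : V) : s y = y ↔ p y = y := by
  rw [hs]
  change p y - (y - p y) = y ↔ p y = y
  constructor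
  · intro h
    have e : (2 : F) • (p y - y) = 0 := by
      rw [two_smul]
      have : p y - y + (p y - y) = (p y - (y - p y)) - y := by abel
      rw [this, h, sub_self]
    rcases smul_eq_zero.1 e with h' | h'
    · exact absurd h' h2
    · exact sub_eq_zero.1 h'
  · intro h
    rw [h]; abel

lemma odd_iff (h2 : (2 : F) ≠ 0) (hs : s = p - (1 - p)) (y : V) : s y = -y ↔ p y = 0 := by
  rw [hs]
  change p y - (y - p y) = -y ↔ p y = 0
  constructor
  · intro h
    have e : (2 : F) • (p y) = 0 := by
      rw [two_smul]
      have : p y + p y = (p y - (y - p y)) + y := by abel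
      rw [this, h]; abel
    rcases smul_eq_zero.1 e with h' | h'
    · exact absurd h' h2
    · exact h'
  · intro h
    rw [h]; abel

lemma noCommon_self (h2 : (2 : F) ≠ 0) (hs : s = p - (1 - p)) : NoCommonEigenvalue s p := by
  refine ⟨X - C 1, X, ?_, fun y hy => ?_, fun y hy => ?_⟩
  · refine ⟨-1, 1, ?_⟩
    rw [C_1]; ring
  · rw [map_sub, aeval_X, aeval_C, map_one, LinearMap.sub_apply, (even_iff h2 hs y).1 hy,
      Module.End.one_apply, sub_self]
  · rw [aeval_X, (odd_iff h2 hs y).1 hy]

lemma NoCommonEigenvalue.poly (hp : p * p = p) (hs : s = p - (1 - p))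
    (h : NoCommonEigenvalue s T) : ∃ g : F[X], aeval T g = p := by
  obtain ⟨P, Q, hPQ, h1, h2⟩ := h
  exact exists_poly hPQ (mul_eq_zero_of_even hp hs h1) (mul_eq_zero_of_odd hp hs h2)

end Lin

section CatDefs

variable {C : Type u} [Category.{v} C] [Preadditive C] [MonoidalCategory C]
  [SymmetricCategory C] {K : Type w} [Field K] (R : SuperRealisation C K)

/-- The algebraic operators on the realisation of `M`: those induced by endomorphisms of `M`. -/
def algOps (M : C) : Set (Module.End K (R.H.obj M)) :=
  Set.range fun f : M ⟶ M => ((R.H.map f).hom : Module.End K (R.H.obj M))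

/-- The parity operator, `1` on the even and `-1` on the odd part. -/
noncomputable def parity (M : C) : Module.End K (R.H.obj M) := (R.par M).hom

lemma evenProj_eq (M : C) : evenProj (parity R M) = evp R M := by
  rw [evenProj, evp, Pool.Agent.Y112.SC.pe, ModuleCat.hom_smul, ModuleCat.hom_add,
    ModuleCat.hom_id]
  rfl

end CatDefs

section Cat

variable {C : Type u} [Category.{v} C] [Preadditive C] [Linear ℚ C] [MonoidalCategory C]
  [SymmetricCategory C] {K : Type w} [Field K] (R : SuperRealisation C K)

lemma parity_eq (M : C) : parity R M = evp R M - (1 - evp R M) := par_hom R M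

lemma mem_algOps {M : C} (f : M ⟶ M) : op R f ∈ algOps R M := ⟨f, rfl⟩

lemma one_mem (M : C) : (1 : Module.End K (R.H.obj M)) ∈ algOps R M := ⟨𝟙 M, op_id R M⟩

lemma mul_mem {M : C} : ∀ x ∈ algOps R M, ∀ y ∈ algOps R M, x * y ∈ algOps R M := by
  rintro _ ⟨f, rfl⟩ _ ⟨g, rfl⟩
  exact ⟨g ≫ f, op_comp R g f⟩

lemma add_mem {M : C} : ∀ x ∈ algOps R M, ∀ y ∈ algOps R M, x + y ∈ algOps R M := by
  rintro _ ⟨f, rfl⟩ _ ⟨g, rfl⟩
  exact ⟨f + g, op_add R f g⟩

lemma smul_mem {M : C} (q : ℚ) : ∀ x ∈ algOps R M, ((q : K) • x) ∈ algOps R M := by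
  rintro _ ⟨f, rfl⟩
  exact ⟨q • f, op_smul R q f⟩

lemma span_comm {M : C} {x : Module.End K (R.H.obj M)}
    (hx : x ∈ Submodule.span K (algOps R M)) : evp R M * x = x * evp R M := by
  induction hx using Submodule.span_induction with
  | mem x hx =>
    obtain ⟨f, rfl⟩ := hx
    exact (op_comm R f).symm.eq
  | zero => rw [mul_zero, zero_mul]
  | add x z _ _ h1 h2 => rw [mul_add, add_mul, h1, h2]
  | smul a x _ h1 => rw [mul_smul_comm, smul_mul_assoc, h1]

lemma span_mul {M : C} : ∀ x ∈ Submodule.span K (algOps R M),
    ∀ y ∈ Submodule.span K (algOps R M), x * y ∈ Submodule.span K (algOps R M) := by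
  intro x hx y hy
  induction hx using Submodule.span_induction with
  | mem x hx =>
    induction hy using Submodule.span_induction with
    | mem y hy => exact Submodule.subset_span (mul_mem R x hx y hy)
    | zero => rw [mul_zero]; exact Submodule.zero_mem _
    | add y z _ _ h1 h2 => rw [mul_add]; exact Submodule.add_mem _ h1 h2
    | smul a y _ h1 => rw [mul_smul_comm]; exact Submodule.smul_mem _ a h1
  | zero => rw [zero_mul]; exact Submodule.zero_mem _
  | add x z _ _ h1 h2 => rw [add_mul]; exact Submodule.add_mem _ h1 h2
  | smul a x _ h1 => rw [smul_mul_assoc]; exact Submodule.smul_mem _ a h1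

/-- The value `g(f)` of a polynomial with rational coefficients at an endomorphism. -/
noncomputable def polyAt {M : C} (f : M ⟶ M) (g : ℚ[X]) : M ⟶ M :=
  ∑ n ∈ g.support, g.coeff n • pw f n

/-- Polynomials in an endomorphism and in its operator. -/
lemma op_polyAt {M : C} (f : M ⟶ M) (g : ℚ[X]) [CharZero K] :
    op R (polyAt f g) = aeval (op R f) (g.map (algebraMap ℚ K)) := by
  let φ : (M ⟶ M) →+ Module.End K (R.H.obj M) := AddMonoidHom.mk' (op R) (op_add R)
  have hφ : ∀ x, φ x = op R x := fun _ => rfl
  rw [polyAt, ← hφ, map_sum, aeval_def, eval₂_map, eval₂_eq_sum, Polynomial.sum]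
  refine Finset.sum_congr rfl (fun n _ => ?_)
  rw [hφ, op_smul, op_pw, RingHom.comp_apply, Algebra.smul_def]
  congr 1

end Cat

section Main

variable {C : Type u} [Category.{v} C] [Preadditive C] [Linear ℚ C] [MonoidalCategory C]
  [MonoidalPreadditive C] [MonoidalLinear ℚ C] [SymmetricCategory C] [RightRigidCategory C]
  {K : Type w} [Field K] (R : SuperRealisation C K)

lemma rational_str (hU : UnitQ C) {M : C} (f : M ⟶ M) :
    ∃ q : ℚ, LinearMap.trace K (R.H.obj M) (evp R M * op R f) -
      LinearMap.trace K (R.H.obj M) ((1 - evp R M) * op R f) = (q : K) := by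
  refine ⟨ctr hU f, ?_⟩
  rw [ctr_eq R, str_eq, sub_mul (evp R M), map_sub]

/-- Descent of the sign conjecture to rational coefficients. -/
lemma cplus_of_span (hU : UnitQ C) {M : C}
    (h : evp R M ∈ Submodule.span K (algOps R M)) : R.CPlus M := by
  have hc := R_charZero R
  have hfin := R.finite M
  rw [cplus_iff_op]
  have := mem_of_span (one_mem R M) (add_mem R) (smul_mem R) (mul_mem R) (evp_idem R M)
    (fun x hx => span_comm R (Submodule.subset_span hx))
    (by
      rintro _ ⟨f, rfl⟩
      exact rational_str R hU f) h
  obtain ⟨f, hf⟩ := this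
  exact ⟨f, hf⟩

/-- **The projector is a rational polynomial in each endomorphism with separated spectra.** -/
theorem rationalPolynomial (hU : UnitQ C) (M : C) :
    RationalPolynomial (parity R M) (algOps R M) := by
  rintro _ ⟨f, rfl⟩ L _ _ h
  change NoCommonEigenvalue (bc L (parity R M)) (bc L (op R f)) at h
  change ∃ g : ℚ[X], evenProj (parity R M) = ∑ n ∈ g.support, (g.coeff n : K) • op R f ^ n
  have hc := R_charZero R
  have hfin := R.finite M
  have hLs : bc L (parity R M) = bc L (evp R M) - (1 - bc L (evp R M)) := by
    rw [parity_eq, bc, map_sub, map_sub, map_one]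
    rfl
  have hLp : bc L (evp R M) * bc L (evp R M) = bc L (evp R M) := by
    rw [← bc_mul, evp_idem]
  obtain ⟨g, hg⟩ := h.poly hLp hLs
  let A : Set (Module.End K (R.H.obj M)) :=
    {x | ∃ h : ℚ[X], x = aeval (op R f) (h.map (algebraMap ℚ K))}
  have hA1 : (1 : Module.End K (R.H.obj M)) ∈ A := ⟨1, by rw [Polynomial.map_one, map_one]⟩
  have hAm : ∀ x ∈ A, ∀ y ∈ A, x * y ∈ A := by
    rintro _ ⟨a, rfl⟩ _ ⟨b, rfl⟩
    exact ⟨a * b, by rw [Polynomial.map_mul, map_mul]⟩
  have hAa : ∀ x ∈ A, ∀ y ∈ A, x + y ∈ A := by
    rintro _ ⟨a, rfl⟩ _ ⟨b, rfl⟩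
    exact ⟨a + b, by rw [Polynomial.map_add, map_add]⟩
  have hAs : ∀ q : ℚ, ∀ x ∈ A, ((q : K) • x) ∈ A := by
    rintro q _ ⟨a, rfl⟩
    refine ⟨Polynomial.C q * a, ?_⟩
    rw [Polynomial.map_mul, map_mul, map_C, aeval_C, Algebra.smul_def]
    congr 1
  have hAf : op R f ∈ A := ⟨X, by rw [map_X, aeval_X]⟩
  have hsub : ∀ x ∈ A, x ∈ algOps R M := by
    rintro _ ⟨a, rfl⟩
    exact ⟨polyAt f a, op_polyAt R f a⟩
  have h1 : bc L (evp R M) ∈ Submodule.span L (bc L '' A) := by
    rw [← hg]
    exact aeval_mem_span hA1 hAm (Submodule.subset_span ⟨_, hAf, rfl⟩) g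
  have h2 := mem_span_of_bc h1
  have h3 := mem_of_span hA1 hAa hAs hAm (evp_idem R M)
    (fun x hx => span_comm R (Submodule.subset_span (hsub x hx)))
    (by
      intro x hx
      obtain ⟨g, rfl⟩ := hsub x hx
      exact rational_str R hU g) h2
  obtain ⟨g, hg⟩ := h3
  refine ⟨g, ?_⟩
  rw [evenProj_eq, hg, aeval_def, eval₂_map, eval₂_eq_sum, Polynomial.sum]
  refine Finset.sum_congr rfl (fun n _ => ?_)
  rw [RingHom.comp_apply, Algebra.smul_def]
  congr 1

/-- **Separation of the spectra and independence of the coefficients.** -/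
theorem sign_tfae (hU : UnitQ C) (M : C) :
    EquivalentForms (parity R M) (algOps R M) (R.CPlus M) := by
  simp only [EquivalentForms, CombinationOverK, CombinationOverSomeField, SeparatedOverSomeField,
    CombinationOver, SeparatedOver, spanOver,
    SeparatesPairs, StableSubspacesGraded]
  have hc := R_charZero R
  have hfin := R.finite M
  have h2 : (2 : K) ≠ 0 := two_ne_zero
  have hs := parity_eq R M
  have hp := evp_idem R M
  rw [evenProj_eq]
  tfae_have 1 → 5 := by
    intro h
    rw [cplus_iff_op] at h
    obtain ⟨f, hf⟩ := h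
    refine ⟨op R f, mem_algOps R f, ?_⟩
    rw [hf]
    exact noCommon_self h2 hs
  tfae_have 5 → 2 := by
    rintro ⟨T, hT, hf⟩
    obtain ⟨g, hg⟩ := hf.poly hp hs
    rw [← hg]
    have hpow : ∀ n : ℕ, T ^ n ∈ Submodule.span K (algOps R M) := by
      intro n
      induction n with
      | zero => rw [pow_zero]; exact Submodule.subset_span (one_mem R M)
      | succ n ih => rw [pow_succ]; exact span_mul R _ ih _ (Submodule.subset_span hT)
    rw [aeval_eq_sum_range]
    exact Submodule.sum_mem _ (fun i _ => Submodule.smul_mem _ _ (hpow i))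
  tfae_have 2 → 1 := cplus_of_span R hU
  tfae_have 1 → 3 := by
    intro h
    rw [cplus_iff_op] at h
    obtain ⟨f, hf⟩ := h
    refine ⟨K, inferInstance, inferInstance, ?_⟩
    rw [← hf]
    exact Submodule.subset_span ⟨_, mem_algOps R f, rfl⟩
  tfae_have 3 → 4 := by
    rintro ⟨L, _, _, h⟩
    refine ⟨L, inferInstance, inferInstance, _, h, ?_⟩
    have h2L : (2 : L) ≠ 0 := by
      have : (2 : L) = algebraMap K L 2 := by rw [map_ofNat]
      rw [this]
      exact fun h' => h2 ((map_eq_zero _).1 h')
    apply noCommon_self h2L
    rw [hs, bc, map_sub, map_sub, map_one]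
    rfl
  tfae_have 4 → 3 := by
    rintro ⟨L, _, _, T, hT, h⟩
    refine ⟨L, inferInstance, inferInstance, ?_⟩
    have hLs : bc L (parity R M) = bc L (evp R M) - (1 - bc L (evp R M)) := by
      rw [parity_eq, bc, map_sub, map_sub, map_one]
      rfl
    have hLp : bc L (evp R M) * bc L (evp R M) = bc L (evp R M) := by
      rw [← bc_mul, evp_idem]
    obtain ⟨g, hg⟩ := h.poly hLp hLs
    rw [← hg]
    exact aeval_mem_span (one_mem R M) (mul_mem R) hT g
  tfae_have 3 → 2 := by
    rintro ⟨L, _, _, h⟩
    exact mem_span_of_bc h
  tfae_have 1 → 7 := by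
    intro h U hU' y hy
    rw [cplus_iff_op] at h
    obtain ⟨f, hf⟩ := h
    have h1 : evp R M y ∈ U := by
      rw [← hf]
      exact hU' _ (mem_algOps R f) y hy
    rw [hs]
    exact U.sub_mem h1 (U.sub_mem hy h1)
  tfae_have 7 → 6 := by
    intro h y y' hy hy'
    have hpy : evp R M y = y := (even_iff h2 hs y).1 hy
    have hpy' : evp R M y' = 0 := (odd_iff h2 hs y').1 hy'
    let U : Submodule K (R.H.obj M) :=
      (Submodule.span K (algOps R M)).map (LinearMap.applyₗ (R := K) (y + y'))
    have hyU : y + y' ∈ U := ⟨1, Submodule.subset_span (one_mem R M), rfl⟩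
    have h3 := h U (by
      rintro T hT _ ⟨S, hS, rfl⟩
      exact ⟨T * S, span_mul R _ (Submodule.subset_span hT) _ hS, rfl⟩) _ hyU
    have h4 : y ∈ U := by
      have h5 : (2 : K) • y ∈ U := by
        have h6 : (2 : K) • y = parity R M (y + y') + (y + y') := by
          rw [map_add, hy, hy', two_smul]; abel
        rw [h6]
        exact U.add_mem h3 hyU
      have := U.smul_mem (2 : K)⁻¹ h5
      rwa [smul_smul, inv_mul_cancel₀ h2, one_smul] at this
    obtain ⟨T, hT, hTy⟩ := h4
    have hTy' : T (y + y') = y := hTy
    have hcomm := LinearMap.congr_fun (span_comm R hT) (y + y')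
    have h5 : T y = y := by
      have : evp R M (T (y + y')) = T (evp R M (y + y')) := hcomm
      rw [hTy', map_add (evp R M), hpy, hpy', add_zero] at this
      exact this.symm
    refine ⟨T, hT, h5, ?_⟩
    rw [map_add, h5] at hTy'
    exact add_eq_left.1 hTy'
  tfae_have 6 → 2 := by
    intro h
    obtain ⟨c, hc, h3, h4⟩ := Pool.Agent.TH133.PW.separate_two (A := Submodule.span K (algOps R M))
      (Submodule.subset_span (one_mem R M)) (span_mul R)
      (U := LinearMap.ker (evp R M - 1)) (U' := LinearMap.ker (evp R M))
      (IsNoetherian.noetherian _) (IsNoetherian.noetherian _)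
      (by
        intro b hb y hy
        rw [LinearMap.mem_ker, LinearMap.sub_apply, Module.End.one_apply, sub_eq_zero] at hy ⊢
        have := LinearMap.congr_fun (span_comm R hb) y
        rw [Module.End.mul_apply, Module.End.mul_apply, hy] at this
        exact this)
      (by
        intro b hb y hy
        rw [LinearMap.mem_ker] at hy ⊢
        have := LinearMap.congr_fun (span_comm R hb) y
        rw [Module.End.mul_apply, Module.End.mul_apply, hy, map_zero] at this
        exact this)
      (by
        intro y hy y' hy'
        rw [LinearMap.mem_ker, LinearMap.sub_apply, Module.End.one_apply, sub_eq_zero] at hy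
        rw [LinearMap.mem_ker] at hy'
        exact h y y' ((even_iff h2 hs y).2 hy) ((odd_iff h2 hs y').2 hy'))
    have h5 : evp R M = 1 - c := by
      apply LinearMap.ext
      intro y
      have e1 : y = evp R M y + (y - evp R M y) := by abel
      have e0 : evp R M (evp R M y) = evp R M y := LinearMap.congr_fun hp y
      have e2 : c (evp R M y) = 0 := h3 _ (by
        rw [LinearMap.mem_ker, LinearMap.sub_apply, Module.End.one_apply, e0, sub_self])
      have e3 : c (y - evp R M y) = y - evp R M y := h4 _ (by
        rw [LinearMap.mem_ker, map_sub, e0, sub_self])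
      rw [LinearMap.sub_apply, Module.End.one_apply]
      have e4 : c y = y - evp R M y := by
        conv_lhs => rw [e1, map_add, e2, e3, zero_add]
      rw [e4]; abel
    rw [h5]
    exact Submodule.sub_mem _ (Submodule.subset_span (one_mem R M)) hc
  tfae_finish

end Main

end Pool.Agent.R255.NcSep
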